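import Mathlib

open Set Topology Filter

namespace Pool.Agent.H758Z.Cone

abbrev X : Type := ℕ → Bool

abbrev E : Type := X → ℝ

abbrev Nd : Type := Σ n : ℕ, (Fin n → Bool)

def inCyl (s : Nd) (y : X) : Prop := ∀ i : Fin s.1, y i = s.2 i

open Classical in
noncomputable def chi (s : Nd) (y : X) : ℝ := if inCyl s y then 1 else 0

open Classical in
noncomputable def del (x : X) (y : X) : ℝ := if y = x then 1 else 0

def Btw (y z w : X) : Prop := ∀ n : ℕ, (∀ i < n, y i = z i) → ∀ i < n, w i = y i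

def KK : Set E := {f | (∀ y, f y ∈ Icc (0 : ℝ) 1) ∧
  ∀ y z w, Btw y z w → f y = 0 ∨ f z = 0 ∨ f w = f y}

lemma isClosed_KK : IsClosed KK := by
  have h1 : IsClosed {f : E | ∀ y, f y ∈ Icc (0 : ℝ) 1} := by
    rw [setOf_forall]
    exact isClosed_iInter fun y => isClosed_Icc.preimage (continuous_apply y)
  have h2 : IsClosed {f : E | ∀ y z w, Btw y z w → f y = 0 ∨ f z = 0 ∨ f w = f y} := by
    simp only [setOf_forall]
    refine isClosed_iInter fun y => isClosed_iInter fun z => isClosed_iInter fun w =>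
      isClosed_iInter fun _ => ?_
    exact (isClosed_eq (continuous_apply y) continuous_const).union
      ((isClosed_eq (continuous_apply z) continuous_const).union
        (isClosed_eq (continuous_apply w) (continuous_apply y)))
  exact h1.inter h2

lemma isCompact_KK : IsCompact KK := by
  have h : IsCompact (Set.pi univ (fun _ : X => Icc (0 : ℝ) 1)) :=
    isCompact_univ_pi fun _ => isCompact_Icc
  exact h.of_isClosed_subset isClosed_KK fun f hf y _ => hf.1 y

lemma smul_chi_mem (s : Nd) {t : ℝ} (ht : t ∈ Icc (0 : ℝ) 1) :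
    (fun y => t * chi s y) ∈ KK := by
  refine ⟨fun y => ?_, fun y z w h => ?_⟩
  · simp only [chi]
    split_ifs
    · simpa using ht
    · simp
  · by_cases hy : inCyl s y
    · by_cases hz : inCyl s z
      · right; right
        have hw : inCyl s w := by
          intro i
          have := h s.1 (fun j hj => by
            rw [hy ⟨j, hj⟩, hz ⟨j, hj⟩]) i i.2
          rw [this, hy i]
        simp [chi, hw, hy]
      · right; left; simp [chi, hz]
    · left; simp [chi, hy]

lemma struct {f : E} (hf : f ∈ KK) :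
    (∃ s : Nd, ∃ t ∈ Icc (0 : ℝ) 1, f = fun y => t * chi s y) ∨
      ∃ x : X, ∃ t : ℝ, t ≠ 0 ∧ f = fun y => t * del x y := by
  classical
  by_cases h0 : ∀ y, f y = 0
  · left
    refine ⟨⟨0, fun i => i.elim0⟩, 0, by simp, ?_⟩
    funext y; simp [h0 y]
  push Not at h0
  obtain ⟨y, hy⟩ := h0
  by_cases h1 : ∀ z, f z ≠ 0 → z = y
  · right
    refine ⟨y, f y, hy, ?_⟩
    funext z
    by_cases hz : z = y
    · subst hz; simp [del]
    · have : f z = 0 := by
        by_contra h; exact hz (h1 z h)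
      simp [del, hz, this]
  · left
    push Not at h1
    have hex : ∃ n : ℕ, ∃ z, f z ≠ 0 ∧ z n ≠ y n := by
      obtain ⟨z, hz, hzy⟩ := h1
      obtain ⟨n, hn⟩ := Function.ne_iff.mp hzy
      exact ⟨n, z, hz, hn⟩
    obtain ⟨z, hz, hzn⟩ := Nat.find_spec hex
    have hmin : ∀ i < Nat.find hex, ∀ w, f w ≠ 0 → w i = y i := by
      intro i hi w hw
      by_contra h
      exact Nat.find_min hex hi ⟨w, hw, h⟩
    refine ⟨⟨Nat.find hex, fun i => y i⟩, f y, hf.1 y, ?_⟩
    funext w
    by_cases hw : inCyl ⟨Nat.find hex, fun i => y i⟩ w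
    · have hb : Btw y z w := by
        intro n hn i hi
        have hle : n ≤ Nat.find hex := by
          by_contra hlt
          push Not at hlt
          exact hzn (hn _ hlt).symm
        exact hw ⟨i, lt_of_lt_of_le hi hle⟩
      rcases hf.2 y z w hb with h | h | h
      · exact absurd h hy
      · exact absurd h hz
      · simp [chi, hw, h]
    · have : f w = 0 := by
        by_contra h
        exact hw fun i => hmin i i.2 w h
      simp [chi, hw, this]

lemma sep_of_cover {I : Type} [Countable I] (g : I → E) (A : Set E)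
    (hA : ∀ f ∈ A, ∃ i, ∃ t : ℝ, f = fun y => t * g i y) :
    ∃ C ⊆ A, C.Countable ∧ A ⊆ closure C := by
  have hc : ∀ i, Continuous (fun t : ℝ => (fun y => t * g i y : E)) := fun i =>
    continuous_pi fun y => continuous_id.mul continuous_const
  have h : ∀ i, ∃ D : Set ℝ, D ⊆ (fun t : ℝ => (fun y => t * g i y : E)) ⁻¹' A ∧ D.Countable ∧
      (fun t : ℝ => (fun y => t * g i y : E)) ⁻¹' A ⊆ closure D := fun i =>
    (TopologicalSpace.IsSeparable.of_separableSpace _).exists_countable_dense_subset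
  choose D hD1 hD2 hD3 using h
  refine ⟨⋃ i, (fun t : ℝ => (fun y => t * g i y : E)) '' D i, ?_, ?_, ?_⟩
  · refine iUnion_subset fun i => ?_
    rintro _ ⟨t, ht, rfl⟩
    exact hD1 i ht
  · exact countable_iUnion fun i => (hD2 i).image _
  · intro f hf
    obtain ⟨i, t, rfl⟩ := hA f hf
    have := image_closure_subset_closure_image (hc i) ⟨t, hD3 i hf, rfl⟩
    exact closure_mono (subset_iUnion (fun i => (fun t : ℝ => (fun y => t * g i y : E)) '' D i) i)
      this

lemma tight_del (A : Set E) (hA : A ⊆ KK)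
    (hA' : ∀ f ∈ A, ∃ x : X, ∃ t : ℝ, t ≠ 0 ∧ f = fun y => t * del x y) {p : E}
    (hp : p ∈ closure A) : ∃ C ⊆ A, C.Countable ∧ p ∈ closure C := by
  classical
  by_cases h0 : ∃ y, p y ≠ 0
  · obtain ⟨y, hy⟩ := h0
    have hU : IsOpen {f : E | f y ≠ 0} := isOpen_ne_fun (continuous_apply y) continuous_const
    have h1 : p ∈ closure ({f : E | f y ≠ 0} ∩ A) := hU.inter_closure ⟨hy, hp⟩
    obtain ⟨C, hC1, hC2, hC3⟩ := sep_of_cover (I := Unit) (fun _ => del y)
      ({f : E | f y ≠ 0} ∩ A) (by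
        rintro f ⟨hf1, hf2⟩
        obtain ⟨x, t, -, rfl⟩ := hA' f hf2
        have : y = x := by
          by_contra h
          apply hf1
          simp [del, h]
        subst this
        exact ⟨(), t, rfl⟩)
    exact ⟨C, hC1.trans inter_subset_right, hC2,
      closure_minimal hC3 isClosed_closure h1⟩
  · push Not at h0
    have hp0 : p = 0 := funext h0
    subst hp0
    set T : Set X := {x | ∃ t : ℝ, (fun y => t * del x y) ∈ A} with hT
    by_cases hfin : T.Finite
    · haveI : Finite T := hfin.to_subtype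
      obtain ⟨C, hC1, hC2, hC3⟩ := sep_of_cover (I := T) (fun x => del x.1) A (by
        intro f hf
        obtain ⟨x, t, -, rfl⟩ := hA' f hf
        exact ⟨⟨x, t, hf⟩, t, rfl⟩)
      exact ⟨C, hC1, hC2, closure_minimal hC3 isClosed_closure hp⟩
    · have hinf : T.Infinite := hfin
      let e := hinf.natEmbedding T
      have he : ∀ k, ∃ t : ℝ, (fun y => t * del (e k).1 y) ∈ A := fun k => (e k).2
      choose t ht using he
      refine ⟨range (fun k => (fun y => t k * del (e k).1 y : E)), ?_, countable_range _, ?_⟩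
      · rintro _ ⟨k, rfl⟩; exact ht k
      · refine mem_closure_of_tendsto (f := fun k => (fun y => t k * del (e k).1 y : E))
          (b := atTop) ?_ (Eventually.of_forall fun k => mem_range_self k)
        rw [tendsto_pi_nhds]
        intro y
        refine tendsto_const_nhds.congr' ?_
        have hfin' : {k : ℕ | (e k).1 = y}.Finite := by
          refine Set.Subsingleton.finite ?_
          intro a ha b hb
          apply e.injective
          apply Subtype.ext
          rw [ha, hb]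
        have := hfin'.compl_mem_cofinite
        rw [Nat.cofinite_eq_atTop] at this
        filter_upwards [this] with k hk
        have : y ≠ (e k).1 := fun h => hk h.symm
        simp [del, this]

lemma tight (A : Set E) (hA : A ⊆ KK) {p : E} (hp : p ∈ closure A) :
    ∃ C ⊆ A, C.Countable ∧ p ∈ closure C := by
  set A1 : Set E := {f ∈ A | ∃ s : Nd, ∃ t : ℝ, f = fun y => t * chi s y} with hA1
  set A2 : Set E := {f ∈ A | ∃ x : X, ∃ t : ℝ, t ≠ 0 ∧ f = fun y => t * del x y} with hA2
  have hcov : A ⊆ A1 ∪ A2 := by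
    intro f hf
    rcases struct (hA hf) with ⟨s, t, -, h⟩ | h
    · exact Or.inl ⟨hf, s, t, h⟩
    · exact Or.inr ⟨hf, h⟩
  have := closure_mono hcov hp
  rw [closure_union] at this
  rcases this with h | h
  · obtain ⟨C, hC1, hC2, hC3⟩ := sep_of_cover chi A1 (fun f hf => hf.2)
    exact ⟨C, hC1.trans (sep_subset _ _), hC2, closure_minimal hC3 isClosed_closure h⟩
  · obtain ⟨C, hC1, hC2, hC3⟩ := tight_del A2 ((sep_subset _ _).trans hA) (fun f hf => hf.2) h
    exact ⟨C, hC1.trans (sep_subset _ _), hC2, hC3⟩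

lemma tight_sub (A : Set KK) (x : KK) (hx : x ∈ closure A) :
    ∃ C : Set KK, C ⊆ A ∧ C.Countable ∧ x ∈ closure C := by
  rw [closure_subtype] at hx
  obtain ⟨C, hC1, hC2, hC3⟩ := tight _ (by rintro _ ⟨f, -, rfl⟩; exact f.2) hx
  refine ⟨Subtype.val ⁻¹' C, ?_, hC2.preimage Subtype.val_injective, ?_⟩
  · intro f hf
    obtain ⟨g, hg, hgf⟩ := hC1 hf
    rwa [← Subtype.ext hgf]
  · rw [closure_subtype, image_preimage_eq_of_subset]
    · exact hC3
    · intro f hf
      obtain ⟨g, -, hgf⟩ := hC1 hf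
      exact ⟨g, hgf⟩

lemma exists_path : ∃ φ : ℝ → E, Continuous φ ∧ (∀ r, φ r ∈ KK) ∧ φ 0 = 0 ∧
    ∀ s : Nd, ∃ r, φ r = chi s := by
  haveI : Nonempty Nd := ⟨⟨0, fun i => i.elim0⟩⟩
  obtain ⟨e, he⟩ := exists_surjective_nat Nd
  refine ⟨fun r y => |Real.sin (Real.pi * r)| * chi (e ⌊r⌋.toNat) y, ?_, ?_, ?_, ?_⟩
  · refine continuous_pi fun y => continuous_iff_continuousAt.mpr fun r => ?_
    have hs : Continuous fun r : ℝ => |Real.sin (Real.pi * r)| := by fun_prop
    by_cases hr : (⌊r⌋ : ℝ) = r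
    · have h0 : |Real.sin (Real.pi * r)| = 0 := by
        rw [← hr, mul_comm, Real.sin_int_mul_pi, abs_zero]
      unfold ContinuousAt
      simp only [h0, zero_mul]
      refine squeeze_zero (g := fun r : ℝ => |Real.sin (Real.pi * r)|) (fun r => ?_)
        (fun r => ?_) ?_
      · refine mul_nonneg (abs_nonneg _) ?_
        unfold chi; split_ifs <;> norm_num
      · refine mul_le_of_le_one_right (abs_nonneg _) ?_
        unfold chi; split_ifs <;> norm_num
      · have := hs.continuousAt (x := r)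
        unfold ContinuousAt at this
        simpa only [h0] using this
    · have hlt : (⌊r⌋ : ℝ) < r := lt_of_le_of_ne (Int.floor_le r) hr
      have hn : Ioo (⌊r⌋ : ℝ) (⌊r⌋ + 1) ∈ 𝓝 r := Ioo_mem_nhds hlt (Int.lt_floor_add_one r)
      have : (fun r' : ℝ => |Real.sin (Real.pi * r')| * chi (e ⌊r⌋.toNat) y) =ᶠ[𝓝 r]
          fun r' : ℝ => |Real.sin (Real.pi * r')| * chi (e ⌊r'⌋.toNat) y := by
        filter_upwards [hn] with r' hr'
        have : ⌊r'⌋ = ⌊r⌋ := Int.floor_eq_iff.mpr ⟨hr'.1.le, hr'.2⟩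
        rw [this]
      exact (hs.mul continuous_const).continuousAt.congr this
  · intro r
    exact smul_chi_mem _ ⟨abs_nonneg _, Real.abs_sin_le_one _⟩
  · funext y; simp
  · intro s
    obtain ⟨n, rfl⟩ := he s
    refine ⟨(n : ℝ) + 1 / 2, ?_⟩
    have h1 : ⌊(n : ℝ) + 1 / 2⌋ = n := by
      rw [Int.floor_eq_iff]
      constructor
      · push_cast; linarith
      · push_cast; linarith
    have h2 : |Real.sin (Real.pi * ((n : ℝ) + 1 / 2))| = 1 := by
      have : Real.pi * ((n : ℝ) + 1 / 2) = Real.pi / 2 + n * Real.pi := by ring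
      rw [this, Real.sin_add_nat_mul_pi, Real.sin_pi_div_two]
      simp
    funext y
    simp only [h1, h2, Int.toNat_natCast, one_mul]

lemma not_fc {Z : Type} [TopologicalSpace Z] (j : Z → E) (hj : IsInducing j) (p : Z)
    (hp : j p = 0) (hs : ∀ s : Nd, ∃ z, j z = chi s) : ¬ FirstCountableTopology Z := by
  classical
  intro hZ
  obtain ⟨U, hU⟩ := (𝓝 p).exists_antitone_basis
  have h1 : ∀ k, ∃ F : Set X, F.Finite ∧ ∀ z, (∀ y ∈ F, j z y = 0) → z ∈ U k := by
    intro k
    have hk : U k ∈ 𝓝 p := hU.mem k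
    rw [hj.nhds_eq_comap, hp, mem_comap] at hk
    obtain ⟨W, hW, hWU⟩ := hk
    rw [nhds_pi, Filter.mem_pi] at hW
    obtain ⟨I, hI, t, ht, htW⟩ := hW
    refine ⟨I, hI, fun z hz => hWU (htW fun y hy => ?_)⟩
    rw [hz y hy]
    exact mem_of_mem_nhds (ht y)
  choose F hF1 hF2 using h1
  have hc : (⋃ k, F k).Countable := countable_iUnion fun k => (hF1 k).countable
  have hy : ∃ y : X, y ∉ ⋃ k, F k := by
    by_contra h
    push Not at h
    have : (univ : Set X).Countable := hc.mono fun y _ => h y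
    rw [countable_univ_iff] at this
    obtain ⟨g, hg⟩ := exists_surjective_nat X
    obtain ⟨m, hm⟩ := hg (fun i => !(g i i))
    have := congrFun hm m
    simp at this
  obtain ⟨y, hy⟩ := hy
  have hV : {z | j z y < 1 / 2} ∈ 𝓝 p := by
    have hcont : Continuous fun z => j z y := (continuous_apply y).comp hj.continuous
    refine (isOpen_lt hcont continuous_const).mem_nhds ?_
    simp [hp]
  obtain ⟨k, hk⟩ := hU.mem_iff.mp hV
  have hdiff : ∀ w ∈ F k, ∃ n, w n ≠ y n := by
    intro w hw
    have : w ≠ y := by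
      rintro rfl
      exact hy (mem_iUnion.mpr ⟨k, hw⟩)
    exact Function.ne_iff.mp this
  choose! n hn using hdiff
  obtain ⟨N, hN⟩ := ((hF1 k).image n).bddAbove
  obtain ⟨z, hz⟩ := hs ⟨N + 1, fun i => y i⟩
  have hzU : z ∈ U k := by
    refine hF2 k z fun w hw => ?_
    rw [hz]
    have : ¬ inCyl ⟨N + 1, fun i => y i⟩ w := fun h =>
      hn w hw (h ⟨n w, Nat.lt_succ_of_le (hN (mem_image_of_mem n hw))⟩)
    simp [chi, this]
  have h2 := hk hzU
  have h3 : inCyl ⟨N + 1, fun i => y i⟩ y := fun i => rfl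
  simp only [mem_setOf_eq, hz, chi, h3, if_true] at h2
  norm_num at h2

theorem main : ∃ (K : Type) (_ : TopologicalSpace K) (_ : CompactSpace K) (_ : T2Space K),
    (∀ (A : Set K) (x : K), x ∈ closure A → ∃ C : Set K, C ⊆ A ∧ C.Countable ∧ x ∈ closure C) ∧
    ∀ (κ : Type) [Nonempty κ], ∃ φ : (κ → ℝ) → K, Continuous φ ∧
      ¬ TopologicalSpace.MetrizableSpace (Set.range φ) := by
  refine ⟨KK, inferInstance, isCompact_iff_compactSpace.mp isCompact_KK, inferInstance,
    tight_sub, ?_⟩
  intro κ hκ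
  obtain ⟨i⟩ := hκ
  obtain ⟨φ, hφ, hK, h0, hs⟩ := exists_path
  refine ⟨fun v => ⟨φ (v i), hK _⟩, (hφ.comp (continuous_apply i)).subtype_mk _, ?_⟩
  intro hm
  refine not_fc (Z := Set.range (fun v : κ → ℝ => (⟨φ (v i), hK _⟩ : KK)))
    (fun z => z.1.1) (IsInducing.subtypeVal.comp IsInducing.subtypeVal)
    ⟨_, mem_range_self (fun _ => 0)⟩ h0 ?_ inferInstance
  intro s
  obtain ⟨r, hr⟩ := hs s
  exact ⟨⟨_, mem_range_self (fun _ => r)⟩, hr⟩

end Pool.Agent.H758Z.Cone
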