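import Pool.Agent.H758Z.InfDefs

open Set Metric Filter Topology

namespace Pool.Agent.H758Z.InfH

/-- comparison with vertex cones for a two-point function -/
def CC (Ω : Set Plane) (ε : ℝ) (U : Plane → Plane → ℝ) : Prop :=
  ∀ x, closedBall x (2 * ε) ⊆ Ω → ∀ A, (∀ q ∈ closedBall x (2 * ε), U x q ≤ A) →
    ∀ q ∈ closedBall x (2 * ε), 2 * ε * U x q ≤ A * dist q x

lemma no_ray {K : Set Plane} (hK : Bornology.IsBounded K) {x e : Plane} (he : e ≠ 0)
    (h : ∀ n : ℕ, x + (n : ℝ) • e ∈ K) : False := by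
  obtain ⟨R, hR⟩ := hK.subset_closedBall x
  obtain ⟨n, hn⟩ := exists_nat_gt (R / ‖e‖)
  have := hR (h n)
  rw [mem_closedBall, dist_eq_norm, add_sub_cancel_left, norm_smul, Real.norm_natCast] at this
  rw [div_lt_iff₀ (norm_pos_iff.mpr he)] at hn
  linarith

lemma mid_eq {x y z : Plane} {ε : ℝ} (h1 : dist y x ≤ ε) (h2 : dist z y ≤ ε)
    (h3 : 2 * ε ≤ dist z x) : z - y = y - x := by
  rw [dist_eq_norm] at h1 h2 h3
  have e := parallelogram_law_with_norm ℝ (z - y) (y - x)
  have e1 : z - y + (y - x) = z - x := by abel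
  rw [e1] at e
  have n1 := norm_nonneg (y - x)
  have n2 := norm_nonneg (z - y)
  have n3 := norm_nonneg (z - y - (y - x))
  have : ‖z - y - (y - x)‖ * ‖z - y - (y - x)‖ ≤ 0 := by nlinarith
  have : ‖z - y - (y - x)‖ = 0 := by nlinarith
  exact sub_eq_zero.mp (norm_eq_zero.mp this)

theorem as_main {Ω K : Set Plane} (hK : IsCompact K) (hΩ : Ω ⊆ K) {ε η : ℝ} (hε : 0 < ε)
    {U V : Plane → Plane → ℝ} {d : Plane → ℝ} (hd : ContinuousOn d K)
    (hU : ContinuousOn (fun p : Plane × Plane => U p.1 p.2)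
      {p | p.1 ∈ K ∧ p.2 ∈ K ∧ dist p.2 p.1 ≤ 2 * ε})
    (hV : ∀ x ∈ K, ∀ y ∈ K, dist y x ≤ 2 * ε → V x y = U x y - (d y - d x))
    (co : ∀ x ∈ K, ∀ y ∈ K, ∀ z ∈ K, dist y x ≤ 2 * ε → dist z y ≤ 2 * ε → dist z x ≤ 2 * ε →
      U x y + U y z = U x z)
    (sU : ∀ x ∈ K, ∀ y ∈ K, dist y x ≤ 2 * ε → U x y ≤ η)
    (sV : ∀ x ∈ K, ∀ y ∈ K, dist y x ≤ 2 * ε → -V x y ≤ η)
    (deep : ∀ x ∈ K, η ≤ d x → closedBall x (2 * ε) ⊆ Ω)
    (cU : CC Ω ε U) (cV : CC Ω ε (fun x y => -V x y)) {x0 : Plane} (hx0 : x0 ∈ K) (hη : 0 ≤ η) :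
    d x0 < 3 * η := by
  by_contra hcon
  push Not at hcon
  have U0 : ∀ x ∈ K, U x x = 0 := fun x hx => by
    have := co x hx x hx x hx (by simp; linarith) (by simp; linarith) (by simp; linarith)
    linarith
  have Uanti : ∀ x ∈ K, ∀ y ∈ K, dist y x ≤ 2 * ε → U y x = -U x y := fun x hx y hy h => by
    have := co x hx y hy x hx h (by rwa [dist_comm]) (by simp; linarith)
    rw [U0 x hx] at this
    linarith
  set T : Set (Plane × Plane × Plane) :=
    {t | t.1 ∈ K ∧ t.2.1 ∈ K ∧ t.2.2 ∈ K ∧ dist t.2.1 t.1 ≤ ε ∧ dist t.2.2 t.1 ≤ ε} with hT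
  have hTc : IsCompact T := by
    refine (hK.prod (hK.prod hK)).of_isClosed_subset ?_ fun t ht => ⟨ht.1, ht.2.1, ht.2.2.1⟩
    have k := hK.isClosed
    exact (k.preimage continuous_fst).inter
      ((k.preimage (continuous_fst.comp continuous_snd)).inter
      ((k.preimage (continuous_snd.comp continuous_snd)).inter
      ((isClosed_le ((continuous_fst.comp continuous_snd).dist continuous_fst)
        continuous_const).inter
        (isClosed_le ((continuous_snd.comp continuous_snd).dist continuous_fst)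
          continuous_const))))
  have c1 : ContinuousOn (fun t : Plane × Plane × Plane => U t.1 t.2.1) T :=
    hU.comp (f := fun t : Plane × Plane × Plane => (t.1, t.2.1)) (by fun_prop)
      fun t ht => ⟨ht.1, ht.2.1, by linarith [ht.2.2.2.1]⟩
  have c2 : ContinuousOn (fun t : Plane × Plane × Plane => U t.1 t.2.2) T :=
    hU.comp (f := fun t : Plane × Plane × Plane => (t.1, t.2.2)) (by fun_prop)
      fun t ht => ⟨ht.1, ht.2.2.1, by linarith [ht.2.2.2.2]⟩
  set Ψ : Plane × Plane × Plane → ℝ := fun t => U t.1 t.2.1 - U t.1 t.2.2 + d t.2.2 with hΨ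
  have cΨ : ContinuousOn Ψ T :=
    (c1.sub c2).add (hd.comp (f := fun t : Plane × Plane × Plane => t.2.2) (by fun_prop)
      fun t ht => ht.2.2.1)
  have m0 : (x0, x0, x0) ∈ T := ⟨hx0, hx0, hx0, by simp; linarith, by simp; linarith⟩
  obtain ⟨t0, ht0, hmax⟩ := hTc.exists_isMaxOn ⟨_, m0⟩ cΨ
  set μ := Ψ t0 with hμ
  have hμ0 : 3 * η ≤ μ := by
    have : Ψ (x0, x0, x0) ≤ μ := hmax m0
    simp only [hΨ, sub_self, zero_add] at this
    linarith
  set T0 : Set (Plane × Plane × Plane) := T ∩ Ψ ⁻¹' {μ} with hT0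
  have hT0c : IsCompact T0 :=
    hTc.of_isClosed_subset (cΨ.preimage_isClosed_of_isClosed hTc.isClosed isClosed_singleton)
      inter_subset_left
  obtain ⟨t1, ht1, hmax1⟩ := hT0c.exists_isMaxOn ⟨t0, ht0, rfl⟩ (c1.mono inter_subset_left)
  set a := U t1.1 t1.2.1 with ha
  set X1 : Set Plane := {x | ∃ y z, (x, y, z) ∈ T0 ∧ U x y = a} with hX1
  have hX1K : X1 ⊆ K := fun x ⟨y, z, h, _⟩ => h.1.1
  have step : ∀ x ∈ X1, closedBall x (2 * ε) ⊆ Ω ∧ μ = d x + 2 * a ∧
      (∀ q ∈ closedBall x (2 * ε), ε * U x q ≤ a * dist q x) ∧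
      ∃ y ∈ X1, dist y x ≤ ε ∧ U x y = a := by
    rintro x ⟨y, z, ⟨⟨hx, hy, hz, dy, dz⟩, hΨe⟩, hay⟩
    simp only at hx hy hz dy dz
    have hΨe' : U x y - U x z + d z = μ := hΨe
    have eV := hV x hx z hz (by linarith)
    have b1 := sU x hx y hy (by linarith)
    have b2 := sV x hx z hz (by linarith)
    have hB : closedBall x (2 * ε) ⊆ Ω := deep x hx (by linarith)
    have hBK : closedBall x (2 * ε) ⊆ K := hB.trans hΩ
    have cx : ContinuousOn (fun q => U x q) (closedBall x (2 * ε)) :=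
      hU.comp (f := fun q : Plane => (x, q)) (by fun_prop) fun q hq => ⟨hx, hBK hq, hq⟩
    have ne : (closedBall x (2 * ε)).Nonempty := ⟨x, mem_closedBall_self (by linarith)⟩
    obtain ⟨z2, hz2, mz2⟩ := (isCompact_closedBall x (2 * ε)).exists_isMaxOn ne cx
    obtain ⟨w2, hw2, mw2⟩ := (isCompact_closedBall x (2 * ε)).exists_isMaxOn ne
      (f := fun q => d q - U x q) ((hd.mono hBK).sub cx)
    have k1 := cU x hB (U x z2) (fun q hq => mz2 hq)
    have k2 := cV x hB (-V x w2) (fun q hq => by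
      have : d q - U x q ≤ d w2 - U x w2 := mw2 hq
      beta_reduce
      rw [hV x hx q (hBK hq) hq, hV x hx w2 (hBK hw2) hw2]
      linarith)
    have p1 : 0 ≤ U x z2 := by
      have : U x x ≤ U x z2 := mz2 (mem_closedBall_self (by linarith))
      rwa [U0 x hx] at this
    have p2 : 0 ≤ -V x w2 := by
      have : d x - U x x ≤ d w2 - U x w2 := mw2 (mem_closedBall_self (by linarith))
      rw [U0 x hx] at this
      rw [hV x hx w2 (hBK hw2) hw2]
      linarith
    have l1 : 2 * U x y ≤ U x z2 := by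
      have := k1 y (by rw [mem_closedBall]; linarith)
      have := mul_le_mul_of_nonneg_left dy p1
      nlinarith
    have l2 : 2 * -V x z ≤ -V x w2 := by
      have := k2 z (by rw [mem_closedBall]; linarith)
      beta_reduce at this
      have := mul_le_mul_of_nonneg_left dz p2
      nlinarith
    have md : ∀ q ∈ closedBall x (2 * ε), dist (midpoint ℝ x q) x ≤ ε ∧
        dist q (midpoint ℝ x q) ≤ ε := by
      intro q hq
      have hq' : dist x q ≤ 2 * ε := by rw [dist_comm]; exact hq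
      rw [dist_midpoint_left, dist_right_midpoint]
      norm_num
      linarith
    obtain ⟨d1, d2⟩ := md z2 hz2
    obtain ⟨d3, d4⟩ := md w2 hw2
    set y1 := midpoint ℝ x z2
    set y2 := midpoint ℝ x w2
    have hy1 : y1 ∈ K := hBK (by rw [mem_closedBall]; linarith)
    have hy2 : y2 ∈ K := hBK (by rw [mem_closedBall]; linarith)
    have t1m : (y1, z2, x) ∈ T := ⟨hy1, hBK hz2, hx, d2, by rw [dist_comm]; exact d1⟩
    have t2m : (y2, x, w2) ∈ T := ⟨hy2, hx, hBK hw2, by rw [dist_comm]; exact d3, d4⟩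
    have f1 := co x hx y1 hy1 z2 (hBK hz2) (by linarith) (by linarith) hz2
    have f2 := co x hx y2 hy2 w2 (hBK hw2) (by linarith) (by linarith) hw2
    have f3 := Uanti x hx y1 hy1 (by linarith)
    have f4 := Uanti x hx y2 hy2 (by linarith)
    have f5 := hV x hx w2 (hBK hw2) hw2
    have g1 : U y1 z2 - U y1 x + d x ≤ μ := hmax t1m
    have g2 : U y2 x - U y2 w2 + d w2 ≤ μ := hmax t2m
    have e1 : U x z2 = 2 * a := by linarith
    have e2 : μ = d x + 2 * a := by linarith
    have cc : ∀ q ∈ closedBall x (2 * ε), ε * U x q ≤ a * dist q x := fun q hq => by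
      have := k1 q hq
      rw [e1] at this
      linarith
    have t1m0 : (y1, z2, x) ∈ T0 := ⟨t1m, by
      show U y1 z2 - U y1 x + d x = μ
      linarith⟩
    have g3 : U y1 z2 ≤ a := hmax1 t1m0
    have g4 : U x y1 ≤ a := by
      have h1 := cc y1 (by rw [mem_closedBall]; linarith)
      have h2 := mul_le_mul_of_nonneg_left d1 (show 0 ≤ a by linarith)
      have : ε * U x y1 ≤ ε * a := by linarith
      exact le_of_mul_le_mul_left this hε
    exact ⟨hB, e2, cc, y1, ⟨z2, x, t1m0, by linarith⟩, d1, by linarith⟩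
  have hx1 : t1.1 ∈ X1 := ⟨t1.2.1, t1.2.2, ht1, rfl⟩
  have a0 : 0 ≤ a := by
    obtain ⟨h1, h2, h3, -⟩ := step _ hx1
    have m : (t1.1, t1.1, t1.1) ∈ T :=
      ⟨ht1.1.1, ht1.1.1, ht1.1.1, by simp; linarith, by simp; linarith⟩
    have : Ψ (t1.1, t1.1, t1.1) ≤ μ := hmax m
    simp only [hΨ, sub_self, zero_add] at this
    linarith
  rcases a0.eq_or_lt with h0 | h0
  · set e : Plane := EuclideanSpace.single 0 ε with he
    have ne : ‖e‖ = ε := by simp [he, abs_of_pos hε]
    have nxt : ∀ x ∈ X1, x + e ∈ X1 := by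
      intro x hx
      obtain ⟨h1, h2, h3, -⟩ := step x hx
      have dq : dist (x + e) x ≤ ε := by rw [dist_eq_norm, add_sub_cancel_left, ne]
      have hq : x + e ∈ closedBall x (2 * ε) := by rw [mem_closedBall]; linarith
      have hqK := hΩ (h1 hq)
      have m : (x + e, x, x) ∈ T0 := ⟨⟨hqK, hX1K hx, hX1K hx, by rw [dist_comm]; exact dq,
        by rw [dist_comm]; exact dq⟩, by
          show U (x + e) x - U (x + e) x + d x = μ
          linarith⟩
      have g1 : U (x + e) x ≤ a := hmax1 m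
      have g2 := h3 _ hq
      have g3 := Uanti x (hX1K hx) _ hqK hq
      rw [← h0, zero_mul] at g2
      have g4 : U x (x + e) ≤ 0 := by
        by_contra k
        push Not at k
        nlinarith
      exact ⟨x, x, m, by linarith⟩
    refine no_ray hK.isBounded (x := t1.1) (e := e) (by
      intro h; rw [h, norm_zero] at ne; linarith) fun n => hX1K ?_
    induction n with
    | zero => simpa using hx1
    | succ n ih =>
      have := nxt _ ih
      rwa [Nat.cast_succ, add_smul, one_smul, ← add_assoc]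
  · have ch : ∀ x : X1, ∃ y : X1, dist y.1 x.1 ≤ ε ∧ U x.1 y.1 = a := fun x => by
      obtain ⟨-, -, -, y, hy, h⟩ := step x.1 x.2
      exact ⟨⟨y, hy⟩, h⟩
    choose F hF1 hF2 using ch
    have two : ∀ x : X1, (F (F x)).1 - (F x).1 = (F x).1 - x.1 := by
      intro x
      obtain ⟨h1, -, h3, -⟩ := step x.1 x.2
      have d1 := hF1 x
      have d2 := hF1 (F x)
      have d3 : dist (F (F x)).1 x.1 ≤ 2 * ε := by
        linarith [dist_triangle (F (F x)).1 (F x).1 x.1]
      have f := co _ (hX1K x.2) _ (hX1K (F x).2) _ (hX1K (F (F x)).2) (by linarith)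
        (by linarith) d3
      rw [hF2, hF2] at f
      have g := h3 _ d3
      rw [← f] at g
      refine mid_eq d1 d2 ?_
      have : a * (2 * ε) ≤ a * dist (F (F x)).1 x.1 := by linarith
      exact le_of_mul_le_mul_left this h0
    set s : X1 := ⟨t1.1, hx1⟩
    have ne : (F s).1 - s.1 ≠ 0 := by
      intro h
      have e : (F s).1 = s.1 := sub_eq_zero.mp h
      have := hF2 s
      rw [e, U0 _ (hX1K s.2)] at this
      linarith
    have seq : ∀ n : ℕ, (F^[n] s).1 = s.1 + (n : ℝ) • ((F s).1 - s.1) ∧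
        (F (F^[n] s)).1 - (F^[n] s).1 = (F s).1 - s.1 := by
      intro n
      induction n with
      | zero => simp
      | succ n ih =>
        rw [Function.iterate_succ_apply']
        refine ⟨?_, by rw [two, ih.2]⟩
        rw [Nat.cast_succ, add_smul, one_smul, ← add_assoc, ← ih.1, ← ih.2]
        abel
    exact no_ray hK.isBounded ne fun n => by rw [← (seq n).1]; exact hX1K (F^[n] s).2

end Pool.Agent.H758Z.InfH
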