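import Pool.Agent.H758Z.InfDefs
import Pool.Agent.Helper304.LapChain

open Set Metric Filter Topology MeasureTheory Helper304Lap
open scoped ContDiff RealInnerProductSpace

namespace Pool.Agent.H758Z.InfH

lemma ev_zero {φ : Plane → ℝ} {x : Plane} (hx : x ∉ tsupport φ) : φ =ᶠ[𝓝 x] fun _ => 0 :=
  notMem_tsupport_iff_eventuallyEq.mp hx

lemma pd_zero {φ : Plane → ℝ} {x : Plane} {c : ℝ} (h : φ =ᶠ[𝓝 x] fun _ => c) (i : Fin 2) :
    pd i φ x = 0 := by
  unfold pd
  rw [h.fderiv_eq]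
  simp

lemma tsupp_pd (φ : Plane → ℝ) (i : Fin 2) : tsupport (pd i φ) ⊆ tsupport φ := by
  refine closure_minimal (fun x hx => ?_) (isClosed_tsupport φ)
  by_contra h
  exact hx (pd_zero (ev_zero h) i)

lemma cont_cut {A : Set Plane} (hA : IsOpen A) {F φ : Plane → ℝ} (hF : ContinuousOn F A)
    (hφ : Continuous φ) (hs : tsupport φ ⊆ A) : Continuous fun x => F x * φ x := by
  rw [continuous_iff_continuousAt]
  intro x
  by_cases hx : x ∈ A
  · exact (hF.continuousAt (hA.mem_nhds hx)).mul hφ.continuousAt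
  · refine (continuousAt_const (y := (0 : ℝ))).congr ?_
    filter_upwards [ev_zero fun h => hx (hs h)] with y hy
    simp [hy]

lemma int_cut {A : Set Plane} (hA : IsOpen A) {F φ : Plane → ℝ} (hF : ContinuousOn F A)
    (hφ : Tst φ) (hs : tsupport φ ⊆ A) : Integrable fun x => F x * φ x :=
  (cont_cut hA hF hφ.cont hs).integrable_of_hasCompactSupport hφ.2.mul_left

lemma smooth_cut {A : Set Plane} (hA : IsOpen A) {F φ : Plane → ℝ} (hF : ContDiffOn ℝ ∞ F A)
    (hφ : Tst φ) (hs : tsupport φ ⊆ A) : Tst fun x => F x * φ x := by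
  refine ⟨?_, hφ.2.mul_left⟩
  rw [contDiff_iff_contDiffAt]
  intro x
  by_cases hx : x ∈ A
  · exact (hF.contDiffAt (hA.mem_nhds hx)).mul hφ.1.contDiffAt
  · refine (contDiffAt_const (c := (0 : ℝ))).congr_of_eventuallyEq ?_
    filter_upwards [ev_zero fun h => hx (hs h)] with y hy
    simp [hy]

lemma contOn_pd {A : Set Plane} (hA : IsOpen A) {F : Plane → ℝ} (hF : ContDiffOn ℝ ∞ F A)
    (i : Fin 2) : ContinuousOn (pd i F) A :=
  (hF.continuousOn_fderiv_of_isOpen hA (by simp)).clm_apply continuousOn_const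

lemma ibp_loc {A : Set Plane} (hA : IsOpen A) {F φ : Plane → ℝ} (hF : ContDiffOn ℝ ∞ F A)
    (hφ : Tst φ) (hs : tsupport φ ⊆ A) (i : Fin 2) :
    ∫ x, F x * pd i φ x = - ∫ x, pd i F x * φ x := by
  have h1 := ibp (ψ := fun _ => (1 : ℝ)) (smooth_cut hA hF hφ hs) contDiff_const i
  have h2 : ∀ x, pd i (fun _ : Plane => (1 : ℝ)) x = 0 := fun x => pd_zero (EventuallyEq.refl _ _) i
  simp only [h2, zero_mul, integral_zero, neg_zero, one_mul] at h1
  have h3 : ∀ x, pd i (fun x => F x * φ x) x = pd i F x * φ x + F x * pd i φ x := by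
    intro x
    by_cases hx : x ∈ A
    · exact pd_mul i ((hF.contDiffAt (hA.mem_nhds hx)).differentiableAt (by simp)) (hφ.diff x)
    · have e := ev_zero fun h => hx (hs h)
      rw [pd_zero e i, e.eq_of_nhds, pd_zero (c := 0)]
      · simp
      · filter_upwards [e] with y hy
        simp [hy]
  simp only [h3] at h1
  rw [integral_add (int_cut hA (contOn_pd hA hF i) hφ hs)
    (int_cut hA hF.continuousOn (hφ.pd i) ((tsupp_pd φ i).trans hs))] at h1
  linarith

lemma exists_cut {A K : Set Plane} (hA : IsOpen A) (hb : Bornology.IsBounded A) (hK : IsCompact K)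
    (hKA : K ⊆ A) : ∃ χ : Plane → ℝ, Tst χ ∧ tsupport χ ⊆ A ∧
      (∀ x ∈ K, χ =ᶠ[𝓝 x] fun _ => 1) ∧ ∀ x, 0 ≤ χ x := by
  obtain ⟨f, h0, h1, h2⟩ := exists_contMDiffMap_zero_one_nhds_of_isClosed
    (modelWithCornersSelf ℝ Plane) (n := ⊤) hA.isClosed_compl hK.isClosed
    (disjoint_compl_left_iff_subset.mpr hKA)
  have hs : tsupport f ⊆ A := by
    intro x hx
    by_contra h
    exact (notMem_tsupport_iff_eventuallyEq.mpr ((eventually_nhdsSet_iff_forall.mp h0) x h)) hx
  refine ⟨f, ⟨f.contMDiff.contDiff, ?_⟩, hs, fun x hx => (eventually_nhdsSet_iff_forall.mp h1) x hx,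
    fun x => (h2 x).1⟩
  exact Metric.isCompact_of_isClosed_isBounded (isClosed_tsupport _) (hb.subset hs)

lemma pow_ineq {g G : Plane} {θ p : ℝ} (hθ0 : 0 ≤ θ) (hθ1 : θ ≤ 1) (hp : 1 ≤ p) (hG : G ≠ 0) :
    ‖g - θ • (g - G)‖ ^ p ≤ ‖g‖ ^ p - p * ⟪‖G‖ ^ (p - 2) • G, θ • (g - G)⟫ := by
  have nG : 0 < ‖G‖ := norm_pos_iff.mpr hG
  have e : g - θ • (g - G) = (1 - θ) • g + θ • G := by
    rw [sub_smul, one_smul, smul_sub]; abel
  have h1 : ‖g - θ • (g - G)‖ ≤ (1 - θ) * ‖g‖ + θ * ‖G‖ := by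
    rw [e]
    refine (norm_add_le _ _).trans ?_
    rw [norm_smul, norm_smul, Real.norm_of_nonneg hθ0, Real.norm_of_nonneg (by linarith)]
  have h2 : ((1 - θ) * ‖g‖ + θ * ‖G‖) ^ p ≤ (1 - θ) * ‖g‖ ^ p + θ * ‖G‖ ^ p :=
    (convexOn_rpow hp).2 (norm_nonneg g) (norm_nonneg G) (by linarith) hθ0 (by ring)
  have h3 := Real.rpow_le_rpow (norm_nonneg _) h1 (by linarith : 0 ≤ p)
  have h4 := one_add_mul_self_le_rpow_one_add (s := ‖g‖ / ‖G‖ - 1)
    (by linarith [div_nonneg (norm_nonneg g) nG.le]) hp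
  rw [add_sub_cancel, Real.div_rpow (norm_nonneg _) nG.le,
    le_div_iff₀ (Real.rpow_pos_of_pos nG p)] at h4
  have h5 : ‖G‖ ^ p = ‖G‖ ^ (p - 2) * (‖G‖ * ‖G‖) := by
    rw [← pow_two, ← Real.rpow_natCast, ← Real.rpow_add nG]
    norm_num
  have h6 : ⟪‖G‖ ^ (p - 2) • G, θ • (g - G)⟫ = θ * (‖G‖ ^ (p - 2) * (⟪G, g⟫ - ‖G‖ * ‖G‖)) := by
    rw [real_inner_smul_left, real_inner_smul_right, inner_sub_right,
      real_inner_self_eq_norm_mul_norm]
    ring
  have h7 : ⟪G, g⟫ ≤ ‖G‖ * ‖g‖ := real_inner_le_norm G g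
  have h8 : 0 < ‖G‖ ^ (p - 2) := Real.rpow_pos_of_pos nG _
  have h9 : (1 + p * (‖g‖ / ‖G‖ - 1)) * ‖G‖ ^ p =
      ‖G‖ ^ p + p * (‖G‖ ^ (p - 2) * (‖G‖ * ‖g‖ - ‖G‖ * ‖G‖)) := by
    rw [h5]; field_simp
  have h10 : ‖G‖ ^ p + p * (‖G‖ ^ (p - 2) * (⟪G, g⟫ - ‖G‖ * ‖G‖)) ≤ ‖g‖ ^ p := by
    have : p * (‖G‖ ^ (p - 2) * (⟪G, g⟫ - ‖G‖ * ‖G‖)) ≤
        p * (‖G‖ ^ (p - 2) * (‖G‖ * ‖g‖ - ‖G‖ * ‖G‖)) := by
      gcongr
    linarith
  rw [h6]
  have := mul_le_mul_of_nonneg_left h10 hθ0
  nlinarith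

/-- local data of a minimiser: a lift on `A`, its weak gradient, and minimality under compactly
supported perturbations -/
structure Loc (Ω A : Set Plane) (p : ℝ) (w : Plane → ℝ) (g : Plane → Plane) : Prop where
  lp : MemLp g (ENNReal.ofReal p) (volume.restrict Ω)
  wc : ContinuousOn w A
  wd : ∀ φ, Tst φ → tsupport φ ⊆ A → ∀ i, ∫ x, w x * pd i φ x = - ∫ x, g x i * φ x
  mn : ∀ (ψ : Plane → ℝ) (h : Plane → Plane), Continuous ψ → HasCompactSupport ψ →
    tsupport ψ ⊆ Ω → (∀ i, WD i ψ (fun x => h x i)) →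
    MemLp h (ENNReal.ofReal p) (volume.restrict Ω) →
    energy Ω p g ≤ energy Ω p (fun x => g x - h x)

lemma Loc.neg {Ω A : Set Plane} {p : ℝ} {w : Plane → ℝ} {g : Plane → Plane} (H : Loc Ω A p w g) :
    Loc Ω A p (fun x => -w x) (fun x => -g x) where
  lp := H.lp.neg
  wc := H.wc.neg
  wd := fun φ h1 h2 i => by
    have := H.wd φ h1 h2 i
    simp only [neg_mul, PiLp.neg_apply, integral_neg]
    linarith
  mn := fun ψ h h1 h2 h3 h4 h5 => by
    have := H.mn (fun x => -ψ x) (fun x => -h x) h1.neg h2.neg (by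
      rwa [show (fun x => -ψ x) = -ψ from rfl, tsupport_neg]) (fun i φ hφ => by
      have := h4 i φ hφ
      simp only [neg_mul, PiLp.neg_apply, integral_neg]
      linarith) h5.neg
    unfold energy at this ⊢
    simp only [norm_neg]
    refine this.trans (le_of_eq ?_)
    congr 1
    funext x
    rw [← norm_neg]
    congr 2
    simp only [neg_add, sub_eq_add_neg, neg_neg]

lemma coord_int {Ω : Set Plane} (hb : Bornology.IsBounded Ω) {p : ℝ} (hp : 1 ≤ p)
    {g : Plane → Plane} (hg : MemLp g (ENNReal.ofReal p) (volume.restrict Ω)) {φ : Plane → ℝ}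
    (hφ : Tst φ) (hs : ∀ x, x ∉ Ω → g x = 0 ∨ φ x = 0) (i : Fin 2) :
    Integrable fun x => g x i * φ x := by
  haveI : IsFiniteMeasure (volume.restrict Ω) := ⟨by simpa using hb.measure_lt_top⟩
  have h1 : Integrable g (volume.restrict Ω) := hg.integrable (by simpa using hp)
  have h2 : Integrable (fun x => g x i) (volume.restrict Ω) :=
    (EuclideanSpace.proj i : Plane →L[ℝ] ℝ).integrable_comp h1
  obtain ⟨C, -, hC⟩ := hφ.bdd
  have h3 : IntegrableOn (fun x => g x i * φ x) Ω :=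
    h2.mul_bdd hφ.cont.aestronglyMeasurable (c := C) (Eventually.of_forall hC)
  refine (integrableOn_iff_integrable_of_support_subset ?_).mp h3
  intro x hx
  by_contra h
  rcases hs x h with k | k <;> simp [k] at hx

theorem cmp {Ω A : Set Plane} (hΩ : IsOpen Ω) (hb : Bornology.IsBounded Ω) (hA : IsOpen A)
    (hAΩ : A ⊆ Ω) {p : ℝ} (hp : 1 ≤ p) {w : Plane → ℝ} {g : Plane → Plane} (H : Loc Ω A p w g)
    {c : Plane → ℝ} (hc : ContDiffOn ℝ ∞ c A) {G : Plane → Plane}
    (hG : ∀ x ∈ A, ∀ i, G x i = pd i c x) (hG0 : ∀ x ∈ A, G x ≠ 0) {X : Fin 2 → Plane → ℝ}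
    (hX : ∀ i, ContDiffOn ℝ ∞ (X i) A) (hXG : ∀ x ∈ A, ∀ i, X i x = ‖G x‖ ^ (p - 2) * G x i)
    (hdiv : ∀ x ∈ A, pd 0 (X 0) x + pd 1 (X 1) x < 0)
    (hK : IsCompact {y ∈ A | c y ≤ w y}) {y0 : Plane} (hy0 : y0 ∈ A) : w y0 ≤ c y0 := by
  by_contra hcon
  push Not at hcon
  haveI : IsFiniteMeasure (volume.restrict Ω) := ⟨by simpa using hb.measure_lt_top⟩
  set K := {y ∈ A | c y ≤ w y} with hKd
  obtain ⟨χ, tχ, sχ, oχ, nχ⟩ := exists_cut hA (hb.subset hAΩ) hK (fun y hy => hy.1)
  set η := (w y0 - c y0) / 2 with hη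
  have hη0 : 0 < η := by rw [hη]; linarith
  set θ : ℝ → ℝ := fun s => min 1 (max 0 (s - η)) with hθ
  have cθ : Continuous θ := by fun_prop
  have θ0 : ∀ s, 0 ≤ θ s := fun s => le_min zero_le_one (le_max_left _ _)
  have θ1 : ∀ s, θ s ≤ 1 := fun s => min_le_left _ _
  have θb : ∀ s, |θ s| ≤ 1 := fun s => by rw [abs_of_nonneg (θ0 s)]; exact θ1 s
  have θz : ∀ s, s ≤ η → θ s = 0 := fun s hs => by
    simp only [hθ]
    rw [max_eq_left (by linarith), min_eq_right zero_le_one]
  have θp : ∀ s, η < s → 0 < θ s := fun s hs =>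
    lt_min one_pos (lt_max_of_lt_right (by linarith))
  have Pz : ∀ s, s ≤ η → prim θ s = 0 := by
    intro s hs
    unfold prim
    rw [intervalIntegral.integral_congr (g := fun _ => (0 : ℝ))]
    · simp
    · intro t ht
      refine θz t ?_
      rcases le_total 0 s with k | k
      · rw [uIcc_of_le k] at ht; linarith [ht.2]
      · rw [uIcc_of_ge k] at ht; linarith [ht.2]
  have Pp : ∀ s, η < s → 0 < prim θ s := by
    intro s hs
    have := prim_sub cθ.measurable θb s η
    rw [Pz η le_rfl, sub_zero] at this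
    rw [this]
    exact intervalIntegral.intervalIntegral_pos_of_pos_on (cθ.intervalIntegrable _ _)
      (fun t ht => θp t ht.1) hs
  have P0 : ∀ s, 0 ≤ prim θ s := fun s => by
    rcases le_or_gt s η with k | k
    · rw [Pz s k]
    · exact (Pp s k).le
  have cwc : ContinuousOn (fun x => w x - c x) A := H.wc.sub hc.continuousOn
  set v : Plane → ℝ := fun x => (w x - c x) * χ x with hv
  have cv : Continuous v := cont_cut hA cwc tχ.cont sχ
  have iv : Integrable v := int_cut hA cwc tχ sχ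
  have vK : ∀ x, η < v x → x ∈ K := by
    intro x hx
    have h1 : χ x ≠ 0 := by
      intro h; simp only [hv, h, mul_zero] at hx; linarith
    refine ⟨sχ (subset_tsupport _ h1), ?_⟩
    by_contra h
    push Not at h
    have : v x ≤ 0 := mul_nonpos_of_nonpos_of_nonneg (by linarith) (nχ x)
    linarith
  set V : Fin 2 → Plane → ℝ := fun i x =>
    g x i * χ x - pd i c x * χ x + (w x - c x) * pd i χ x with hV
  have out : ∀ {φ : Plane → ℝ}, tsupport φ ⊆ A → ∀ x, x ∉ Ω → g x = 0 ∨ φ x = 0 :=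
    fun hs x hx => Or.inr (image_eq_zero_of_notMem_tsupport fun h => hx (hAΩ (hs h)))
  have iV : ∀ i, Integrable (V i) := fun i =>
    ((coord_int hb hp H.lp tχ (out sχ) i).sub (int_cut hA (contOn_pd hA hc i) tχ sχ)).add
      (int_cut hA cwc (tχ.pd i) ((tsupp_pd χ i).trans sχ))
  have wdv : ∀ i, WD i v (V i) := by
    intro i φ hφ
    have t1 : Tst fun x => χ x * φ x := tχ.mul hφ
    have s1 : tsupport (fun x => χ x * φ x) ⊆ A := (tsupport_mul_subset_left).trans sχ
    have t2 : Tst fun x => pd i χ x * φ x := (tχ.pd i).mul hφ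
    have s2 : tsupport (fun x => pd i χ x * φ x) ⊆ A :=
      (tsupport_mul_subset_left).trans ((tsupp_pd χ i).trans sχ)
    have e1 := H.wd _ t1 s1 i
    have e2 := ibp_loc hA hc t1 s1 i
    have i1 := int_cut hA H.wc (t1.pd i) ((tsupp_pd _ i).trans s1)
    have i2 := int_cut hA hc.continuousOn (t1.pd i) ((tsupp_pd _ i).trans s1)
    have i3 := int_cut hA cwc t2 s2
    have i4 := coord_int hb hp H.lp t1 (out s1) i
    have i5 := int_cut hA (contOn_pd hA hc i) t1 s1
    have l : ∀ x, v x * pd i φ x = w x * pd i (fun x => χ x * φ x) x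
        - c x * pd i (fun x => χ x * φ x) x - (w x - c x) * (pd i χ x * φ x) := by
      intro x
      rw [pd_mul i (tχ.diff x) (hφ.diff x)]
      simp only [hv]; ring
    have r : ∀ x, V i x * φ x = g x i * (χ x * φ x) - pd i c x * (χ x * φ x)
        + (w x - c x) * (pd i χ x * φ x) := by
      intro x
      simp only [hV]; ring
    simp only [l, r]
    have i12 : Integrable fun x => w x * pd i (fun x => χ x * φ x) x
        - c x * pd i (fun x => χ x * φ x) x := i1.sub i2
    have i45 : Integrable fun x => g x i * (χ x * φ x) - pd i c x * (χ x * φ x) := i4.sub i5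
    rw [integral_sub i12 i3, integral_sub i1 i2, integral_add i45 i3,
      integral_sub i4 i5, e1, e2]
    ring
  set ψ : Plane → ℝ := fun x => prim θ (v x) with hψ
  have cψ : Continuous ψ := (prim_cont cθ.measurable θb).comp cv
  have ψK : ∀ x, ψ x ≠ 0 → x ∈ K := fun x hx => vK x (by
    by_contra h
    exact hx (Pz _ (not_lt.mp h)))
  have θK : ∀ x, θ (v x) ≠ 0 → x ∈ K := fun x hx => vK x (by
    by_contra h
    exact hx (θz _ (not_lt.mp h)))
  have sψ : tsupport ψ ⊆ K := closure_minimal (fun x hx => ψK x hx) hK.isClosed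
  have kψ : HasCompactSupport ψ := hK.of_isClosed_subset (isClosed_tsupport _) sψ
  set h : Plane → Plane := fun x => θ (v x) • (g x - G x) with hh
  have hhi : ∀ i x, h x i = θ (v x) * V i x := by
    intro i x
    by_cases k : θ (v x) = 0
    · simp [hh, k]
    · have hx := θK x k
      simp only [hh, hV, PiLp.smul_apply, PiLp.sub_apply, smul_eq_mul, hG x hx.1 i,
        pd_zero (oχ x hx) i, (oχ x hx).eq_of_nhds]
      ring
  have wdψ : ∀ i, WD i ψ (fun x => h x i) := fun i => by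
    simp only [hhi]
    exact chain_cont iv (iV i) (wdv i) cθ θb
  set G' : Plane → Plane := fun x => !₂[pd 0 c x * χ x, pd 1 c x * χ x] with hG'
  have cG' : Continuous G' := by
    have a0 := cont_cut hA (contOn_pd hA hc 0) tχ.cont sχ
    have a1 := cont_cut hA (contOn_pd hA hc 1) tχ.cont sχ
    simp only [hG']
    fun_prop
  have hh' : h = fun x => θ (v x) • g x - θ (v x) • G' x := by
    funext x
    by_cases k : θ (v x) = 0
    · simp [hh, k]
    · have hx := θK x k
      have : G x = G' x := by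
        ext i
        rw [hG x hx.1 i]
        fin_cases i <;> simp [hG', (oχ x hx).eq_of_nhds]
      simp only [hh, smul_sub, this]
  have lph : MemLp h (ENNReal.ofReal p) (volume.restrict Ω) := by
    rw [hh']
    refine MemLp.sub ?_ ?_
    · refine H.lp.of_le ((cθ.comp cv).aestronglyMeasurable.smul H.lp.1)
        (Eventually.of_forall fun x => ?_)
      rw [norm_smul, Real.norm_eq_abs]
      exact mul_le_of_le_one_left (norm_nonneg _) (θb _)
    · obtain ⟨C, hC⟩ := hK.exists_bound_of_continuousOn cG'.continuousOn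
      refine MemLp.of_bound ((cθ.comp cv).smul cG').aestronglyMeasurable (max C 0)
        (Eventually.of_forall fun x => ?_)
      by_cases k : θ (v x) = 0
      · simp [k]
      · rw [norm_smul, Real.norm_eq_abs]
        exact (mul_le_of_le_one_left (norm_nonneg _) (θb _)).trans
          ((hC x (θK x k)).trans (le_max_left _ _))
  have mn := H.mn ψ h cψ kψ (sψ.trans fun y hy => hAΩ hy.1) wdψ lph
  have tX : ∀ i, Tst fun x => X i x * χ x := fun i => smooth_cut hA (hX i) tχ sχ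
  have iX : ∀ i, Integrable fun x => h x i * (X i x * χ x) := fun i =>
    coord_int hb hp lph (tX i) (fun x hx => Or.inr (by
      have : χ x = 0 := image_eq_zero_of_notMem_tsupport fun k => hx (hAΩ (sχ k))
      simp [this])) i
  set J : Plane → ℝ := fun x => h x 0 * (X 0 x * χ x) + h x 1 * (X 1 x * χ x) with hJ
  have iJ : Integrable J := (iX 0).add (iX 1)
  have pw : ∀ x, ‖g x - h x‖ ^ p ≤ ‖g x‖ ^ p - p * J x := by
    intro x
    by_cases k : θ (v x) = 0
    · simp [hh, hJ, k]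
    · have hx := θK x k
      have := pow_ineq (g := g x) (θ0 (v x)) (θ1 (v x)) hp (hG0 x hx.1)
      refine this.trans (le_of_eq ?_)
      congr 2
      simp only [hJ, hXG x hx.1, (oχ x hx).eq_of_nhds, hh, PiLp.inner_apply, Fin.sum_univ_two,
        PiLp.smul_apply, smul_eq_mul, RCLike.inner_apply, conj_trivial]
      ring
  have pr : (ENNReal.ofReal p).toReal = p := ENNReal.toReal_ofReal (by linarith)
  have ig : Integrable (fun x => ‖g x‖ ^ p) (volume.restrict Ω) := by
    have := H.lp.integrable_norm_rpow'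
    rwa [pr] at this
  have igh : Integrable (fun x => ‖g x - h x‖ ^ p) (volume.restrict Ω) := by
    have := (H.lp.sub lph).integrable_norm_rpow'
    rwa [pr] at this
  have le1 : energy Ω p (fun x => g x - h x) ≤ energy Ω p g - p * ∫ x in Ω, J x := by
    unfold energy
    rw [← integral_const_mul, ← integral_sub ig (iJ.integrableOn.const_mul p)]
    exact integral_mono igh (ig.sub (iJ.integrableOn.const_mul p)) pw
  have J0 : ∫ x, J x ≤ 0 := by
    rw [← setIntegral_eq_integral_of_forall_compl_eq_zero (s := Ω) (fun x hx => by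
      have : χ x = 0 := image_eq_zero_of_notMem_tsupport fun k => hx (hAΩ (sχ k))
      simp [hJ, this])]
    by_contra k
    push Not at k
    have := mul_pos (show 0 < p by linarith) k
    linarith
  set D : Plane → ℝ := fun x => ψ x * -(pd 0 (fun x => X 0 x * χ x) x +
    pd 1 (fun x => X 1 x * χ x) x) with hD
  have cD : Continuous D := cψ.mul (((tX 0).pd 0).cont.add ((tX 1).pd 1).cont).neg
  have pdK : ∀ x ∈ K, ∀ i, pd i (fun x => X i x * χ x) x = pd i (X i) x := by
    intro x hx i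
    unfold pd
    congr 1
    refine EventuallyEq.fderiv_eq ?_
    filter_upwards [oχ x hx] with y hy
    simp [hy]
  have Dp : ∀ x ∈ K, 0 < -(pd 0 (fun x => X 0 x * χ x) x + pd 1 (fun x => X 1 x * χ x) x) := by
    intro x hx
    rw [pdK x hx, pdK x hx]
    linarith [hdiv x hx.1]
  have D0 : 0 ≤ D := fun x => by
    by_cases k : ψ x = 0
    · simp [hD, k]
    · exact mul_nonneg (P0 _) (Dp x (ψK x k)).le
  have y0K : y0 ∈ K := ⟨hy0, hcon.le⟩
  have Dy : D y0 ≠ 0 := by
    refine (mul_pos (Pp _ ?_) (Dp y0 y0K)).ne'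
    simp only [hv, (oχ y0 y0K).eq_of_nhds]
    rw [hη]; linarith
  have pos := cD.integral_pos_of_hasCompactSupport_nonneg_nonzero (μ := volume) kψ.mul_right D0 Dy
  have iD : ∀ i, Integrable fun x => ψ x * pd i (fun x => X i x * χ x) x := fun i =>
    (cψ.mul ((tX i).pd i).cont).integrable_of_hasCompactSupport kψ.mul_right
  have : ∫ x, D x = ∫ x, J x := by
    have e : ∀ x, D x = -(ψ x * pd 0 (fun x => X 0 x * χ x) x)
        - ψ x * pd 1 (fun x => X 1 x * χ x) x := fun x => by simp only [hD]; ring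
    simp only [e, hJ]
    have i0 : Integrable fun x => -(ψ x * pd 0 (fun x => X 0 x * χ x) x) := (iD 0).neg
    rw [integral_sub i0 (iD 1), integral_neg, integral_add (iX 0) (iX 1),
      wdψ 0 _ (tX 0), wdψ 1 _ (tX 1)]
    ring
  linarith

end Pool.Agent.H758Z.InfH
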