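import Pool.Agent.H758Z.InfCmp

open Set Metric Filter Topology MeasureTheory Helper304Lap
open scoped ContDiff RealInnerProductSpace

namespace Pool.Agent.H758Z.InfH

lemma hasF_rpow (x : Plane) {y : Plane} (hy : y ≠ x) (q : ℝ) :
    HasFDerivAt (fun y : Plane => ‖y - x‖ ^ q) ((q * ‖y - x‖ ^ (q - 2)) • innerSL ℝ (y - x)) y := by
  have hz : y - x ≠ 0 := sub_ne_zero.mpr hy
  have h1 : HasFDerivAt (fun z : Plane => ‖z‖ ^ q)
      ((q * ‖y - x‖ ^ (q - 2)) • innerSL ℝ (y - x)) (y - x) := by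
    apply HasStrictFDerivAt.hasFDerivAt
    convert! (hasStrictFDerivAt_norm_sq (y - x)).rpow_const (p := q / 2) (by simp [hz]) using 0
    simp_rw [← Real.rpow_natCast_mul (norm_nonneg _), ← Nat.cast_smul_eq_nsmul ℝ, smul_smul]
    ring_nf
  have h2 : HasFDerivAt (fun y : Plane => y - x) (ContinuousLinearMap.id ℝ Plane) y :=
    (hasFDerivAt_id y).sub_const x
  have h3 := h1.comp y h2
  rw [ContinuousLinearMap.comp_id] at h3
  exact h3

lemma open_ann (x : Plane) (r R : ℝ) : IsOpen {y : Plane | r < ‖y - x‖ ∧ ‖y - x‖ < R} := by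
  have h : Continuous fun y : Plane => ‖y - x‖ := by fun_prop
  exact isOpen_Ioo.preimage h

lemma pd_rpow (x : Plane) {y : Plane} (hy : y ≠ x) (q : ℝ) (i : Fin 2) :
    pd i (fun y : Plane => ‖y - x‖ ^ q) y = q * ‖y - x‖ ^ (q - 2) * (y - x) i := by
  unfold pd bv
  rw [(hasF_rpow x hy q).fderiv]
  simp [EuclideanSpace.inner_single_right]

lemma smooth_rpow (x : Plane) (q : ℝ) {A : Set Plane} (hA : ∀ y ∈ A, y ≠ x) :
    ContDiffOn ℝ ∞ (fun y : Plane => ‖y - x‖ ^ q) A := by
  intro y hy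
  have hz : y - x ≠ 0 := sub_ne_zero.mpr (hA y hy)
  have h1 : ContDiffAt ℝ ∞ (fun y : Plane => ‖y - x‖) y :=
    ContDiffAt.norm ℝ (contDiffAt_id.sub contDiffAt_const) hz
  exact (h1.rpow_const_of_ne (norm_ne_zero_iff.mpr hz)).contDiffWithinAt

lemma smooth_coord (x : Plane) (i : Fin 2) : ContDiff ℝ ∞ (fun y : Plane => (y - x) i) :=
  (EuclideanSpace.proj i : Plane →L[ℝ] ℝ).contDiff.comp (contDiff_id.sub contDiff_const)

lemma pd_coord (x y : Plane) (i : Fin 2) : pd i (fun y : Plane => (y - x) i) y = 1 := by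
  have h : HasFDerivAt (fun y : Plane => (y - x) i)
      ((EuclideanSpace.proj i : Plane →L[ℝ] ℝ).comp (ContinuousLinearMap.id ℝ Plane)) y :=
    (EuclideanSpace.proj i : Plane →L[ℝ] ℝ).hasFDerivAt.comp y ((hasFDerivAt_id y).sub_const x)
  unfold pd bv
  rw [h.fderiv]
  simp

theorem cone_cmp {Ω : Set Plane} (hΩ : IsOpen Ω) (hb : Bornology.IsBounded Ω) {x : Plane}
    {r R : ℝ} (hr : 0 < r) (hB : closedBall x R ⊆ Ω) {p : ℝ} (hp : 1 ≤ p) {w : Plane → ℝ}
    {g : Plane → Plane} (H : Loc Ω {y | r < ‖y - x‖ ∧ ‖y - x‖ < R} p w g)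
    (hw : ContinuousOn w (closedBall x R)) {a b β : ℝ} (ha : 0 < a) (hβ : 0 < β)
    (hβp : 1 < (1 - β) * (p - 1))
    (h1 : ∀ y, ‖y - x‖ = r → w y < b + a * r ^ β) (h2 : ∀ y, ‖y - x‖ = R → w y < b + a * R ^ β)
    {y0 : Plane} (hy1 : r < ‖y0 - x‖) (hy2 : ‖y0 - x‖ < R) :
    w y0 ≤ b + a * ‖y0 - x‖ ^ β := by
  set A : Set Plane := {y | r < ‖y - x‖ ∧ ‖y - x‖ < R} with hA
  have oA : IsOpen A := open_ann x r R
  have nA : ∀ y ∈ A, y ≠ x := by
    rintro y hy rfl
    have := hy.1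
    simp at this
    linarith
  have pA : ∀ y ∈ A, 0 < ‖y - x‖ := fun y hy => hr.trans hy.1
  have AΩ : A ⊆ Ω := fun y hy => hB (by rw [mem_closedBall, dist_eq_norm]; exact hy.2.le)
  set γ := (β - 1) * (p - 1) - 1 with hγ
  set k := (a * β) ^ (p - 1) with hk
  have ab : 0 < a * β := mul_pos ha hβ
  have k0 : 0 < k := Real.rpow_pos_of_pos ab _
  refine cmp hΩ hb oA AΩ hp H (c := fun y => b + a * ‖y - x‖ ^ β)
    (contDiffOn_const.add (contDiffOn_const.mul (smooth_rpow x β nA)))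
    (G := fun y => (a * β * ‖y - x‖ ^ (β - 2)) • (y - x)) ?_ ?_
    (X := fun i y => k * (‖y - x‖ ^ γ * (y - x) i))
    (fun i => contDiffOn_const.mul ((smooth_rpow x γ nA).mul (smooth_coord x i).contDiffOn))
    ?_ ?_ ?_ ⟨hy1, hy2⟩
  · intro y hy i
    have d := (hasF_rpow x (nA y hy) β).differentiableAt
    rw [pd_add i (differentiableAt_const b) (d.const_mul a), pd_zero (EventuallyEq.refl _ _) i,
      pd_const_mul i a d, pd_rpow x (nA y hy)]
    simp only [PiLp.smul_apply, smul_eq_mul]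
    ring
  · intro y hy
    exact smul_ne_zero (mul_pos ab (Real.rpow_pos_of_pos (pA y hy) _)).ne'
      (sub_ne_zero.mpr (nA y hy))
  · intro y hy i
    have py := pA y hy
    set ρ := ‖y - x‖ with hρ
    have e1 : ‖(a * β * ρ ^ (β - 2)) • (y - x)‖ = a * β * ρ ^ (β - 1) := by
      rw [norm_smul, Real.norm_of_nonneg (mul_pos ab (Real.rpow_pos_of_pos py _)).le, ← hρ,
        mul_assoc, ← Real.rpow_add_one py.ne']
      congr 2
      ring
    rw [e1, Real.mul_rpow ab.le (Real.rpow_pos_of_pos py _).le, ← Real.rpow_mul py.le]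
    simp only [PiLp.smul_apply, smul_eq_mul]
    have e2 : k = (a * β) ^ (p - 2) * (a * β) := by
      rw [hk, ← Real.rpow_add_one ab.ne']
      congr 1
      ring
    have e3 : ρ ^ γ = ρ ^ ((β - 1) * (p - 2)) * ρ ^ (β - 2) := by
      rw [← Real.rpow_add py]
      congr 1
      rw [hγ]; ring
    rw [e2, e3]
    ring
  · intro y hy
    have py := pA y hy
    have d := (hasF_rpow x (nA y hy) γ).differentiableAt
    have dc : ∀ i, DifferentiableAt ℝ (fun y : Plane => (y - x) i) y := fun i =>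
      (smooth_coord x i).differentiable (by simp) y
    have e : ∀ i, pd i (fun y : Plane => k * (‖y - x‖ ^ γ * (y - x) i)) y =
        k * (γ * ‖y - x‖ ^ (γ - 2) * ((y - x) i) ^ 2 + ‖y - x‖ ^ γ) := by
      intro i
      have dm : DifferentiableAt ℝ (fun y : Plane => ‖y - x‖ ^ γ * (y - x) i) y := d.mul (dc i)
      rw [pd_const_mul i k dm, pd_mul i d (dc i), pd_rpow x (nA y hy), pd_coord]
      ring
    rw [e, e]
    have n2 : ((y - x) 0) ^ 2 + ((y - x) 1) ^ 2 = ‖y - x‖ ^ 2 := by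
      rw [EuclideanSpace.norm_sq_eq, Fin.sum_univ_two, Real.norm_eq_abs, Real.norm_eq_abs,
        sq_abs, sq_abs]
    have e3 : ‖y - x‖ ^ γ = ‖y - x‖ ^ (γ - 2) * ‖y - x‖ ^ 2 := by
      rw [← Real.rpow_natCast, ← Real.rpow_add py]
      congr 1
      push_cast; ring
    have e4 : k * (γ * ‖y - x‖ ^ (γ - 2) * ((y - x) 0) ^ 2 + ‖y - x‖ ^ γ) +
        k * (γ * ‖y - x‖ ^ (γ - 2) * ((y - x) 1) ^ 2 + ‖y - x‖ ^ γ) =
        k * ‖y - x‖ ^ γ * (γ + 2) := by
      rw [e3, ← n2]; ring
    rw [e4]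
    refine mul_neg_of_pos_of_neg (mul_pos k0 (Real.rpow_pos_of_pos py _)) ?_
    rw [hγ]; linarith
  · set C : Set Plane := closedBall x R ∩ {y | r ≤ ‖y - x‖} with hC
    have kC : IsCompact C :=
      (isCompact_closedBall x R).inter_right (isClosed_le continuous_const (by fun_prop))
    have cc : ContinuousOn (fun y => w y - (b + a * ‖y - x‖ ^ β)) C := by
      refine (hw.mono inter_subset_left).sub (Continuous.continuousOn ?_)
      exact continuous_const.add (continuous_const.mul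
        ((Real.continuous_rpow_const hβ.le).comp (by fun_prop)))
    have : {y ∈ A | b + a * ‖y - x‖ ^ β ≤ w y} =
        C ∩ (fun y => w y - (b + a * ‖y - x‖ ^ β)) ⁻¹' Ici 0 := by
      ext y
      constructor
      · rintro ⟨hy, h⟩
        exact ⟨⟨by rw [mem_closedBall, dist_eq_norm]; exact hy.2.le, hy.1.le⟩,
          sub_nonneg.mpr h⟩
      · rintro ⟨⟨hy, hy'⟩, h⟩
        rw [mem_closedBall, dist_eq_norm] at hy
        have h' : b + a * ‖y - x‖ ^ β ≤ w y := sub_nonneg.mp h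
        refine ⟨⟨lt_of_le_of_ne hy' fun e => ?_, lt_of_le_of_ne hy fun e => ?_⟩, h'⟩
        · have := h1 y e.symm
          rw [← e] at h'
          linarith
        · have := h2 y e
          rw [e] at h'
          linarith
    rw [this]
    exact kC.of_isClosed_subset (cc.preimage_isClosed_of_isClosed kC.isClosed isClosed_Ici)
      inter_subset_left

/-- passage to the limit: comparison with vertex cones for a uniform limit -/
theorem limit_cc {Ω : Set Plane} (hΩ : IsOpen Ω) (hb : Bornology.IsBounded Ω) {x : Plane}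
    {R : ℝ} (hR : 0 < R) (hB : closedBall x R ⊆ Ω) {W : Plane → ℝ}
    (hW : ContinuousOn W (closedBall x R)) (hW0 : W x = 0)
    (happ : ∀ δ > 0, ∀ P : ℝ, ∃ p w g, P < p ∧ ContinuousOn w (closedBall x R) ∧
      (∀ y ∈ closedBall x R, |w y - W y| < δ) ∧ ∀ A ⊆ ball x R, IsOpen A → Loc Ω A p w g)
    {M : ℝ} (hM : ∀ q ∈ closedBall x R, W q ≤ M) {q : Plane} (hq : q ∈ closedBall x R) :
    R * W q ≤ M * dist q x := by
  have M0 : 0 ≤ M := by
    have := hM x (mem_closedBall_self hR.le)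
    rwa [hW0] at this
  rw [dist_eq_norm]
  have hq' : ‖q - x‖ ≤ R := by rwa [mem_closedBall, dist_eq_norm] at hq
  rcases hq'.eq_or_lt with h | h
  · rw [h, mul_comm]
    exact mul_le_mul_of_nonneg_right (hM q hq) hR.le
  by_cases hqx : q = x
  · rw [hqx, hW0]; simp
  have ρ0 : 0 < ‖q - x‖ := norm_pos_iff.mpr (sub_ne_zero.mpr hqx)
  have key : ∀ η, 0 < η → η < 1 → W q ≤ 3 * η + (M + η) * (‖q - x‖ / R) ^ (1 - η) := by
    intro η η0 η1
    obtain ⟨δ, δ0, hδ⟩ := Metric.continuousOn_iff.mp hW x (mem_closedBall_self hR.le) η η0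
    set r := min (δ / 2) (‖q - x‖ / 2) with hr
    have r0 : 0 < r := lt_min (by linarith) (by linarith)
    have r1 : r < δ := (min_le_left _ _).trans_lt (by linarith)
    have r2 : r < ‖q - x‖ := (min_le_right _ _).trans_lt (by linarith)
    obtain ⟨p, w, g, hp, wc, wa, hL⟩ := happ η η0 (1 + 1 / η)
    have Rβ : 0 < R ^ (1 - η) := Real.rpow_pos_of_pos hR _
    have a0 : 0 < (M + η) / R ^ (1 - η) := div_pos (by linarith) Rβ
    have i0 : 0 < 1 / η := by positivity
    have := cone_cmp hΩ hb r0 hB (show 1 ≤ p by linarith)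
      (hL _ (fun y hy => by rw [mem_ball, dist_eq_norm]; exact hy.2)
        (open_ann x r R)) wc (b := 2 * η) (β := 1 - η) a0
      (by linarith) (by
        have : 1 / η < p - 1 := by linarith
        rw [div_lt_iff₀ η0] at this
        linarith) (fun y hy => by
        have m : y ∈ closedBall x R := by rw [mem_closedBall, dist_eq_norm]; linarith
        have e1 := abs_lt.mp (wa y m)
        have e2 := hδ y m (by rw [dist_eq_norm]; linarith)
        rw [hW0, Real.dist_eq, sub_zero] at e2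
        have e3 := mul_pos a0 (Real.rpow_pos_of_pos r0 (1 - η))
        linarith [e1.2, (abs_lt.mp e2).2]) (fun y hy => by
        have m : y ∈ closedBall x R := by rw [mem_closedBall, dist_eq_norm]; linarith
        have e1 := abs_lt.mp (wa y m)
        rw [div_mul_cancel₀ _ Rβ.ne']
        linarith [e1.2, hM y m]) r2 h
    have e1 := abs_lt.mp (wa q hq)
    rw [Real.div_rpow ρ0.le hR.le, ← mul_div_assoc, ← div_mul_eq_mul_div]
    linarith [e1.1]
  have lim : Tendsto (fun η : ℝ => 3 * η + (M + η) * (‖q - x‖ / R) ^ (1 - η)) (𝓝[>] 0)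
      (𝓝 (3 * 0 + (M + 0) * (‖q - x‖ / R) ^ (1 - (0 : ℝ)))) := by
    refine tendsto_nhdsWithin_of_tendsto_nhds (ContinuousAt.tendsto ?_)
    refine (continuousAt_const.mul continuousAt_id).add
      ((continuousAt_const.add continuousAt_id).mul ?_)
    exact (Real.continuousAt_const_rpow (div_pos ρ0 hR).ne').comp
      (continuousAt_const.sub continuousAt_id)
  have := ge_of_tendsto lim (by
    filter_upwards [Ioo_mem_nhdsGT (show (0 : ℝ) < 1 by norm_num)] with η hη using
      key η hη.1 hη.2)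
  simp only [mul_zero, add_zero, zero_add, sub_zero, Real.rpow_one] at this
  rw [← mul_div_assoc, le_div_iff₀ hR] at this
  linarith

end Pool.Agent.H758Z.InfH
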