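import Mathlib

open MeasureTheory Filter Set
open scoped ContDiff

namespace Pool.Agent.H758Z.InfH

/-- The Euclidean plane. -/
abbrev Plane : Type := EuclideanSpace ℝ (Fin 2)

/-- The circle `ℝ/ℤ` with its flat metric. -/
abbrev Circ : Type := AddCircle (1 : ℝ)

/-- `g` is the weak gradient of the circle-valued map `u` on `Ω`, computed through local lifts:
whenever `w` is a continuous real lift of `u` on an open set `U ⊆ Ω`, the components of `g` are
the distributional partial derivatives of `w` on `U`. -/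
def IsWeakGrad (Ω : Set Plane) (u : C(closure Ω, Circ)) (g : Plane → Plane) : Prop :=
  ∀ (U : Set Plane) (hU : U ⊆ Ω), IsOpen U → ∀ w : Plane → ℝ, ContinuousOn w U →
    (∀ (x : Plane) (hx : x ∈ U), ((w x : ℝ) : Circ) = u ⟨x, subset_closure (hU hx)⟩) →
    ∀ φ : Plane → ℝ, ContDiff ℝ ∞ φ → HasCompactSupport φ → tsupport φ ⊆ U → ∀ i : Fin 2,
      ∫ x, w x * fderiv ℝ φ x (EuclideanSpace.single i 1) = - ∫ x, g x i * φ x

/-- `u` belongs to the class `C_p(u₀)` and `g = du`: the map `u` is continuous on the closure,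
homotopic to `u₀` relative to the boundary (so it has the boundary values of `u₀`), and its weak
gradient `g` is in `L^p(Ω)`. -/
def InClass (Ω : Set Plane) (u₀ : C(closure Ω, Circ)) (p : ℝ) (u : C(closure Ω, Circ))
    (g : Plane → Plane) : Prop :=
  u.HomotopicRel u₀ {x | (x : Plane) ∈ frontier Ω} ∧
    MemLp g (ENNReal.ofReal p) (volume.restrict Ω) ∧ IsWeakGrad Ω u g

/-- The `p`-energy of a map with weak gradient `g`. -/
noncomputable def energy (Ω : Set Plane) (p : ℝ) (g : Plane → Plane) : ℝ :=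
  ∫ x in Ω, ‖g x‖ ^ p

/-- `u` minimizes the `p`-energy in the class `C_p(u₀)`. -/
def IsMinimizer (Ω : Set Plane) (u₀ : C(closure Ω, Circ)) (p : ℝ) (u : C(closure Ω, Circ)) :
    Prop :=
  ∃ g, InClass Ω u₀ p u g ∧ ∀ w h, InClass Ω u₀ p w h → energy Ω p g ≤ energy Ω p h

/-- `u` is infinity-harmonic with data `u₀`: a uniform limit of minimizers of the `p_j`-energies
for some sequence `p_j → ∞` of exponents `p_j > 2`. -/
def IsInfHarmonic (Ω : Set Plane) (u₀ u : C(closure Ω, Circ)) : Prop :=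
  ∃ (p : ℕ → ℝ) (us : ℕ → C(closure Ω, Circ)), (∀ j, 2 < p j) ∧ Tendsto p atTop atTop ∧
    (∀ j, IsMinimizer Ω u₀ (p j) (us j)) ∧
    TendstoUniformly (fun j (x : closure Ω) => us j x) u atTop

end Pool.Agent.H758Z.InfH
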