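import Pool.Agent.H758Z.InfCone

open Set Metric Filter Topology MeasureTheory Helper304Lap
open scoped ContDiff unitInterval

namespace Pool.Agent.H758Z.InfH

/-- the representative in `(-1/2, 1/2]` -/
noncomputable def rep (z : Circ) : ℝ := (AddCircle.equivIoc (1 : ℝ) (-1 / 2) z : ℝ)

lemma rep_coe (z : Circ) : ((rep z : ℝ) : Circ) = z := AddCircle.coe_equivIoc

lemma rep_abs (z : Circ) : |rep z| = ‖z‖ := by
  have h := (AddCircle.equivIoc (1 : ℝ) (-1 / 2) z).2
  have h2 : |rep z| ≤ |(1 : ℝ)| / 2 := by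
    rw [abs_one, abs_le]
    exact ⟨by unfold rep; linarith [h.1], by unfold rep; linarith [h.2]⟩
  have h3 := (AddCircle.norm_coe_eq_abs_iff (1 : ℝ) one_ne_zero).mpr h2
  rw [rep_coe] at h3
  exact h3.symm

lemma rep_zero : rep 0 = 0 := by
  have := rep_abs 0
  rwa [norm_zero, abs_eq_zero] at this

lemma rep_cont {z : Circ} (h : ‖z‖ < 1 / 2) : ContinuousAt rep z := by
  refine continuousAt_subtype_val.comp (AddCircle.continuousAt_equivIoc (1 : ℝ) (-1 / 2) ?_)
  rintro rfl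
  have h2 : |(-1 / 2 : ℝ)| ≤ |(1 : ℝ)| / 2 := by
    rw [abs_one, abs_le]; constructor <;> norm_num
  rw [(AddCircle.norm_coe_eq_abs_iff (1 : ℝ) one_ne_zero).mpr h2] at h
  rw [abs_lt] at h
  linarith [h.1]

lemma rep_contOn {X : Type*} [TopologicalSpace X] {f : X → Circ} {s : Set X}
    (hf : ContinuousOn f s) (h : ∀ x ∈ s, ‖f x‖ < 1 / 2) : ContinuousOn (fun x => rep (f x)) s :=
  fun x hx => (rep_cont (h x hx)).comp_continuousWithinAt (hf x hx)

lemma eq_of_coe {s t : ℝ} (h : (s : Circ) = t) (hst : |s - t| < 1) : s = t := by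
  have h1 : ((s - t : ℝ) : Circ) = 0 := by rw [AddCircle.coe_sub, h, sub_self]
  obtain ⟨n, hn⟩ := (AddCircle.coe_eq_zero_iff (1 : ℝ)).mp h1
  rw [zsmul_eq_mul, mul_one] at hn
  rw [← hn, ← Int.cast_abs] at hst
  have : |n| < 1 := by exact_mod_cast hst
  rw [Int.abs_lt_one_iff.mp this] at hn
  simp only [Int.cast_zero] at hn
  linarith

lemma cont_coe : Continuous ((↑) : ℝ → Circ) := AddCircle.continuous_mk' 1

lemma exists_lift {X : Type*} [TopologicalSpace X] {u v : C(X, Circ)} {S : Set X}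
    (h : u.HomotopicRel v S) :
    ∃ d : X → ℝ, Continuous d ∧ (∀ x, ((d x : ℝ) : Circ) = v x - u x) ∧ ∀ x ∈ S, d x = 0 := by
  obtain ⟨H⟩ := h
  have cov := AddCircle.isCoveringMap_coe (1 : ℝ)
  let G : C(I × X, Circ) := ⟨fun q => H q - u q.2, by fun_prop⟩
  have G0 : ∀ a, G (0, a) = (((ContinuousMap.const X (0 : ℝ)) a : ℝ) : Circ) := fun a => by
    simp [G]
  let L := cov.liftHomotopy G (ContinuousMap.const X (0 : ℝ)) G0
  have hL : ∀ q, ((L q : ℝ) : Circ) = G q := fun q =>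
    congrFun (cov.liftHomotopy_lifts G (ContinuousMap.const X (0 : ℝ)) G0) q
  refine ⟨fun x => L (1, x), by fun_prop, fun x => ?_, fun x hx => ?_⟩
  · rw [hL]
    simp [G]
  · have := cov.const_of_comp (g := fun t : I => L (t, x)) (by fun_prop) (fun a a' => by
      rw [hL, hL]
      simp only [G, ContinuousMap.coe_mk]
      rw [H.eq_fst a hx, H.eq_fst a' hx]) 1 0
    exact this.trans (cov.liftHomotopy_zero G _ G0 x)

open Classical in
/-- extension by zero -/
noncomputable def ext {Ω : Set Plane} {Y : Type*} [Zero Y] (u : closure Ω → Y) (x : Plane) : Y :=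
  if h : x ∈ closure Ω then u ⟨x, h⟩ else 0

lemma ext_eq {Ω : Set Plane} {Y : Type*} [Zero Y] (u : closure Ω → Y) {x : Plane}
    (h : x ∈ closure Ω) : ext u x = u ⟨x, h⟩ := dif_pos h

lemma ext_cont {Ω : Set Plane} {Y : Type*} [Zero Y] [TopologicalSpace Y] {u : closure Ω → Y}
    (hu : Continuous u) : ContinuousOn (ext u) (closure Ω) := by
  rw [continuousOn_iff_continuous_restrict]
  convert hu using 1
  funext x
  exact ext_eq u x.2

lemma locmin {Ω : Set Plane} (hΩ : IsOpen Ω) (hb : Bornology.IsBounded Ω)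
    {u₀ u : C(closure Ω, Circ)} {p : ℝ} (hp : 1 ≤ p) {g : Plane → Plane}
    (hg : InClass Ω u₀ p u g) (hm : ∀ w h, InClass Ω u₀ p w h → energy Ω p g ≤ energy Ω p h)
    {A : Set Plane} (hA : IsOpen A) (hAΩ : A ⊆ Ω) {w : Plane → ℝ} (hw : ContinuousOn w A)
    (hl : ∀ x ∈ A, ((w x : ℝ) : Circ) = ext u x) : Loc Ω A p w g where
  lp := hg.2.1
  wc := hw
  wd := fun φ h1 h2 i => hg.2.2 A hAΩ hA w hw
    (fun x hx => (hl x hx).trans (ext_eq u _)) φ h1.1 h1.2 h2 i
  mn := fun ψ h c k s wd lp => by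
    have cc := cont_coe
    let u' : C(closure Ω, Circ) := ⟨fun x => u x - ((ψ x : ℝ) : Circ), by fun_prop⟩
    refine hm u' _ ⟨ContinuousMap.HomotopicRel.trans ?_ hg.1, hg.2.1.sub lp, ?_⟩
    · refine ⟨⟨⟨⟨fun q => u q.2 - (((1 - q.1) * ψ q.2 : ℝ) : Circ), by fun_prop⟩, ?_, ?_⟩, ?_⟩⟩
      · intro x; simp [u']
      · intro x; simp
      · intro t x hx
        have : ψ x = 0 := image_eq_zero_of_notMem_tsupport fun k =>
          (hΩ.frontier_eq ▸ hx : (x : Plane) ∈ closure Ω \ Ω).2 (s k)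
        simp [u', this]
    · intro U hU oU w' cw' lw' φ h1 h2 h3 i
      have tφ : Tst φ := ⟨h1, h2⟩
      have e1 := hg.2.2 U hU oU (fun x => w' x + ψ x) (cw'.add c.continuousOn) (fun x hx => by
        rw [AddCircle.coe_add, lw' x hx]
        simp [u']) φ h1 h2 h3 i
      have e2 := wd i φ tφ
      have out : ∀ (g : Plane → Plane) x, x ∉ Ω → g x = 0 ∨ φ x = 0 := fun g x hx =>
        Or.inr (image_eq_zero_of_notMem_tsupport fun k => hx (hU (h3 k)))
      have i1 := int_cut oU cw' (tφ.pd i) ((tsupp_pd φ i).trans h3)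
      have i2 := int_cut oU c.continuousOn (tφ.pd i) ((tsupp_pd φ i).trans h3)
      have i3 := coord_int hb hp hg.2.1 tφ (out g) i
      have i4 := coord_int hb hp lp tφ (out h) i
      change ∫ x, (w' x + ψ x) * pd i φ x = _ at e1
      change ∫ x, w' x * pd i φ x = _
      simp only [add_mul] at e1
      simp only [PiLp.sub_apply, sub_mul]
      rw [integral_add i1 i2] at e1
      rw [integral_sub i3 i4]
      linarith

end Pool.Agent.H758Z.InfH
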