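import Pool.Agent.H758Z.InfLift
import Pool.Agent.H758Z.InfAS

open Set Metric Filter Topology MeasureTheory Helper304Lap
open scoped ContDiff unitInterval

namespace Pool.Agent.H758Z.InfH

/-- the local lift of `u y - u x` -/
noncomputable def two {Ω : Set Plane} (u : C(closure Ω, Circ)) (x y : Plane) : ℝ :=
  rep (ext u y - ext u x)

lemma approx {Ω : Set Plane} {u₀ u : C(closure Ω, Circ)} (H : IsInfHarmonic Ω u₀ u) {δ : ℝ}
    (hδ : 0 < δ) (P : ℝ) : ∃ p w, P < p ∧ 2 < p ∧ IsMinimizer Ω u₀ p w ∧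
      ∀ x, ‖w x - u x‖ < δ := by
  obtain ⟨p, us, h2, hp, hm, hu⟩ := H
  obtain ⟨j, h1, h3⟩ := ((hp.eventually_gt_atTop P).and
    (Metric.tendstoUniformly_iff.mp hu δ hδ)).exists
  refine ⟨p j, us j, h1, h2 j, hm j, fun x => ?_⟩
  rw [← dist_eq_norm, dist_comm]
  exact h3 x

lemma cc_both {Ω : Set Plane} (hΩ : IsOpen Ω) (hb : Bornology.IsBounded Ω)
    {u₀ u : C(closure Ω, Circ)} (H : IsInfHarmonic Ω u₀ u) {ε : ℝ} (hε : 0 < ε)
    (hs : ∀ x ∈ closure Ω, ∀ y ∈ closure Ω, dist y x ≤ 2 * ε → ‖ext u y - ext u x‖ < 1 / 2) :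
    CC Ω ε (two u) ∧ CC Ω ε (fun x y => -two u x y) := by
  have key : ∀ x, closedBall x (2 * ε) ⊆ Ω → ContinuousOn (two u x) (closedBall x (2 * ε)) ∧
      two u x x = 0 ∧ ∀ δ > 0, ∀ P : ℝ, ∃ p w g, P < p ∧ ContinuousOn w (closedBall x (2 * ε)) ∧
        (∀ y ∈ closedBall x (2 * ε), |w y - two u x y| < δ) ∧
        ∀ A ⊆ ball x (2 * ε), IsOpen A → Loc Ω A p w g := by
    intro x hx
    have sub : closedBall x (2 * ε) ⊆ closure Ω := hx.trans subset_closure
    have xm : x ∈ closure Ω := sub (mem_closedBall_self (by linarith))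
    have cu := (ext_cont u.continuous).mono sub
    have c1 : ContinuousOn (two u x) (closedBall x (2 * ε)) :=
      rep_contOn (cu.sub continuousOn_const) fun y hy => hs x xm y (sub hy) hy
    refine ⟨c1, by simp [two, rep_zero], fun δ δ0 P => ?_⟩
    obtain ⟨p, w, h1, h2, ⟨g, hg, hm⟩, h4⟩ := approx H (lt_min δ0 (by norm_num : (0 : ℝ) < 1 / 2)) P
    have h5 : ∀ y ∈ closure Ω, ‖ext w y - ext u y‖ < min δ (1 / 2) := fun y hy => by
      rw [ext_eq _ hy, ext_eq _ hy]
      exact h4 _
    have cw := (ext_cont w.continuous).mono sub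
    have c2 : ContinuousOn (fun y => two u x y + rep (ext w y - ext u y))
        (closedBall x (2 * ε)) :=
      c1.add (rep_contOn (cw.sub cu) fun y hy => (h5 y (sub hy)).trans_le (min_le_right _ _))
    refine ⟨p, fun y => two u x y + rep (ext w y - ext u y), g, h1, c2, fun y hy => ?_,
      fun A hA oA => ?_⟩
    · rw [add_sub_cancel_left, rep_abs]
      exact (h5 y (sub hy)).trans_le (min_le_left _ _)
    · have AB : A ⊆ closedBall x (2 * ε) := hA.trans ball_subset_closedBall
      have L := locmin hΩ hb (by linarith) hg hm oA (AB.trans hx)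
        (w := fun y => two u x y + rep (ext w y - ext u y) + rep (ext u x))
        ((c2.mono AB).add continuousOn_const) (fun y _ => by
          simp only [two, AddCircle.coe_add, rep_coe]
          abel)
      refine ⟨L.lp, c2.mono AB, fun φ t1 t2 i => ?_, L.mn⟩
      have e1 := L.wd φ t1 t2 i
      have i1 := int_cut oA (c2.mono AB) (t1.pd i) ((tsupp_pd φ i).trans t2)
      have i2 := int_cut oA (continuousOn_const (c := rep (ext u x))) (t1.pd i)
        ((tsupp_pd φ i).trans t2)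
      have e2 := ibp_loc oA (contDiffOn_const (c := rep (ext u x))) t1 t2 i
      have e3 : ∀ y, pd i (fun _ : Plane => rep (ext u x)) y = 0 := fun y =>
        pd_zero (EventuallyEq.refl _ _) i
      simp only [e3, zero_mul, integral_zero, neg_zero] at e2
      simp only [add_mul (_ + _) (rep (ext u x))] at e1
      rw [integral_add i1 i2, e2, add_zero] at e1
      exact e1
  constructor
  · intro x hx A hA q hq
    obtain ⟨k1, k2, k3⟩ := key x hx
    exact limit_cc hΩ hb (by linarith) hx k1 k2 k3 hA hq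
  · intro x hx A hA q hq
    obtain ⟨k1, k2, k3⟩ := key x hx
    refine limit_cc hΩ hb (W := fun y => -two u x y) (by linarith) hx k1.neg (by simp [k2])
      (fun δ δ0 P => ?_) hA hq
    obtain ⟨p, w, g, h1, h2, h3, h4⟩ := k3 δ δ0 P
    refine ⟨p, fun y => -w y, fun y => -g y, h1, h2.neg, fun y hy => ?_,
      fun A h h' => (h4 A h h').neg⟩
    rw [← abs_neg]
    convert h3 y hy using 2
    ring

lemma exists_d {Ω : Set Plane} {u₀ u v : C(closure Ω, Circ)} (Hu : IsInfHarmonic Ω u₀ u)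
    (Hv : IsInfHarmonic Ω u₀ v) : ∃ d : closure Ω → ℝ, Continuous d ∧
      (∀ x, ((d x : ℝ) : Circ) = u x - v x) ∧
      ∀ x : closure Ω, (x : Plane) ∈ frontier Ω → d x = 0 := by
  have bd : ∀ {u : C(closure Ω, Circ)}, IsInfHarmonic Ω u₀ u →
      ∀ x : closure Ω, (x : Plane) ∈ frontier Ω → u x = u₀ x := by
    intro u H x hx
    refine eq_of_forall_dist_le fun δ δ0 => ?_
    obtain ⟨p, w, -, -, ⟨g, hg, -⟩, h4⟩ := approx H δ0 0
    rw [← hg.1.fst_eq_snd hx, dist_comm, dist_eq_norm]
    exact (h4 x).le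
  obtain ⟨p, a, -, -, ⟨g, hg, -⟩, ha⟩ := approx Hu (by norm_num : (0 : ℝ) < 1 / 2) 0
  obtain ⟨q, b, -, -, ⟨h, hh, -⟩, hb⟩ := approx Hv (by norm_num : (0 : ℝ) < 1 / 2) 0
  obtain ⟨d, cd, ld, zd⟩ := exists_lift (hh.1.trans hg.1.symm)
  have c1 : Continuous fun x => rep (a x - u x) := by
    rw [← continuousOn_univ]
    exact rep_contOn (by fun_prop) fun x _ => ha x
  have c2 : Continuous fun x => rep (b x - v x) := by
    rw [← continuousOn_univ]
    exact rep_contOn (by fun_prop) fun x _ => hb x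
  refine ⟨fun x => d x - rep (a x - u x) + rep (b x - v x), (cd.sub c1).add c2, fun x => ?_,
    fun x hx => ?_⟩
  · simp only [AddCircle.coe_add, AddCircle.coe_sub, rep_coe, ld]
    abel
  · simp only [zd x hx, hg.1.fst_eq_snd hx, hh.1.fst_eq_snd hx, bd Hu x hx, bd Hv x hx, sub_self,
      rep_zero, add_zero]

lemma near_frontier {Ω : Set Plane} (hΩ : IsOpen Ω) {x : Plane} (hx : x ∈ closure Ω) {r : ℝ}
    (hr : 0 ≤ r) (h : ¬ closedBall x r ⊆ Ω) : ∃ z ∈ frontier Ω, dist z x ≤ r := by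
  by_contra k
  push Not at k
  have nf : ∀ z ∈ closedBall x r, z ∉ frontier Ω := fun z hz hf => (k z hf).not_ge hz
  have xΩ : x ∈ Ω := by
    by_contra hx'
    exact nf x (mem_closedBall_self hr) (hΩ.frontier_eq ▸ ⟨hx, hx'⟩)
  refine h ((convex_closedBall x r).isPreconnected.subset_left_of_subset_union hΩ
    isClosed_closure.isOpen_compl (disjoint_compl_right.mono_left subset_closure)
    (fun z hz => ?_) ⟨x, mem_closedBall_self hr, xΩ⟩)
  by_cases hz' : z ∈ closure Ω
  · left
    by_contra h'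
    exact nf z hz (hΩ.frontier_eq ▸ ⟨hz', h'⟩)
  · exact Or.inr hz'

lemma half {Ω : Set Plane} (hΩ : IsOpen Ω) (hb : Bornology.IsBounded Ω)
    {u₀ u v : C(closure Ω, Circ)} (Hu : IsInfHarmonic Ω u₀ u) (Hv : IsInfHarmonic Ω u₀ v)
    {d : closure Ω → ℝ} (cd : Continuous d) (ld : ∀ x, ((d x : ℝ) : Circ) = u x - v x)
    (zd : ∀ x : closure Ω, (x : Plane) ∈ frontier Ω → d x = 0) (x0 : closure Ω) : d x0 ≤ 0 := by
  have hK : IsCompact (closure Ω) := hb.isCompact_closure
  have key : ∀ η, 0 < η → η < 1 / 4 → d x0 < 3 * η := by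
    intro η η0 η1
    have uc : ∀ {Y : Type} [PseudoMetricSpace Y] {f : Plane → Y}, ContinuousOn f (closure Ω) →
        ∃ δ > 0, ∀ x ∈ closure Ω, ∀ y ∈ closure Ω, dist y x < δ → dist (f y) (f x) < η := by
      intro Y _ f hf
      obtain ⟨δ, δ0, h⟩ := Metric.uniformContinuousOn_iff.mp
        (hK.uniformContinuousOn_of_continuous hf) η η0
      exact ⟨δ, δ0, fun x hx y hy => h y hy x hx⟩
    have cu := ext_cont u.continuous
    have cv := ext_cont v.continuous
    have cD := ext_cont cd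
    obtain ⟨δ1, p1, h1⟩ := uc cu
    obtain ⟨δ2, p2, h2⟩ := uc cv
    obtain ⟨δ3, p3, h3⟩ := uc cD
    set ε := min δ1 (min δ2 δ3) / 3 with hε
    have m0 : 0 < min δ1 (min δ2 δ3) := lt_min p1 (lt_min p2 p3)
    have ε0 : 0 < ε := by linarith
    have m1 := min_le_left δ1 (min δ2 δ3)
    have m2 := (min_le_right δ1 (min δ2 δ3)).trans (min_le_left δ2 δ3)
    have m3 := (min_le_right δ1 (min δ2 δ3)).trans (min_le_right δ2 δ3)
    have su : ∀ x ∈ closure Ω, ∀ y ∈ closure Ω, dist y x ≤ 2 * ε → ‖ext u y - ext u x‖ < η :=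
      fun x hx y hy h => by rw [← dist_eq_norm]; exact h1 x hx y hy (by linarith)
    have sv : ∀ x ∈ closure Ω, ∀ y ∈ closure Ω, dist y x ≤ 2 * ε → ‖ext v y - ext v x‖ < η :=
      fun x hx y hy h => by rw [← dist_eq_norm]; exact h2 x hx y hy (by linarith)
    have sd : ∀ x ∈ closure Ω, ∀ y ∈ closure Ω, dist y x ≤ 2 * ε → |ext d y - ext d x| < η :=
      fun x hx y hy h => by rw [← Real.dist_eq]; exact h3 x hx y hy (by linarith)
    have tu : ∀ x ∈ closure Ω, ∀ y ∈ closure Ω, dist y x ≤ 2 * ε → |two u x y| < η :=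
      fun x hx y hy h => by unfold two; rw [rep_abs]; exact su x hx y hy h
    have tv : ∀ x ∈ closure Ω, ∀ y ∈ closure Ω, dist y x ≤ 2 * ε → |two v x y| < η :=
      fun x hx y hy h => by unfold two; rw [rep_abs]; exact sv x hx y hy h
    have lD : ∀ x ∈ closure Ω, ((ext d x : ℝ) : Circ) = ext u x - ext v x := fun x hx => by
      rw [ext_eq _ hx, ext_eq _ hx, ext_eq _ hx, ld]
    have := as_main hK subset_closure ε0 (U := two u) (V := two v) (η := η) cD
      (rep_contOn ((cu.comp continuousOn_snd fun q hq => hq.2.1).sub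
        (cu.comp continuousOn_fst fun q hq => hq.1))
        fun q hq => (su _ hq.1 _ hq.2.1 hq.2.2).trans (by linarith))
      (fun x hx y hy h => eq_of_coe (by
        simp only [two, AddCircle.coe_sub, rep_coe, lD x hx, lD y hy]
        abel) (by
        have a := abs_lt.mp (tu x hx y hy h)
        have b := abs_lt.mp (tv x hx y hy h)
        have c := abs_lt.mp (sd x hx y hy h)
        rw [abs_lt]
        constructor <;> linarith [a.1, a.2, b.1, b.2, c.1, c.2]))
      (fun x hx y hy z hz k1 k2 k3 => eq_of_coe (by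
        simp only [two, AddCircle.coe_add, rep_coe]
        abel) (by
        have a := abs_lt.mp (tu x hx y hy k1)
        have b := abs_lt.mp (tu y hy z hz k2)
        have c := abs_lt.mp (tu x hx z hz k3)
        rw [abs_lt]
        constructor <;> linarith [a.1, a.2, b.1, b.2, c.1, c.2]))
      (fun x hx y hy h => (abs_lt.mp (tu x hx y hy h)).2.le)
      (fun x hx y hy h => by linarith [(abs_lt.mp (tv x hx y hy h)).1])
      (fun x hx h => by
        by_contra k
        obtain ⟨z, hz, dz⟩ := near_frontier hΩ hx (by linarith) k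
        have zc : z ∈ closure Ω := frontier_subset_closure hz
        have a := abs_lt.mp (sd x hx z zc dz)
        rw [ext_eq d zc, zd ⟨z, zc⟩ hz] at a
        linarith [a.1])
      (cc_both hΩ hb Hu ε0 fun x hx y hy h => (su x hx y hy h).trans (by linarith)).1
      (cc_both hΩ hb Hv ε0 fun x hx y hy h => (sv x hx y hy h).trans (by linarith)).2
      x0.2 η0.le
    rwa [ext_eq d x0.2] at this
  by_contra k
  push Not at k
  have := key (min (d x0 / 3) (1 / 8)) (lt_min (by linarith) (by norm_num))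
    ((min_le_right _ _).trans_lt (by norm_num))
  linarith [min_le_left (d x0 / 3) (1 / 8)]

theorem unique {Ω : Set Plane} (hΩ : IsOpen Ω) (hb : Bornology.IsBounded Ω)
    {u₀ u v : C(closure Ω, Circ)} (Hu : IsInfHarmonic Ω u₀ u) (Hv : IsInfHarmonic Ω u₀ v) :
    u = v := by
  obtain ⟨d, cd, ld, zd⟩ := exists_d Hu Hv
  ext x
  have h1 := half hΩ hb Hu Hv cd ld zd x
  have h2 := half hΩ hb Hv Hu (d := fun x => -d x) cd.neg
    (fun x => by rw [AddCircle.coe_neg, ld, neg_sub]) (fun x hx => by rw [zd x hx, neg_zero]) x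
  have h3 : d x = 0 := by linarith
  have := ld x
  rw [h3, AddCircle.coe_zero] at this
  exact (sub_eq_zero.mp this.symm)

end Pool.Agent.H758Z.InfH
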