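import Mathlib

open Set Topology Filter

namespace Pool.Agent.H758Z.Sec

def LocSupp (v : ℝ → ℝ) (t0 : ℝ) : Prop :=
  ∃ α β : ℝ, v t0 = α + β * t0 ∧ ∀ᶠ t in 𝓝 t0, α + β * t ≤ v t

lemma LocSupp.congr {v w : ℝ → ℝ} {t0 : ℝ} (h : LocSupp v t0) (e : v =ᶠ[𝓝 t0] w) :
    LocSupp w t0 := by
  obtain ⟨α, β, h1, h2⟩ := h
  refine ⟨α, β, by rw [← e.eq_of_nhds, h1], ?_⟩
  filter_upwards [h2, e] with t a b
  rw [← b]; exact a

lemma LocSupp.neg {v : ℝ → ℝ} {t0 : ℝ} (h : LocSupp v (-t0)) :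
    LocSupp (fun t => v (-t)) t0 := by
  obtain ⟨α, β, h1, h2⟩ := h
  refine ⟨α, -β, by simp only [h1]; ring, ?_⟩
  have := (continuous_neg.tendsto t0).eventually h2
  filter_upwards [this] with t a
  linarith

lemma chord_of_locSupp {φ : ℝ → ℝ} (hc : ContinuousOn φ (Icc 0 1))
    (hs : ∀ s ∈ Ioo (0 : ℝ) 1, LocSupp φ s) {s : ℝ} (hs0 : s ∈ Icc (0 : ℝ) 1) :
    φ s ≤ (1 - s) * φ 0 + s * φ 1 := by
  by_contra hcon
  push Not at hcon
  set g : ℝ → ℝ := fun s => φ s - ((1 - s) * φ 0 + s * φ 1) with hg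
  have hgc : ContinuousOn g (Icc 0 1) := hc.sub (by fun_prop)
  obtain ⟨m, hm, hmax⟩ := isCompact_Icc.exists_isMaxOn ⟨0, left_mem_Icc.mpr zero_le_one⟩ hgc
  have hpos : 0 < g m := lt_of_lt_of_le (by simp only [hg]; linarith) (hmax hs0)
  set A : Set ℝ := Icc 0 1 ∩ g ⁻¹' {g m} with hA
  have hAc : IsClosed A := hgc.preimage_isClosed_of_isClosed isClosed_Icc isClosed_singleton
  have hAk : IsCompact A := isCompact_Icc.of_isClosed_subset hAc inter_subset_left
  obtain ⟨a, ha, hmin⟩ := hAk.exists_isMinOn ⟨m, hm, rfl⟩ continuous_id.continuousOn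
  have hga : g a = g m := ha.2
  have ha0 : 0 < a := by
    rcases ha.1.1.eq_or_lt with h | h
    · exfalso; rw [← h] at hga; simp [hg] at hga hpos; linarith
    · exact h
  have ha1 : a < 1 := by
    rcases ha.1.2.eq_or_lt with h | h
    · exfalso; rw [h] at hga; simp [hg] at hga hpos; linarith
    · exact h
  obtain ⟨α, β, h1, h2⟩ := hs a ⟨ha0, ha1⟩
  obtain ⟨ε, hε, hb⟩ := Metric.eventually_nhds_iff.mp h2
  set h := min (ε / 2) (min a (1 - a)) with hh
  have hh0 : 0 < h := lt_min (by linarith) (lt_min ha0 (by linarith))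
  have hh1 : h ≤ ε / 2 := min_le_left _ _
  have hh2 : h ≤ a := (min_le_right _ _).trans (min_le_left _ _)
  have hh3 : h ≤ 1 - a := (min_le_right _ _).trans (min_le_right _ _)
  have e1 : α + β * (a - h) ≤ φ (a - h) := hb (by
    rw [Real.dist_eq, abs_lt]; constructor <;> linarith)
  have e2 : α + β * (a + h) ≤ φ (a + h) := hb (by
    rw [Real.dist_eq, abs_lt]; constructor <;> linarith)
  have m1 : a - h ∈ Icc (0 : ℝ) 1 := ⟨by linarith, by linarith⟩
  have m2 : a + h ∈ Icc (0 : ℝ) 1 := ⟨by linarith, by linarith⟩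
  have k1 : g (a - h) ≤ g m := hmax m1
  have k2 : g (a + h) ≤ g m := hmax m2
  have k3 : g (a - h) ≠ g m := by
    intro e
    have := hmin (show a - h ∈ A from ⟨m1, e⟩)
    simp at this
    linarith
  have k4 : g (a - h) < g m := lt_of_le_of_ne k1 k3
  have k5 : g (a - h) + g (a + h) ≥ 2 * g a := by
    simp only [hg]
    rw [h1]
    nlinarith
  linarith

lemma inv_expand (a h : ℝ) (hh : 1 + a * h ≠ 0) :
    1 / (1 + a * h) = 1 - a * h + h ^ 2 * (a ^ 2 / (1 + a * h)) := by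
  field_simp
  ring

/-- local support line for the slave side -/
lemma slave {u1 u2 : ℝ → ℝ} (c1 : Continuous u1) (c2 : Continuous u2)
    {t0 s1 s2 L σ : ℝ} (p1 : 0 < u1 t0) (p2 : 0 < u2 t0) (hL : 0 < L)
    (h1 : ∀ t, u1 t0 + s1 * (t - t0) ≤ u1 t) (h2 : ∀ t, u2 t0 + s2 * (t - t0) ≤ u2 t)
    (hc : L ≤ u2 t0) (hy : 0 < 1 / u1 t0 + 1 / u2 t0 - 1 / L)
    (hA : σ < s2 / u2 t0) (hB : s2 / u2 t0 - σ ≤ 2 * (s1 / u1 t0 - σ)) :
    LocSupp (fun t => 1 / (1 / u1 t + 1 / u2 t - 1 / (L * (1 + σ * (t - t0))))) t0 := by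
  set x1 := 1 / u1 t0 with hx1
  set x2 := 1 / u2 t0 with hx2
  set c := 1 / L with hcc
  set a1 := s1 / u1 t0 with ha1
  set a2 := s2 / u2 t0 with ha2
  set y := x1 + x2 - c with hyy
  have x1p : 0 < x1 := by positivity
  have x2p : 0 < x2 := by positivity
  have cp : 0 < c := by positivity
  have hcx : x2 ≤ c := one_div_le_one_div_of_le hL hc
  set aq := (a1 * x1 + a2 * x2 - σ * c) / y with haq
  have haq' : aq * y = a1 * x1 + a2 * x2 - σ * c := by rw [haq]; field_simp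
  have hn : 0 < y * aq ^ 2 + c * σ ^ 2 - x1 * a1 ^ 2 - x2 * a2 ^ 2 := by
    have e : y * (y * aq ^ 2 + c * σ ^ 2 - x1 * a1 ^ 2 - x2 * a2 ^ 2) =
        ((a1 - σ) * x1 + (a2 - σ) * x2) ^ 2 - y * ((a1 - σ) ^ 2 * x1 + (a2 - σ) ^ 2 * x2) := by
      have : y * (y * aq ^ 2) = (a1 * x1 + a2 * x2 - σ * c) ^ 2 := by rw [← haq']; ring
      have hc' : c = x1 + x2 - y := by rw [hyy]; ring
      rw [mul_sub, mul_sub, mul_add, this, hc']
      ring
    have hA2 : 0 < a2 - σ := by linarith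
    have hyx : y ≤ x1 := by rw [hyy]; linarith
    have hq : 0 ≤ (a1 - σ) ^ 2 * x1 + (a2 - σ) ^ 2 * x2 := by positivity
    have k1 : y * ((a1 - σ) ^ 2 * x1 + (a2 - σ) ^ 2 * x2) ≤
        x1 * ((a1 - σ) ^ 2 * x1 + (a2 - σ) ^ 2 * x2) := mul_le_mul_of_nonneg_right hyx hq
    have k2 : ((a1 - σ) * x1 + (a2 - σ) * x2) ^ 2 - x1 * ((a1 - σ) ^ 2 * x1 + (a2 - σ) ^ 2 * x2)
        = (a2 - σ) * x2 * ((2 * (a1 - σ) - (a2 - σ)) * x1 + (a2 - σ) * x2) := by ring
    have k3 : 0 < (a2 - σ) * x2 * ((2 * (a1 - σ) - (a2 - σ)) * x1 + (a2 - σ) * x2) := by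
      have : 0 ≤ (2 * (a1 - σ) - (a2 - σ)) * x1 := mul_nonneg (by linarith) x1p.le
      have : 0 < (a2 - σ) * x2 := mul_pos hA2 x2p
      positivity
    have : 0 < y * (y * aq ^ 2 + c * σ ^ 2 - x1 * a1 ^ 2 - x2 * a2 ^ 2) := by
      rw [e]; linarith
    exact (mul_pos_iff_of_pos_left hy).mp this
  refine ⟨(1 - aq * t0) / y, aq / y, ?_, ?_⟩
  · simp only [sub_self, mul_zero, add_zero, mul_one]
    rw [← hx1, ← hx2, ← hcc, ← hyy]
    field_simp
    ring
  · have pos : ∀ a : ℝ, ∀ᶠ t in 𝓝 t0, 0 < 1 + a * (t - t0) := by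
      intro a
      have : Continuous fun t : ℝ => 1 + a * (t - t0) := by fun_prop
      exact (this.tendsto t0).eventually (lt_mem_nhds (by simp))
    have cinv : ∀ a : ℝ, ContinuousAt (fun t : ℝ => a ^ 2 / (1 + a * (t - t0))) t0 := by
      intro a
      exact ContinuousAt.div (by fun_prop) (by fun_prop) (by simp)
    have hS : ∀ᶠ t in 𝓝 t0, 0 < y * (aq ^ 2 / (1 + aq * (t - t0))) + c * (σ ^ 2 / (1 + σ * (t - t0)))
        - x1 * (a1 ^ 2 / (1 + a1 * (t - t0))) - x2 * (a2 ^ 2 / (1 + a2 * (t - t0))) := by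
      have : ContinuousAt (fun t : ℝ => y * (aq ^ 2 / (1 + aq * (t - t0)))
          + c * (σ ^ 2 / (1 + σ * (t - t0)))
          - x1 * (a1 ^ 2 / (1 + a1 * (t - t0))) - x2 * (a2 ^ 2 / (1 + a2 * (t - t0)))) t0 :=
        ((((cinv aq).const_mul y).add ((cinv σ).const_mul c)).sub ((cinv a1).const_mul x1)).sub
          ((cinv a2).const_mul x2)
      exact this.eventually (lt_mem_nhds (by simpa using hn))
    have hW : ∀ᶠ t in 𝓝 t0, 0 < 1 / u1 t + 1 / u2 t - 1 / (L * (1 + σ * (t - t0))) := by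
      have : ContinuousAt (fun t : ℝ => 1 / u1 t + 1 / u2 t - 1 / (L * (1 + σ * (t - t0)))) t0 := by
        refine ((ContinuousAt.div (by fun_prop) c1.continuousAt p1.ne').add
          (ContinuousAt.div (by fun_prop) c2.continuousAt p2.ne')).sub
          (ContinuousAt.div (by fun_prop) (by fun_prop) (by simp [hL.ne']))
      exact this.eventually (lt_mem_nhds (by
        simp only [sub_self, mul_zero, add_zero, mul_one]; exact hy))
    filter_upwards [pos aq, pos σ, pos a1, pos a2, hS, hW] with t q0 q1 q2 q3 q4 q5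
    set h := t - t0 with hh
    have e0 : (1 - aq * t0) / y + aq / y * t = (1 + aq * h) / y := by
      rw [hh]; field_simp; ring
    rw [e0, le_one_div (by positivity) q5]
    have f1 : 1 / u1 t ≤ x1 * (1 / (1 + a1 * h)) := by
      have : u1 t0 * (1 + a1 * h) ≤ u1 t := by
        have e : u1 t0 * (1 + a1 * h) = u1 t0 + s1 * h := by rw [ha1]; field_simp
        rw [e]; exact h1 t
      calc 1 / u1 t ≤ 1 / (u1 t0 * (1 + a1 * h)) :=
            one_div_le_one_div_of_le (by positivity) this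
        _ = x1 * (1 / (1 + a1 * h)) := by rw [hx1]; field_simp
    have f2 : 1 / u2 t ≤ x2 * (1 / (1 + a2 * h)) := by
      have : u2 t0 * (1 + a2 * h) ≤ u2 t := by
        have e : u2 t0 * (1 + a2 * h) = u2 t0 + s2 * h := by rw [ha2]; field_simp
        rw [e]; exact h2 t
      calc 1 / u2 t ≤ 1 / (u2 t0 * (1 + a2 * h)) :=
            one_div_le_one_div_of_le (by positivity) this
        _ = x2 * (1 / (1 + a2 * h)) := by rw [hx2]; field_simp
    have f3 : 1 / (L * (1 + σ * h)) = c * (1 / (1 + σ * h)) := by rw [hcc]; field_simp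
    have f4 : 1 / ((1 + aq * h) / y) = y * (1 / (1 + aq * h)) := by field_simp
    rw [f3, f4, inv_expand aq h q0.ne', inv_expand σ h q1.ne']
    rw [inv_expand a1 h q2.ne'] at f1
    rw [inv_expand a2 h q3.ne'] at f2
    have g0 := mul_nonneg (sq_nonneg h) q4.le
    have g1 : aq * y * h = (a1 * x1 + a2 * x2 - σ * c) * h := by rw [haq']
    have g2 : y = x1 + x2 - c := hyy
    nlinarith

end Pool.Agent.H758Z.Sec
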