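import Pool.Agent.H758Z.SecA

open Set Topology Filter

namespace Pool.Agent.H758Z.Sec

structure Hyp (u1 u2 : ℝ → ℝ) : Prop where
  c1 : Continuous u1
  c2 : Continuous u2
  p1 : ∀ t, 0 < u1 t
  p2 : ∀ t, 0 < u2 t
  s1 : ∀ t0, ∃ s, ∀ t, u1 t0 + s * (t - t0) ≤ u1 t
  s2 : ∀ t0, ∃ s, ∀ t, u2 t0 + s * (t - t0) ≤ u2 t
  b1 : ∀ t, |t| ≤ 1 / 2 → |u1 t - 9 / 10| ≤ 1 / 100000
  b2 : ∀ t, |t| ≤ 1 / 2 → |u2 t - max 1 (9 / 10 + 2 / 5 * |t|)| ≤ 1 / 100000

lemma Hyp.neg {u1 u2 : ℝ → ℝ} (H : Hyp u1 u2) : Hyp (fun t => u1 (-t)) (fun t => u2 (-t)) where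
  c1 := H.c1.comp continuous_neg
  c2 := H.c2.comp continuous_neg
  p1 := fun t => H.p1 _
  p2 := fun t => H.p2 _
  s1 := fun t0 => by
    obtain ⟨s, hs⟩ := H.s1 (-t0)
    exact ⟨-s, fun t => by have := hs (-t); linarith⟩
  s2 := fun t0 => by
    obtain ⟨s, hs⟩ := H.s2 (-t0)
    exact ⟨-s, fun t => by have := hs (-t); linarith⟩
  b1 := fun t ht => H.b1 (-t) (by rwa [abs_neg])
  b2 := fun t ht => by have := H.b2 (-t) (by rwa [abs_neg]); rwa [abs_neg] at this

lemma Hyp.u1_bd {u1 u2 : ℝ → ℝ} (H : Hyp u1 u2) {t : ℝ} (h1 : -(1 / 2) ≤ t) (h2 : t ≤ 1 / 2) :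
    9 / 10 - 1 / 100000 ≤ u1 t ∧ u1 t ≤ 9 / 10 + 1 / 100000 := by
  have := abs_le.mp (H.b1 t (abs_le.mpr ⟨h1, h2⟩))
  constructor <;> linarith [this.1, this.2]

lemma Hyp.u2_mid {u1 u2 : ℝ → ℝ} (H : Hyp u1 u2) {t : ℝ} (h1 : -(1 / 4) ≤ t) (h2 : t ≤ 1 / 4) :
    1 - 1 / 100000 ≤ u2 t ∧ u2 t ≤ 1 + 1 / 100000 := by
  have := abs_le.mp (H.b2 t (abs_le.mpr ⟨by linarith, by linarith⟩))
  have h3 : |t| ≤ 1 / 4 := abs_le.mpr ⟨h1, h2⟩
  rw [max_eq_left (by linarith)] at this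
  constructor <;> linarith [this.1, this.2]

lemma Hyp.u2_low {u1 u2 : ℝ → ℝ} (H : Hyp u1 u2) {t : ℝ} (h1 : -(1 / 2) ≤ t) (h2 : t ≤ 1 / 2) :
    1 - 1 / 100000 ≤ u2 t ∧ 9 / 10 - 2 / 5 * t - 1 / 100000 ≤ u2 t ∧
      u2 t ≤ 11 / 10 + 1 / 100000 := by
  have := abs_le.mp (H.b2 t (abs_le.mpr ⟨h1, h2⟩))
  have h3 := le_max_left 1 (9 / 10 + 2 / 5 * |t|)
  have h4 := le_max_right 1 (9 / 10 + 2 / 5 * |t|)
  have h5 := neg_abs_le t
  have h6 : |t| ≤ 1 / 2 := abs_le.mpr ⟨h1, h2⟩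
  have h7 : max 1 (9 / 10 + 2 / 5 * |t|) ≤ 11 / 10 := max_le (by norm_num) (by linarith)
  refine ⟨?_, ?_, ?_⟩ <;> linarith [this.1, this.2]

lemma line_facts {u1 u2 : ℝ → ℝ} (H : Hyp u1 u2) {s θ β : ℝ} (hs1 : 1 / 5 ≤ s) (hs2 : s ≤ 11 / 50)
    (hθ1 : -(1 / 2) ≤ θ) (hθ2 : θ ≤ 1 / 2)
    (hmin : ∀ t, -(1 / 2) ≤ t → t ≤ 1 / 2 → β - s * t ≤ u2 t) (heq : β - s * θ = u2 θ) :
    1 - s / 4 - 1 / 100000 ≤ β ∧ β ≤ 1 - s / 4 + 1 / 100000 ∧ -(26 / 100) ≤ θ ∧ θ ≤ -(24 / 100) := by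
  have a1 := hmin (-(1 / 4)) (by norm_num) (by norm_num)
  have a2 := (H.u2_mid (t := -(1 / 4)) le_rfl (by norm_num)).2
  obtain ⟨a3, a4, -⟩ := H.u2_low hθ1 hθ2
  have b : β ≤ 1 - s / 4 + 1 / 100000 := by linarith
  refine ⟨?_, b, ?_, ?_⟩
  · rcases le_total θ (-(1 / 4)) with h | h
    · nlinarith
    · nlinarith
  · by_contra h
    push Not at h
    nlinarith
  · by_contra h
    push Not at h
    nlinarith

lemma half {u1 u2 : ℝ → ℝ} (H : Hyp u1 u2) {s θ β : ℝ} (hs1 : 1 / 5 ≤ s) (hs2 : s ≤ 11 / 50)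
    (hθ1 : -(1 / 2) ≤ θ) (hθ2 : θ ≤ 1 / 2)
    (hmin : ∀ t, -(1 / 2) ≤ t → t ≤ 1 / 2 → β - s * t ≤ u2 t) (heq : β - s * θ = u2 θ) :
    ∃ a w : ℝ → ℝ, ContinuousOn a (Iic (1 / 8)) ∧ ContinuousOn w (Iic (1 / 8)) ∧
      (∀ t ≤ 1 / 8, 0 < a t) ∧ (∀ t ≤ 1 / 8, 0 < w t) ∧
      (∀ t < 1 / 8, LocSupp a t) ∧ (∀ t < 1 / 8, LocSupp w t) ∧
      (∀ t ≤ 1 / 8, 1 / w t + 1 / a t = 1 / u1 t + 1 / u2 t) ∧
      (∀ t ≤ -(1 / 3), a t = u2 t ∧ w t = u1 t) ∧
      (∀ t, -(1 / 8) ≤ t → a t = β - s * t) := by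
  obtain ⟨hβ1, hβ2, hθ3, hθ4⟩ := line_facts H hs1 hs2 hθ1 hθ2 hmin heq
  set a : ℝ → ℝ := fun t => if t ≤ θ then u2 t else β - s * t with ha
  have ha1 : ∀ t, t ≤ θ → a t = u2 t := fun t ht => by simp only [ha, if_pos ht]
  have ha2 : ∀ t, θ ≤ t → a t = β - s * t := fun t ht => by
    rcases ht.eq_or_lt with h | h
    · rw [← h, ha1 θ le_rfl, heq]
    · simp only [ha, if_neg (not_le.mpr h)]
  have hac : Continuous a := by
    refine Continuous.if_le H.c2 (by fun_prop) continuous_id continuous_const ?_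
    intro t ht
    have ht' : t = θ := ht
    rw [ht', heq]
  have hal : ∀ t, θ ≤ t → t ≤ 1 / 4 → 88 / 100 ≤ β - s * t ∧ β - s * t ≤ 102 / 100 := by
    intro t h1 h2
    constructor <;> nlinarith
  have hap : ∀ t ≤ 1 / 4, 0 < a t := by
    intro t ht
    rcases le_total t θ with h | h
    · rw [ha1 t h]; exact H.p2 t
    · rw [ha2 t h]; linarith [(hal t h ht).1]
  have hau : ∀ t ≤ 1 / 2, a t ≤ u2 t := by
    intro t ht
    rcases le_total t θ with h | h
    · rw [ha1 t h]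
    · rw [ha2 t h]; exact hmin t (by linarith) ht
  have hD : ∀ t ≤ 1 / 4, 0 < 1 / u1 t + 1 / u2 t - 1 / a t := by
    intro t ht
    rcases le_total t θ with h | h
    · rw [ha1 t h]; have := H.p1 t; simp [this]
    · rw [ha2 t h]
      have e1 := (hal t h ht).1
      have e2 := (H.u1_bd (t := t) (by linarith) (by linarith)).2
      have e3 := (H.u2_low (t := t) (by linarith) (by linarith)).2.2
      have f1 : 1 / (β - s * t) ≤ 1 / (88 / 100) := one_div_le_one_div_of_le (by norm_num) e1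
      have f2 : 1 / (9 / 10 + 1 / 100000) ≤ 1 / u1 t := one_div_le_one_div_of_le (H.p1 t) e2
      have f3 : 1 / (11 / 10 + 1 / 100000) ≤ 1 / u2 t := one_div_le_one_div_of_le (H.p2 t) e3
      norm_num at f1 f2 f3 ⊢
      linarith
  set w : ℝ → ℝ := fun t => 1 / (1 / u1 t + 1 / u2 t - 1 / a t) with hw
  refine ⟨a, w, hac.continuousOn, ?_, fun t ht => hap t (by linarith), ?_, ?_, ?_, ?_, ?_, ?_⟩
  · refine ContinuousOn.div continuousOn_const ?_ fun t ht => (hD t (by
      have : t ≤ 1 / 8 := ht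
      linarith)).ne'
    refine ((ContinuousOn.div continuousOn_const H.c1.continuousOn fun t _ => (H.p1 t).ne').add
      (ContinuousOn.div continuousOn_const H.c2.continuousOn fun t _ => (H.p2 t).ne')).sub
      (ContinuousOn.div continuousOn_const hac.continuousOn fun t ht => (hap t (by
      have : t ≤ 1 / 8 := ht
      linarith)).ne')
  · intro t ht
    exact one_div_pos.mpr (hD t (by linarith))
  · intro t ht
    rcases lt_or_ge t θ with h | h
    · obtain ⟨s2, hs⟩ := H.s2 t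
      refine ⟨u2 t - s2 * t, s2, by rw [ha1 t h.le]; ring, ?_⟩
      filter_upwards [Iio_mem_nhds h] with t' ht'
      rw [ha1 t' (le_of_lt ht')]
      have := hs t'
      linarith
    · refine ⟨β, -s, by rw [ha2 t h]; ring, ?_⟩
      filter_upwards [Ioi_mem_nhds (show -(1 / 2) < t by linarith)] with t' ht'
      rcases le_total t' θ with h' | h'
      · rw [ha1 t' h']
        have := hmin t' (le_of_lt ht') (by linarith)
        linarith
      · rw [ha2 t' h']; linarith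
  · intro t ht
    by_cases hat : a t = u2 t
    · obtain ⟨s1, hs⟩ := H.s1 t
      refine ⟨u1 t - s1 * t, s1, ?_, ?_⟩
      · simp only [hw, hat]
        have := (H.p1 t).ne'
        field_simp
        ring
      · filter_upwards [Iio_mem_nhds (show t < 1 / 4 by linarith)] with t' ht'
        have ht'' : t' < 1 / 4 := ht'
        have e1 := hs t'
        have e2 : 1 / u2 t' ≤ 1 / a t' :=
          one_div_le_one_div_of_le (hap t' ht''.le) (hau t' (by linarith))
        have e3 : u1 t' ≤ w t' := by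
          simp only [hw]
          rw [le_one_div (H.p1 t') (hD t' ht''.le)]
          linarith
        linarith
    · have hθt : θ < t := by
        by_contra h
        exact hat (ha1 t (not_lt.mp h))
      obtain ⟨s1, h1⟩ := H.s1 t
      obtain ⟨s2, h2⟩ := H.s2 t
      have hL := hal t hθt.le (by linarith)
      set L := β - s * t with hLL
      have hLp : 0 < L := by linarith [hL.1]
      have hLa : a t = L := ha2 t hθt.le
      have hLu : L < u2 t := by
        rw [← hLa]; exact lt_of_le_of_ne (hau t (by linarith)) hat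
      have hs12 : -s < s2 := by
        have e := h2 θ
        have : L + s2 * (θ - t) < L + s * (t - θ) := by
          have : u2 θ = L + s * (t - θ) := by rw [← heq, hLL]; ring
          linarith
        by_contra h
        push Not at h
        nlinarith
      have u1b := H.u1_bd (t := t) (by linarith) (by linarith)
      have u2b := H.u2_low (t := t) (by linarith) (by linarith)
      have hA : -s / L < s2 / u2 t := by
        rw [div_lt_div_iff₀ hLp (H.p2 t)]
        rcases le_total 0 s2 with h | h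
        · nlinarith [H.p2 t]
        · nlinarith
      have hs1b : -(1 / 10000) ≤ s1 := by
        have e := h1 (-(1 / 2))
        have e' := (H.u1_bd (t := -(1 / 2)) le_rfl (by norm_num)).2
        by_contra h
        push Not at h
        nlinarith [u1b.1]
      have hs2b : s2 ≤ 1 / 5000 := by
        have e := h2 (1 / 4)
        have e' := (H.u2_mid (t := 1 / 4) (by norm_num) le_rfl).2
        by_contra h
        push Not at h
        nlinarith [u2b.1]
      have hB : s2 / u2 t - -s / L ≤ 2 * (s1 / u1 t - -s / L) := by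
        have k1 : s2 / u2 t ≤ 1 / 1000 := by
          rw [div_le_iff₀ (H.p2 t)]; linarith [u2b.1]
        have k2 : -(1 / 1000) ≤ s1 / u1 t := by
          rw [le_div_iff₀ (H.p1 t)]; linarith [u1b.1]
        have k3 : -s / L ≤ -(1 / 10) := by
          rw [div_le_iff₀ hLp]; linarith [hL.2]
        linarith
      have hy : 0 < 1 / u1 t + 1 / u2 t - 1 / L := by
        rw [← hLa]; exact hD t (by linarith)
      refine (slave H.c1 H.c2 (H.p1 t) (H.p2 t) hLp h1 h2 hLu.le hy hA hB).congr ?_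
      filter_upwards [Ioi_mem_nhds hθt] with t' ht'
      have : L * (1 + -s / L * (t' - t)) = a t' := by
        rw [ha2 t' (le_of_lt ht')]
        field_simp
        rw [hLL]; ring
      simp only [hw, this]
  · intro t ht
    simp only [hw, one_div_one_div]
    ring
  · intro t ht
    have : a t = u2 t := ha1 t (by linarith)
    refine ⟨this, ?_⟩
    simp only [hw, this]
    simp
  · intro t ht
    exact ha2 t (by linarith)

end Pool.Agent.H758Z.Sec
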