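import Pool.Agent.H758Z.SecB

open Set Topology Filter

namespace Pool.Agent.H758Z.Sec

noncomputable def bet (u : ℝ → ℝ) (s : ℝ) : ℝ :=
  sInf ((fun t => u t + s * t) '' Icc (-(1 / 2)) (1 / 2))

lemma bet_cont {u : ℝ → ℝ} (hu : Continuous u) : Continuous (bet u) := by
  refine IsCompact.continuous_sInf (f := fun s t => u t + s * t) isCompact_Icc ?_
  exact (hu.comp continuous_snd).add (continuous_fst.mul continuous_snd)

lemma bet_spec {u : ℝ → ℝ} (hu : Continuous u) (s : ℝ) :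
    ∃ θ, -(1 / 2) ≤ θ ∧ θ ≤ 1 / 2 ∧
      (∀ t, -(1 / 2) ≤ t → t ≤ 1 / 2 → bet u s - s * t ≤ u t) ∧ bet u s - s * θ = u θ := by
  obtain ⟨θ, hθ, h1, h2⟩ := isCompact_Icc.exists_sInf_image_eq_and_le
    (s := Icc (-(1 / 2) : ℝ) (1 / 2)) ⟨0, by norm_num, by norm_num⟩
    (f := fun t => u t + s * t) (by fun_prop)
  refine ⟨θ, hθ.1, hθ.2, fun t a b => ?_, ?_⟩
  · have := h2 t ⟨a, b⟩
    unfold bet
    rw [h1]
    linarith
  · unfold bet
    rw [h1]
    ring

lemma harm {A B : ℝ} (hA : 0 < A) (hB : 0 < B) : 4 / (A + B) ≤ 1 / A + 1 / B := by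
  rw [div_add_div _ _ hA.ne' hB.ne', div_le_div_iff₀ (by positivity) (by positivity)]
  nlinarith [sq_nonneg (A - B)]

lemma exists_lines {u1 u2 : ℝ → ℝ} (H : Hyp u1 u2) :
    ∃ s, 1 / 5 ≤ s ∧ s ≤ 11 / 50 ∧ ∃ b, -(1 / 8) < b ∧ b < 1 / 8 ∧
      1 / (bet u2 s - s * b) + 1 / (bet (fun t => u2 (-t)) s + s * b) = 1 / u1 b + 1 / u2 b ∧
      ∀ t, -(1 / 8) ≤ t → t ≤ 1 / 8 → 1 / u1 t + 1 / u2 t ≤
        1 / (bet u2 s - s * t) + 1 / (bet (fun t => u2 (-t)) s + s * t) := by
  set β := bet u2 with hβ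
  set β' := bet (fun t => u2 (-t)) with hβ'
  have hb : ∀ s, 1 / 5 ≤ s → s ≤ 11 / 50 →
      1 - s / 4 - 1 / 100000 ≤ β s ∧ β s ≤ 1 - s / 4 + 1 / 100000 := by
    intro s h1 h2
    obtain ⟨θ, a, b, c, d⟩ := bet_spec H.c2 s
    have := line_facts H h1 h2 a b c d
    exact ⟨this.1, this.2.1⟩
  have hb' : ∀ s, 1 / 5 ≤ s → s ≤ 11 / 50 →
      1 - s / 4 - 1 / 100000 ≤ β' s ∧ β' s ≤ 1 - s / 4 + 1 / 100000 := by
    intro s h1 h2
    obtain ⟨θ, a, b, c, d⟩ := bet_spec H.neg.c2 s
    have := line_facts H.neg h1 h2 a b c d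
    exact ⟨this.1, this.2.1⟩
  have cβ : Continuous β := bet_cont H.c2
  have cβ' : Continuous β' := bet_cont H.neg.c2
  set Z : ℝ → ℝ → ℝ := fun s t => 1 / max (β s - s * t) (1 / 2) + 1 / max (β' s + s * t) (1 / 2)
    - (1 / u1 t + 1 / u2 t) with hZ
  have cZ : Continuous (Function.uncurry Z) := by
    refine ((Continuous.div continuous_const ?_ fun p => ?_).add
      (Continuous.div continuous_const ?_ fun p => ?_)).sub
      ((Continuous.div continuous_const (H.c1.comp continuous_snd) fun p => (H.p1 _).ne').add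
      (Continuous.div continuous_const (H.c2.comp continuous_snd) fun p => (H.p2 _).ne'))
    · exact ((cβ.comp continuous_fst).sub (continuous_fst.mul continuous_snd)).max
        continuous_const
    · exact (lt_of_lt_of_le (by norm_num) (le_max_right _ _)).ne'
    · exact ((cβ'.comp continuous_fst).add (continuous_fst.mul continuous_snd)).max
        continuous_const
    · exact (lt_of_lt_of_le (by norm_num) (le_max_right _ _)).ne'
  have hZe : ∀ s, 1 / 5 ≤ s → s ≤ 11 / 50 → ∀ t, -(1 / 8) ≤ t → t ≤ 1 / 8 →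
      Z s t = 1 / (β s - s * t) + 1 / (β' s + s * t) - (1 / u1 t + 1 / u2 t) ∧
        0 < β s - s * t ∧ 0 < β' s + s * t := by
    intro s h1 h2 t h3 h4
    have e1 : 1 / 2 ≤ β s - s * t := by nlinarith [(hb s h1 h2).1]
    have e2 : 1 / 2 ≤ β' s + s * t := by nlinarith [(hb' s h1 h2).1]
    refine ⟨?_, by linarith, by linarith⟩
    simp only [hZ, max_eq_left e1, max_eq_left e2]
  have hX : ∀ t, -(1 / 8) ≤ t → t ≤ 1 / 8 →
      21110 / 10000 ≤ 1 / u1 t + 1 / u2 t ∧ 1 / u1 t + 1 / u2 t ≤ 21112 / 10000 := by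
    intro t h3 h4
    obtain ⟨a1, a2⟩ := H.u1_bd (t := t) (by linarith) (by linarith)
    obtain ⟨a3, a4⟩ := H.u2_mid (t := t) (by linarith) (by linarith)
    have f1 := one_div_le_one_div_of_le (H.p1 t) a2
    have f2 := one_div_le_one_div_of_le (H.p2 t) a4
    have f3 := one_div_le_one_div_of_le (by norm_num) a1
    have f4 := one_div_le_one_div_of_le (by norm_num) a3
    norm_num at f1 f2 f3 f4 ⊢
    constructor <;> linarith
  set z : ℝ → ℝ := fun s => sInf (Z s '' Icc (-(1 / 8)) (1 / 8)) with hz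
  have cz : Continuous z := IsCompact.continuous_sInf isCompact_Icc cZ
  have hzs : ∀ s, ∃ b ∈ Icc (-(1 / 8) : ℝ) (1 / 8), z s = Z s b ∧
      ∀ t ∈ Icc (-(1 / 8) : ℝ) (1 / 8), Z s b ≤ Z s t := fun s =>
    isCompact_Icc.exists_sInf_image_eq_and_le ⟨0, by norm_num, by norm_num⟩
      (cZ.comp (Continuous.prodMk_right s)).continuousOn
  have z1 : z (1 / 5) ≤ 0 := by
    obtain ⟨b, hb0, e1, e2⟩ := hzs (1 / 5)
    have e3 := e2 0 ⟨by norm_num, by norm_num⟩
    rw [e1]
    refine e3.trans ?_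
    rw [(hZe (1 / 5) le_rfl (by norm_num) 0 (by norm_num) (by norm_num)).1]
    have k1 := (hb (1 / 5) le_rfl (by norm_num)).1
    have k2 := (hb' (1 / 5) le_rfl (by norm_num)).1
    have f1 := one_div_le_one_div_of_le (by norm_num) k1
    have f2 := one_div_le_one_div_of_le (by norm_num) k2
    have f3 := (hX 0 (by norm_num) (by norm_num)).1
    simp only [mul_zero, sub_zero, add_zero]
    norm_num at f1 f2 f3 ⊢
    linarith
  have z2 : 0 ≤ z (11 / 50) := by
    obtain ⟨b, hb0, e1, -⟩ := hzs (11 / 50)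
    obtain ⟨g1, g2, g3⟩ := hZe (11 / 50) (by norm_num) le_rfl b hb0.1 hb0.2
    rw [e1, g1]
    have k1 := (hb (11 / 50) (by norm_num) le_rfl).2
    have k2 := (hb' (11 / 50) (by norm_num) le_rfl).2
    have f1 := harm g2 g3
    have f2 : 4 / (2 * (1 - 11 / 50 / 4 + 1 / 100000)) ≤
        4 / (β (11 / 50) - 11 / 50 * b + (β' (11 / 50) + 11 / 50 * b)) :=
      div_le_div_of_nonneg_left (by norm_num) (by linarith) (by linarith)
    have f3 := (hX b hb0.1 hb0.2).2
    have f4 : (21112 / 10000 : ℝ) ≤ 4 / (2 * (1 - 11 / 50 / 4 + 1 / 100000)) := by norm_num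
    linarith
  obtain ⟨s, hs, hzs0⟩ := intermediate_value_Icc (show (1 / 5 : ℝ) ≤ 11 / 50 by norm_num)
    cz.continuousOn ⟨z1, z2⟩
  obtain ⟨b, hb0, e1, e2⟩ := hzs s
  have k1 := hb s hs.1 hs.2
  have k2 := hb' s hs.1 hs.2
  have hs1 := hs.1
  have hs2 := hs.2
  have key : ∀ A B : ℝ, 1 - s / 4 - 1 / 100000 ≤ A → A ≤ 1 - s / 4 + 1 / 100000 →
      1 - s / 4 - 1 / 100000 ≤ B → B ≤ 1 - s / 4 + 1 / 100000 →
      1 / A + 1 / B + 1 / 1000 ≤ 1 / (A - s / 8) + 1 / (B + s / 8) := by
    intro A B a1 a2 b1 b2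
    have pA : 0 < A := by linarith
    have pB : 0 < B := by linarith
    have pA' : 0 < A - s / 8 := by linarith
    have pB' : 0 < B + s / 8 := by linarith
    have e : 1 / (A - s / 8) + 1 / (B + s / 8) - (1 / A + 1 / B) =
        (s / 8) * (B * (B + s / 8) - A * (A - s / 8)) / (A * (A - s / 8) * (B * (B + s / 8))) := by
      have gen : ∀ A B C D e : ℝ, A ≠ 0 → B ≠ 0 → C ≠ 0 → D ≠ 0 → C = A - e → D = B + e →
          1 / C + 1 / D - (1 / A + 1 / B) = e * (B * D - A * C) / (A * C * (B * D)) := by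
        intro A B C D e h1 h2 h3 h4 h5 h6
        field_simp
        rw [h5, h6]
        ring
      exact gen A B _ _ _ pA.ne' pB.ne' pA'.ne' pB'.ne' rfl rfl
    have n1 : 47 / 1000 ≤ B * (B + s / 8) - A * (A - s / 8) := by nlinarith
    have d1 : A * (A - s / 8) ≤ 1 := by nlinarith
    have d2 : B * (B + s / 8) ≤ 1 := by nlinarith
    have d3 : A * (A - s / 8) * (B * (B + s / 8)) ≤ 1 := by
      have := mul_le_mul d1 d2 (by positivity) zero_le_one
      linarith
    have : 1 / 1000 ≤ (s / 8) * (B * (B + s / 8) - A * (A - s / 8)) /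
        (A * (A - s / 8) * (B * (B + s / 8))) := by
      rw [le_div_iff₀ (by positivity)]
      nlinarith
    linarith
  have e0 := e2 0 ⟨by norm_num, by norm_num⟩
  rw [(hZe s hs1 hs2 0 (by norm_num) (by norm_num)).1] at e0
  simp only [mul_zero, sub_zero, add_zero] at e0
  have x0 := hX 0 (by norm_num) (by norm_num)
  have eb := (hZe s hs1 hs2 b hb0.1 hb0.2).1
  have xb := hX b hb0.1 hb0.2
  refine ⟨s, hs1, hs2, b, ?_, ?_, ?_, ?_⟩
  · refine lt_of_le_of_ne hb0.1 fun h => ?_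
    have := key (β' s) (β s) k2.1 k2.2 k1.1 k1.2
    have r1 : β s - s * b = β s + s / 8 := by rw [← h]; ring
    have r2 : β' s + s * b = β' s - s / 8 := by rw [← h]; ring
    rw [r1, r2] at eb
    linarith [x0.1, xb.2]
  · refine lt_of_le_of_ne hb0.2 fun h => ?_
    have := key (β s) (β' s) k1.1 k1.2 k2.1 k2.2
    have r1 : β s - s * b = β s - s / 8 := by rw [h]; ring
    have r2 : β' s + s * b = β' s + s / 8 := by rw [h]; ring
    rw [r1, r2] at eb
    linarith [x0.1, xb.2]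
  · linarith
  · intro t h3 h4
    have := e2 t ⟨h3, h4⟩
    rw [(hZe s hs1 hs2 t h3 h4).1] at this
    linarith

theorem swap {u1 u2 : ℝ → ℝ} (H : Hyp u1 u2) :
    ∃ v1 v2 : ℝ → ℝ, Continuous v1 ∧ Continuous v2 ∧ (∀ t, 0 < v1 t) ∧ (∀ t, 0 < v2 t) ∧
      (∀ t, LocSupp v1 t) ∧ (∀ t, LocSupp v2 t) ∧
      (∀ t, 1 / v1 t + 1 / v2 t = 1 / u1 t + 1 / u2 t) ∧
      (∀ t ≤ -(1 / 3), v1 t = u1 t ∧ v2 t = u2 t) ∧
      (∀ t, 1 / 3 ≤ t → v1 t = u2 t ∧ v2 t = u1 t) := by
  obtain ⟨s, hs1, hs2, b, hb1, hb2, hb3, hb4⟩ := exists_lines H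
  obtain ⟨θ, t1, t2, t3, t4⟩ := bet_spec H.c2 s
  obtain ⟨θ', t1', t2', t3', t4'⟩ := bet_spec H.neg.c2 s
  obtain ⟨a, w, ca, cw, pa, pw, la, lw, sa, ea, fa⟩ := half H hs1 hs2 t1 t2 t3 t4
  obtain ⟨a', w', ca', cw', pa', pw', la', lw', sa', ea', fa'⟩ := half H.neg hs1 hs2 t1' t2' t3' t4'
  set β := bet u2 s
  set β' := bet (fun t => u2 (-t)) s
  have fa'' : ∀ t, t ≤ 1 / 8 → a' (-t) = β' + s * t := fun t ht => by
    rw [fa' (-t) (by linarith)]; ring
  have sa'' : ∀ t, -(1 / 8) ≤ t → 1 / w' (-t) + 1 / a' (-t) = 1 / u1 t + 1 / u2 t := fun t ht => by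
    have := sa' (-t) (by linarith)
    simpa only [neg_neg] using this
  have j1 : w b = a' (-b) := by
    have e1 := sa b hb2.le
    rw [fa b hb1.le] at e1
    rw [fa'' b hb2.le]
    have : 1 / w b = 1 / (β' + s * b) := by linarith
    simpa only [one_div, inv_inj] using this
  have j2 : a b = w' (-b) := by
    have e1 := sa'' b hb1.le
    rw [fa'' b hb2.le] at e1
    rw [fa b hb1.le]
    have : 1 / (β - s * b) = 1 / w' (-b) := by linarith
    simpa only [one_div, inv_inj] using this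
  have cn : ∀ f : ℝ → ℝ, ContinuousOn f (Iic (1 / 8)) →
      ContinuousOn (fun t => f (-t)) {x | b ≤ x} := fun f hf =>
    hf.comp continuous_neg.continuousOn fun x hx => by
      have : b ≤ x := hx
      show -x ≤ 1 / 8
      linarith
  have cm : ∀ f : ℝ → ℝ, ContinuousOn f (Iic (1 / 8)) → ContinuousOn f {x | x ≤ b} := fun f hf =>
    hf.mono fun x hx => by
      have : x ≤ b := hx
      show x ≤ 1 / 8
      linarith
  have nb : Ioo (-(1 / 8) : ℝ) (1 / 8) ∈ 𝓝 b := Ioo_mem_nhds hb1 hb2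
  refine ⟨fun t => if t ≤ b then w t else a' (-t), fun t => if t ≤ b then a t else w' (-t),
    ?_, ?_, ?_, ?_, ?_, ?_, ?_, ?_, ?_⟩
  · refine continuous_if_le continuous_id continuous_const (cm w cw) (cn a' ca') ?_
    intro x hx
    have : x = b := hx
    rw [this, j1]
  · refine continuous_if_le continuous_id continuous_const (cm a ca) (cn w' cw') ?_
    intro x hx
    have : x = b := hx
    rw [this, j2]
  · intro t
    beta_reduce
    split_ifs with h
    · exact pw t (by linarith)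
    · exact pa' _ (by linarith [not_le.mp h])
  · intro t
    beta_reduce
    split_ifs with h
    · exact pa t (by linarith)
    · exact pw' _ (by linarith [not_le.mp h])
  · intro t
    rcases lt_trichotomy t b with h | h | h
    · refine (lw t (by linarith)).congr ?_
      filter_upwards [Iio_mem_nhds h] with t' ht'
      rw [if_pos (le_of_lt ht')]
    · subst h
      refine ⟨β', s, by simp only [le_refl, if_true]; rw [j1, fa'' t hb2.le], ?_⟩
      filter_upwards [nb] with t' ht'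
      split_ifs with h'
      · have e1 := sa t' ht'.2.le
        have e2 := hb4 t' ht'.1.le ht'.2.le
        rw [fa t' ht'.1.le] at e1
        have p1 := pa' (-t') (by linarith [ht'.1])
        rw [fa'' t' ht'.2.le] at p1
        exact le_of_one_div_le_one_div (pw t' ht'.2.le) (by linarith)
      · rw [fa'' t' ht'.2.le]
    · refine (LocSupp.neg (la' (-t) (by linarith))).congr ?_
      filter_upwards [Ioi_mem_nhds h] with t' ht'
      rw [if_neg (not_le.mpr ht')]
  · intro t
    rcases lt_trichotomy t b with h | h | h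
    · refine (la t (by linarith)).congr ?_
      filter_upwards [Iio_mem_nhds h] with t' ht'
      rw [if_pos (le_of_lt ht')]
    · subst h
      refine ⟨β, -s, by simp only [le_refl, if_true]; rw [fa t hb1.le]; ring, ?_⟩
      filter_upwards [nb] with t' ht'
      split_ifs with h'
      · rw [fa t' ht'.1.le]; linarith
      · have e1 := sa'' t' ht'.1.le
        have e2 := hb4 t' ht'.1.le ht'.2.le
        rw [fa'' t' ht'.2.le] at e1
        have : β - s * t' ≤ w' (-t') :=
          le_of_one_div_le_one_div (pw' (-t') (by linarith [ht'.1])) (by linarith)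
        linarith
    · refine (LocSupp.neg (lw' (-t) (by linarith))).congr ?_
      filter_upwards [Ioi_mem_nhds h] with t' ht'
      rw [if_neg (not_le.mpr ht')]
  · intro t
    beta_reduce
    split_ifs with h
    · exact sa t (by linarith)
    · have := sa'' t (by linarith [not_le.mp h])
      linarith
  · intro t ht
    have h : t ≤ b := by linarith
    simp only [if_pos h]
    exact ⟨(ea t ht).2, (ea t ht).1⟩
  · intro t ht
    have h : ¬ t ≤ b := by linarith
    simp only [if_neg h]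
    have := ea' (-t) (by linarith)
    simpa only [neg_neg] using this

end Pool.Agent.H758Z.Sec
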