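import Pool.Agent.H758Z.SecC

open Set Topology Filter

namespace Pool.Agent.H758Z.Sec

def Box (x y r : ℝ) : Prop :=
  9 / 10 * x ≤ r ∧ 9 / 10 * y ≤ r ∧ -x ≤ r ∧ -y ≤ r ∧ -(9 / 10) * x + 2 / 5 * y ≤ r ∧
    -(9 / 10) * x - 2 / 5 * y ≤ r ∧ -(9 / 10) * y + 2 / 5 * x ≤ r ∧ -(9 / 10) * y - 2 / 5 * x ≤ r

lemma Box.swap {x y r : ℝ} (h : Box x y r) : Box y x r := by
  obtain ⟨a, b, c, d, e, f, g, i⟩ := h
  exact ⟨b, a, d, c, g, i, e, f⟩

structure G2 (g : ℝ → ℝ → ℝ) : Prop where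
  cont : Continuous (fun p : ℝ × ℝ => g p.1 p.2)
  hom : ∀ c x y, 0 < c → g (c * x) (c * y) = c * g x y
  pos : ∀ x y, (x ≠ 0 ∨ y ≠ 0) → 0 < g x y
  supp : ∀ x y, ∃ α β, g x y = α * x + β * y ∧ ∀ x' y', α * x' + β * y' ≤ g x' y'
  up : ∀ x y r, 0 < r → Box x y r → (1 - 1 / 1000000) * g x y ≤ r
  low : ∀ x y, (x ≠ 0 ∨ y ≠ 0) → Box x y ((1 + 1 / 1000000) * g x y)

lemma G2.swap {g : ℝ → ℝ → ℝ} (H : G2 g) : G2 (fun x y => g y x) where
  cont := H.cont.comp continuous_swap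
  hom := fun c x y hc => H.hom c y x hc
  pos := fun x y h => H.pos y x h.symm
  supp := fun x y => by
    obtain ⟨α, β, h1, h2⟩ := H.supp y x
    exact ⟨β, α, by rw [h1]; ring, fun x' y' => by have := h2 y' x'; linarith⟩
  up := fun x y r hr h => H.up y x r hr h.swap
  low := fun x y h => (H.low y x h.symm).swap

lemma G2.hyp {g : ℝ → ℝ → ℝ} (H : G2 g) : Hyp (fun t => g 1 t) (fun t => g (-1) (-t)) where
  c1 := H.cont.comp (Continuous.prodMk_right (1 : ℝ))
  c2 := H.cont.comp (f := fun t : ℝ => ((-1 : ℝ), -t)) (by fun_prop)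
  p1 := fun t => H.pos _ _ (Or.inl one_ne_zero)
  p2 := fun t => H.pos _ _ (Or.inl (by norm_num))
  s1 := fun t0 => by
    obtain ⟨α, β, h1, h2⟩ := H.supp 1 t0
    exact ⟨β, fun t => by have := h2 1 t; rw [h1]; linarith⟩
  s2 := fun t0 => by
    obtain ⟨α, β, h1, h2⟩ := H.supp (-1) (-t0)
    exact ⟨-β, fun t => by have := h2 (-1) (-t); rw [h1]; linarith⟩
  b1 := fun t ht => by
    obtain ⟨h1, h2⟩ := abs_le.mp ht
    have a := H.up 1 t (9 / 10) (by norm_num) (by
      refine ⟨?_, ?_, ?_, ?_, ?_, ?_, ?_, ?_⟩ <;> linarith)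
    have b := (H.low 1 t (Or.inl one_ne_zero)).1
    rw [abs_le]
    constructor <;> linarith
  b2 := fun t ht => by
    obtain ⟨h1, h2⟩ := abs_le.mp ht
    have m1 := le_max_left 1 (9 / 10 + 2 / 5 * |t|)
    have m2 := le_max_right 1 (9 / 10 + 2 / 5 * |t|)
    have m3 : max 1 (9 / 10 + 2 / 5 * |t|) ≤ 11 / 10 := max_le (by norm_num) (by linarith)
    have n1 := le_abs_self t
    have n2 := neg_abs_le t
    have a := H.up (-1) (-t) (max 1 (9 / 10 + 2 / 5 * |t|)) (by linarith) (by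
      refine ⟨?_, ?_, ?_, ?_, ?_, ?_, ?_, ?_⟩ <;> linarith)
    obtain ⟨-, -, b1, -, b2, b3, -, -⟩ := H.low (-1) (-t) (Or.inl (by norm_num))
    have b4 : max 1 (9 / 10 + 2 / 5 * |t|) ≤ (1 + 1 / 1000000) * g (-1) (-t) := by
      refine max_le (by linarith) ?_
      rcases abs_cases t with h | h <;> rw [h.1] <;> linarith
    rw [abs_le]
    constructor <;> linarith

structure Win (g V : ℝ → ℝ → ℝ) : Prop where
  zero : V 0 0 = 0
  neg : ∀ x y, x ≠ 0 → 1 / 3 ≤ y / x → V x y = g (-x) (-y)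
  same : ∀ x y, x ≠ 0 → y / x ≤ -(1 / 3) → V x y = g x y
  sum : ∀ x y, x ≠ 0 → 1 / V x y + 1 / V (-x) (-y) = 1 / g x y + 1 / g (-x) (-y)
  pos : ∀ x y, x ≠ 0 → 0 < V x y
  hom : ∀ c x y, 0 < c → V (c * x) (c * y) = c * V x y
  cont : ∀ x y, x ≠ 0 → ContinuousAt (fun p : ℝ × ℝ => V p.1 p.2) (x, y)
  supp : ∀ x y, x ≠ 0 → ∃ α β, V x y = α * x + β * y ∧
    ∀ᶠ p : ℝ × ℝ in 𝓝 (x, y), α * p.1 + β * p.2 ≤ V p.1 p.2

lemma exists_win {g : ℝ → ℝ → ℝ} (H : G2 g) : ∃ V, Win g V := by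
  obtain ⟨v1, v2, c1, c2, p1, p2, l1, l2, hs, e1, e2⟩ := swap H.hyp
  have gp : ∀ x y, 0 < x → x * g 1 (y / x) = g x y := fun x y hx => by
    rw [← H.hom x 1 (y / x) hx, mul_one, mul_div_cancel₀ _ hx.ne']
  have gp' : ∀ x y, 0 < x → x * g (-1) (-(y / x)) = g (-x) (-y) := fun x y hx => by
    rw [← H.hom x (-1) (-(y / x)) hx, mul_neg, mul_one, mul_neg, mul_div_cancel₀ _ hx.ne']
  set V : ℝ → ℝ → ℝ := fun x y => if 0 < x then x * v1 (y / x) else -x * v2 (y / x) with hV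
  have Vp : ∀ x y, 0 < x → V x y = x * v1 (y / x) := fun x y hx => by simp only [hV, if_pos hx]
  have Vn : ∀ x y, x ≤ 0 → V x y = -x * v2 (y / x) := fun x y hx => by
    simp only [hV, if_neg (not_lt.mpr hx)]
  have sump : ∀ x y, 0 < x → 1 / V x y + 1 / V (-x) (-y) = 1 / g x y + 1 / g (-x) (-y) := by
    intro x y hx
    rw [Vp x y hx, Vn (-x) (-y) (by linarith), neg_neg, neg_div_neg_eq, ← gp x y hx, ← gp' x y hx]
    have := hs (y / x)
    have e : ∀ a b : ℝ, 1 / (x * a) + 1 / (x * b) = (1 / x) * (1 / a + 1 / b) := by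
      intro a b
      simp only [one_div, mul_inv]
      ring
    rw [e, e, this]
  have cdiv : ∀ x y : ℝ, x ≠ 0 → ContinuousAt (fun p : ℝ × ℝ => p.2 / p.1) (x, y) :=
    fun x y hx => ContinuousAt.div continuousAt_snd continuousAt_fst hx
  have np : ∀ x y : ℝ, 0 < x → ∀ᶠ p : ℝ × ℝ in 𝓝 (x, y), 0 < p.1 := fun x y hx =>
    continuousAt_fst.eventually (lt_mem_nhds hx)
  have nn : ∀ x y : ℝ, x < 0 → ∀ᶠ p : ℝ × ℝ in 𝓝 (x, y), p.1 < 0 := fun x y hx =>
    continuousAt_fst.eventually (gt_mem_nhds hx)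
  refine ⟨V, ⟨by rw [Vn 0 0 le_rfl]; simp, ?_, ?_, ?_, ?_, ?_, ?_, ?_⟩⟩
  · intro x y hx h
    rcases lt_or_gt_of_ne hx with h' | h'
    · rw [Vn x y h'.le, (e2 _ h).2, ← gp (-x) (-y) (by linarith), neg_div_neg_eq]
    · rw [Vp x y h', (e2 _ h).1, gp' x y h']
  · intro x y hx h
    rcases lt_or_gt_of_ne hx with h' | h'
    · have := gp' (-x) (-y) (by linarith)
      rw [neg_neg, neg_neg, neg_div_neg_eq] at this
      rw [Vn x y h'.le, (e1 _ h).2, this]
    · rw [Vp x y h', (e1 _ h).1, gp x y h']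
  · intro x y hx
    rcases lt_or_gt_of_ne hx with h' | h'
    · have := sump (-x) (-y) (by linarith)
      rw [neg_neg, neg_neg] at this
      linarith
    · exact sump x y h'
  · intro x y hx
    rcases lt_or_gt_of_ne hx with h' | h'
    · rw [Vn x y h'.le]; exact mul_pos (by linarith) (p2 _)
    · rw [Vp x y h']; exact mul_pos h' (p1 _)
  · intro c x y hc
    rcases le_or_gt x 0 with h' | h'
    · rw [Vn x y h', Vn _ _ (by nlinarith), mul_div_mul_left _ _ hc.ne']; ring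
    · rw [Vp x y h', Vp _ _ (mul_pos hc h'), mul_div_mul_left _ _ hc.ne']; ring
  · intro x y hx
    rcases lt_or_gt_of_ne hx with h' | h'
    · refine ContinuousAt.congr (f := fun p : ℝ × ℝ => -p.1 * v2 (p.2 / p.1))
        (continuousAt_fst.neg.mul (c2.continuousAt.comp (cdiv x y hx))) ?_
      filter_upwards [nn x y h'] with p hp
      rw [Vn _ _ hp.le]
    · refine ContinuousAt.congr (f := fun p : ℝ × ℝ => p.1 * v1 (p.2 / p.1))
        (continuousAt_fst.mul (c1.continuousAt.comp (cdiv x y hx))) ?_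
      filter_upwards [np x y h'] with p hp
      rw [Vp _ _ hp]
  · intro x y hx
    rcases lt_or_gt_of_ne hx with h' | h'
    · obtain ⟨α, β, h1, h2⟩ := l2 (y / x)
      refine ⟨-α, -β, ?_, ?_⟩
      · rw [Vn x y h'.le, h1]; field_simp; ring
      · filter_upwards [nn x y h', (cdiv x y hx).eventually h2] with p hp hq
        rw [Vn _ _ hp.le]
        have := mul_le_mul_of_nonneg_left hq (show 0 ≤ -p.1 by linarith)
        have e : -p.1 * (α + β * (p.2 / p.1)) = -α * p.1 + -β * p.2 := by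
          have := hp.ne
          field_simp; ring
        linarith
    · obtain ⟨α, β, h1, h2⟩ := l1 (y / x)
      refine ⟨α, β, ?_, ?_⟩
      · rw [Vp x y h', h1]; field_simp
      · filter_upwards [np x y h', (cdiv x y hx).eventually h2] with p hp hq
        rw [Vp _ _ hp]
        have := mul_le_mul_of_nonneg_left hq hp.le
        have e : p.1 * (α + β * (p.2 / p.1)) = α * p.1 + β * p.2 := by
          have := hp.ne'
          field_simp
        linarith

lemma ratio_cases {x y : ℝ} (hx : x ≠ 0) (hy : y ≠ 0) (h1 : |y| < 3 * |x|) (h2 : |x| < 3 * |y|) :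
    (1 / 3 ≤ y / x ∧ 1 / 3 ≤ x / y) ∨ (y / x ≤ -(1 / 3) ∧ x / y ≤ -(1 / 3)) := by
  rcases lt_or_gt_of_ne hx with a | a <;> rcases lt_or_gt_of_ne hy with b | b
  · rw [abs_of_neg a, abs_of_neg b] at h1 h2
    left
    rw [le_div_iff_of_neg a, le_div_iff_of_neg b]
    constructor <;> linarith
  · rw [abs_of_neg a, abs_of_pos b] at h1 h2
    right
    rw [div_le_iff_of_neg a, div_le_iff₀ b]
    constructor <;> linarith
  · rw [abs_of_pos a, abs_of_neg b] at h1 h2
    right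
    rw [div_le_iff₀ a, div_le_iff_of_neg b]
    constructor <;> linarith
  · rw [abs_of_pos a, abs_of_pos b] at h1 h2
    left
    rw [le_div_iff₀ a, le_div_iff₀ b]
    constructor <;> linarith

theorem exists_v {g : ℝ → ℝ → ℝ} (H : G2 g) : ∃ v : ℝ → ℝ → ℝ, v 0 0 = 0 ∧
    (∀ c x y, 0 < c → v (c * x) (c * y) = c * v x y) ∧
    (∀ x y, (x ≠ 0 ∨ y ≠ 0) → 0 < v x y) ∧
    (∀ x y, (x ≠ 0 ∨ y ≠ 0) → 1 / v x y + 1 / v (-x) (-y) = 1 / g x y + 1 / g (-x) (-y)) ∧
    (∀ x y x' y' s, 0 ≤ s → s ≤ 1 →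
      v (x + s * (x' - x)) (y + s * (y' - y)) ≤ (1 - s) * v x y + s * v x' y') ∧
    v 1 (1 / 2) ≠ g 1 (1 / 2) ∧ v 1 (-(1 / 2)) ≠ g (-1) (1 / 2) := by
  obtain ⟨V, hV⟩ := exists_win H
  obtain ⟨W, hW⟩ := exists_win H.swap
  set v : ℝ → ℝ → ℝ := fun x y => if |y| < |x| then V x y else W y x with hv
  have ovl : ∀ x y, |y| < 3 * |x| → |x| < 3 * |y| → V x y = W y x := by
    intro x y h1 h2
    have hx : x ≠ 0 := by rintro rfl; simp at h1; linarith [abs_nonneg y]
    have hy : y ≠ 0 := by rintro rfl; simp at h2; linarith [abs_nonneg x]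
    rcases ratio_cases hx hy h1 h2 with h | h
    · rw [hV.neg x y hx h.1, hW.neg y x hy h.2]
    · rw [hV.same x y hx h.1, hW.same y x hy h.2]
  have vV : ∀ x y, |y| < 3 * |x| → v x y = V x y := by
    intro x y h
    by_cases h' : |y| < |x|
    · simp only [hv, if_pos h']
    · simp only [hv, if_neg h']
      push Not at h'
      refine (ovl x y h ?_).symm
      have := abs_nonneg y
      have := abs_nonneg x
      linarith
  have vW : ∀ x y, |x| < 3 * |y| → v x y = W y x := by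
    intro x y h
    by_cases h' : |y| < |x|
    · simp only [hv, if_pos h']
      refine ovl x y ?_ h
      have := abs_nonneg y
      linarith
    · simp only [hv, if_neg h']
  have cas : ∀ x y : ℝ, (x ≠ 0 ∨ y ≠ 0) →
      (x ≠ 0 ∧ |y| < 3 * |x|) ∨ (y ≠ 0 ∧ |x| < 3 * |y|) := by
    intro x y h
    have a := abs_nonneg x
    have b := abs_nonneg y
    rcases lt_or_ge |y| |x| with h' | h'
    · left
      exact ⟨by rintro rfl; simp at h'; linarith, by linarith⟩
    · right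
      have hy : y ≠ 0 := by
        rintro rfl
        simp at h' h
        exact h h'
      have := abs_pos.mpr hy
      exact ⟨hy, by linarith⟩
  have nV : ∀ x y : ℝ, |y| < 3 * |x| → ∀ᶠ p : ℝ × ℝ in 𝓝 (x, y), v p.1 p.2 = V p.1 p.2 := by
    intro x y h
    have : IsOpen {p : ℝ × ℝ | |p.2| < 3 * |p.1|} := isOpen_lt (by fun_prop) (by fun_prop)
    filter_upwards [this.mem_nhds (show (x, y) ∈ _ from h)] with p hp using vV _ _ hp
  have nW : ∀ x y : ℝ, |x| < 3 * |y| → ∀ᶠ p : ℝ × ℝ in 𝓝 (x, y), v p.1 p.2 = W p.2 p.1 := by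
    intro x y h
    have : IsOpen {p : ℝ × ℝ | |p.1| < 3 * |p.2|} := isOpen_lt (by fun_prop) (by fun_prop)
    filter_upwards [this.mem_nhds (show (x, y) ∈ _ from h)] with p hp using vW _ _ hp
  have sw : ∀ x y : ℝ, Tendsto (Prod.swap : ℝ × ℝ → ℝ × ℝ) (𝓝 (x, y)) (𝓝 (y, x)) := fun x y =>
    continuous_swap.tendsto (x, y)
  have vc : ∀ x y : ℝ, (x ≠ 0 ∨ y ≠ 0) → ContinuousAt (fun p : ℝ × ℝ => v p.1 p.2) (x, y) := by
    intro x y h
    rcases cas x y h with ⟨a, b⟩ | ⟨a, b⟩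
    · exact (hV.cont x y a).congr ((nV x y b).mono fun p hp => hp.symm)
    · have : ContinuousAt (fun p : ℝ × ℝ => W p.2 p.1) (x, y) :=
        ContinuousAt.comp (f := Prod.swap) (g := fun p : ℝ × ℝ => W p.1 p.2) (hW.cont y x a)
          continuous_swap.continuousAt
      exact this.congr ((nW x y b).mono fun p hp => hp.symm)
  have vs : ∀ x y : ℝ, (x ≠ 0 ∨ y ≠ 0) → ∃ α β, v x y = α * x + β * y ∧
      ∀ᶠ p : ℝ × ℝ in 𝓝 (x, y), α * p.1 + β * p.2 ≤ v p.1 p.2 := by
    intro x y h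
    rcases cas x y h with ⟨a, b⟩ | ⟨a, b⟩
    · obtain ⟨α, β, h1, h2⟩ := hV.supp x y a
      refine ⟨α, β, by rw [vV x y b, h1], ?_⟩
      filter_upwards [h2, nV x y b] with p h3 h4
      rw [h4]; exact h3
    · obtain ⟨α, β, h1, h2⟩ := hW.supp y x a
      refine ⟨β, α, by rw [vW x y b, h1]; ring, ?_⟩
      filter_upwards [(sw x y).eventually h2, nW x y b] with p h3 h4
      rw [h4]
      simp only [Prod.fst_swap, Prod.snd_swap] at h3
      linarith
  have v0 : v 0 0 = 0 := by simp only [hv, lt_self_iff_false, if_false]; exact hW.zero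
  have vh : ∀ c x y, 0 < c → v (c * x) (c * y) = c * v x y := by
    intro c x y hc
    by_cases h' : |y| < |x|
    · have : |c * y| < |c * x| := by
        rw [abs_mul, abs_mul]; exact mul_lt_mul_of_pos_left h' (abs_pos.mpr hc.ne')
      simp only [hv, if_pos h', if_pos this, hV.hom c x y hc]
    · have : ¬ |c * y| < |c * x| := by
        rw [abs_mul, abs_mul]
        intro k
        exact h' (lt_of_mul_lt_mul_left k (abs_nonneg c))
      simp only [hv, if_neg h', if_neg this, hW.hom c y x hc]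
  have vh0 : ∀ c x y, 0 ≤ c → v (c * x) (c * y) = c * v x y := by
    intro c x y hc
    rcases hc.eq_or_lt with h | h
    · rw [← h]; simp [v0]
    · exact vh c x y h
  have vp : ∀ x y, (x ≠ 0 ∨ y ≠ 0) → 0 < v x y := by
    intro x y h
    rcases cas x y h with ⟨a, b⟩ | ⟨a, b⟩
    · rw [vV x y b]; exact hV.pos x y a
    · rw [vW x y b]; exact hW.pos y x a
  have vp0 : ∀ x y, 0 ≤ v x y := by
    intro x y
    by_cases h : x ≠ 0 ∨ y ≠ 0
    · exact (vp x y h).le
    · push Not at h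
      rw [h.1, h.2, v0]
  refine ⟨v, v0, vh, vp, ?_, ?_, ?_, ?_⟩
  · intro x y h
    rcases cas x y h with ⟨a, b⟩ | ⟨a, b⟩
    · rw [vV x y b, vV (-x) (-y) (by rwa [abs_neg, abs_neg])]; exact hV.sum x y a
    · rw [vW x y b, vW (-x) (-y) (by rwa [abs_neg, abs_neg])]; exact hW.sum y x a
  · intro x y x' y' s hs0 hs1
    by_cases hz : ∃ r, 0 ≤ r ∧ r ≤ 1 ∧ x + r * (x' - x) = 0 ∧ y + r * (y' - y) = 0
    · obtain ⟨r, r0, r1, rx, ry⟩ := hz
      set a := x' - x with ha
      set b := y' - y with hb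
      have f1 : v x y = r * v (-a) (-b) := by
        rw [← vh0 r _ _ r0]; congr 1 <;> linarith
      have f2 : v x' y' = (1 - r) * v a b := by
        rw [← vh0 (1 - r) _ _ (by linarith)]; congr 1 <;> linarith
      have n1 := vp0 a b
      have n2 := vp0 (-a) (-b)
      rcases le_total r s with k | k
      · have f3 : v (x + s * a) (y + s * b) = (s - r) * v a b := by
          rw [← vh0 (s - r) _ _ (by linarith)]; congr 1 <;> linarith
        rw [f1, f2, f3]
        have := mul_nonneg (mul_nonneg (show 0 ≤ 1 - s by linarith) r0) n2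
        have := mul_nonneg (mul_nonneg (show 0 ≤ 1 - s by linarith) r0) n1
        nlinarith
      · have f3 : v (x + s * a) (y + s * b) = (r - s) * v (-a) (-b) := by
          rw [← vh0 (r - s) _ _ (by linarith)]; congr 1 <;> linarith
        rw [f1, f2, f3]
        have := mul_nonneg (mul_nonneg (show 0 ≤ 1 - r by linarith) hs0) n2
        have := mul_nonneg (mul_nonneg (show 0 ≤ 1 - r by linarith) hs0) n1
        nlinarith
    · have nz : ∀ r, 0 ≤ r → r ≤ 1 → (x + r * (x' - x) ≠ 0 ∨ y + r * (y' - y) ≠ 0) := by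
        intro r r0 r1
        by_contra h
        push Not at h
        exact hz ⟨r, r0, r1, h.1, h.2⟩
      have cl : Continuous fun r : ℝ => (x + r * (x' - x), y + r * (y' - y)) := by fun_prop
      have := chord_of_locSupp (φ := fun r => v (x + r * (x' - x)) (y + r * (y' - y))) (by
        intro r hr
        exact (ContinuousAt.comp (f := fun r : ℝ => (x + r * (x' - x), y + r * (y' - y)))
          (g := fun p : ℝ × ℝ => v p.1 p.2) (vc _ _ (nz r hr.1 hr.2))
          cl.continuousAt).continuousWithinAt) (by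
        intro r hr
        obtain ⟨α, β, h1, h2⟩ := vs _ _ (nz r hr.1.le hr.2.le)
        refine ⟨α * x + β * y, α * (x' - x) + β * (y' - y), by simp only [h1]; ring, ?_⟩
        filter_upwards [(cl.tendsto r).eventually h2] with r' h3
        linarith) (s := s) ⟨hs0, hs1⟩
      simpa using this
  · rw [vV 1 (1 / 2) (by norm_num [abs_of_pos]), hV.neg 1 (1 / 2) one_ne_zero (by norm_num)]
    have a := (H.hyp.u1_bd (t := 1 / 2) (by norm_num) le_rfl).2
    have b := (H.hyp.u2_low (t := 1 / 2) (by norm_num) le_rfl).1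
    intro h
    linarith
  · rw [vV 1 (-(1 / 2)) (by norm_num [abs_of_pos]),
      hV.same 1 (-(1 / 2)) one_ne_zero (by norm_num)]
    have a := (H.hyp.u1_bd (t := -(1 / 2)) le_rfl (by norm_num)).2
    have b := (H.hyp.u2_low (t := -(1 / 2)) le_rfl (by norm_num)).1
    intro h
    simp only [neg_neg] at a b
    linarith

end Pool.Agent.H758Z.Sec
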