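import Pool.Agent.H758Z.SecD

open Set Topology Filter Metric
open scoped Pointwise

namespace Pool.Agent.H758Z.Sec

abbrev E : Type := EuclideanSpace ℝ (Fin 2)

noncomputable def pt (x y : ℝ) : E := !₂[x, y]

@[simp] lemma pt0 (x y : ℝ) : pt x y 0 = x := rfl
@[simp] lemma pt1 (x y : ℝ) : pt x y 1 = y := rfl

lemma ext2 {p q : E} (h0 : p 0 = q 0) (h1 : p 1 = q 1) : p = q := by
  ext i
  fin_cases i
  · exact h0
  · exact h1

lemma pt_eta (p : E) : pt (p 0) (p 1) = p := ext2 rfl rfl

lemma pt_smul (c x y : ℝ) : pt (c * x) (c * y) = c • pt x y := ext2 (by simp) (by simp)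

lemma pt_neg (x y : ℝ) : pt (-x) (-y) = -pt x y := ext2 (by simp) (by simp)

lemma pt_ne {x y : ℝ} (h : x ≠ 0 ∨ y ≠ 0) : pt x y ≠ 0 := by
  intro e
  rcases h with h | h
  · exact h (by simpa using congrArg (fun p : E => p 0) e)
  · exact h (by simpa using congrArg (fun p : E => p 1) e)

lemma ne_pt {p : E} (h : p ≠ 0) : p 0 ≠ 0 ∨ p 1 ≠ 0 := by
  by_contra k
  push Not at k
  exact h (ext2 k.1 k.2)

lemma cont_pt : Continuous fun p : ℝ × ℝ => pt p.1 p.2 := by
  unfold pt
  fun_prop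

lemma abs_coord (p : E) (i : Fin 2) : |p i| ≤ ‖p‖ := by
  simpa using PiLp.norm_apply_le p i

/-- completeness of the space of convex bodies -/
instance complete_cb : CompleteSpace (ConvexBody E) := by
  let f : ConvexBody E → TopologicalSpace.NonemptyCompacts E := fun K =>
    ⟨⟨K, K.isCompact⟩, K.nonempty⟩
  have hf : Isometry f := by
    intro K L
    exact ConvexBody.hausdorffEDist_coe (K := K) (L := L)
  refine (completeSpace_iff_isComplete_range hf.isUniformInducing).mpr (IsClosed.isComplete ?_)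
  rw [← closure_subset_iff_isClosed]
  intro C hC
  have hconv : Convex ℝ (C : Set E) := by
    intro x hx y hy a b ha hb hab
    rw [← C.isCompact.isClosed.closure_eq, Metric.mem_closure_iff]
    intro ε hε
    obtain ⟨_, ⟨K, rfl⟩, hK⟩ := Metric.mem_closure_iff.mp hC (ε / 2) (by linarith)
    rw [Metric.NonemptyCompacts.dist_eq] at hK
    have fin : hausdorffEDist (C : Set E) (f K : Set E) ≠ ⊤ :=
      hausdorffEDist_ne_top_of_nonempty_of_bounded C.nonempty (f K).nonempty
        C.isCompact.isBounded (f K).isCompact.isBounded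
    obtain ⟨x', hx', dx⟩ := exists_dist_lt_of_hausdorffDist_lt hx hK fin
    obtain ⟨y', hy', dy⟩ := exists_dist_lt_of_hausdorffDist_lt hy hK fin
    have hz : a • x' + b • y' ∈ (f K : Set E) := K.convex hx' hy' ha hb hab
    obtain ⟨z, hz', dz⟩ := exists_dist_lt_of_hausdorffDist_lt' hz hK fin
    refine ⟨z, hz', ?_⟩
    have e : dist (a • x + b • y) (a • x' + b • y') ≤ ε / 2 := by
      rw [dist_eq_norm] at dx dy ⊢
      have : a • x + b • y - (a • x' + b • y') = a • (x - x') + b • (y - y') := by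
        simp only [smul_sub]; abel
      rw [this]
      refine (norm_add_le _ _).trans ?_
      rw [norm_smul, norm_smul, Real.norm_of_nonneg ha, Real.norm_of_nonneg hb]
      have h1 := mul_le_mul_of_nonneg_left dx.le ha
      have h2 := mul_le_mul_of_nonneg_left dy.le hb
      have : a * (ε / 2) + b * (ε / 2) = ε / 2 := by rw [← add_mul, hab, one_mul]
      linarith
    have := dist_triangle (a • x + b • y) (a • x' + b • y') z
    rw [dist_comm] at dz
    linarith
  exact ⟨⟨C, hconv, C.isCompact, C.nonempty⟩, rfl⟩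

/-- cancellation: a Hausdorff-close convex body contains a slightly shrunk copy -/
lemma shrink {K L : ConvexBody E} {r δ : ℝ} (hr : 0 < r) (hδ : 0 < δ) (hδr : δ < r)
    (hB : closedBall (0 : E) r ⊆ K) (hd : dist K L < δ) {q : E} (hq : q ∈ K) :
    (1 - δ / r) • q ∈ L := by
  by_contra hcon
  obtain ⟨f, u, h1, h2⟩ := geometric_hahn_banach_closed_point L.convex L.isClosed hcon
  obtain ⟨m, hm, hmax⟩ := K.isCompact.exists_isMaxOn K.nonempty f.continuous.continuousOn
  rw [← ConvexBody.hausdorffDist_coe] at hd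
  obtain ⟨y, hy, dy⟩ := exists_dist_lt_of_hausdorffDist_lt hm hd ConvexBody.hausdorffEDist_ne_top
  have hw : (r / δ) • (m - y) ∈ (K : Set E) := by
    apply hB
    rw [mem_closedBall_zero_iff, norm_smul, Real.norm_of_nonneg (by positivity), ← dist_eq_norm,
      div_mul_eq_mul_div, div_le_iff₀ hδ]
    exact mul_le_mul_of_nonneg_left dy.le hr.le
  have k1 : f ((r / δ) • (m - y)) ≤ f m := hmax hw
  have k2 : f q ≤ f m := hmax hq
  have k3 := h1 y hy
  rw [map_smul, map_sub, smul_eq_mul] at k1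
  rw [map_smul, smul_eq_mul] at h2
  have k4 : f m - f y ≤ δ / r * f m := by
    have := mul_le_mul_of_nonneg_left k1 (show 0 ≤ δ / r by positivity)
    have e : δ / r * (r / δ * (f m - f y)) = f m - f y := by field_simp
    linarith
  have k5 : 0 ≤ 1 - δ / r := by
    rw [sub_nonneg, div_le_one hr]; exact hδr.le
  have := mul_le_mul_of_nonneg_left k2 k5
  linarith

lemma zero_int {K L : ConvexBody E} {r δ : ℝ} (hr : 0 < r) (hδ : 0 < δ) (hδr : δ < r)
    (hB : closedBall (0 : E) r ⊆ K) (hd : dist K L < δ) : (0 : E) ∈ interior (L : Set E) := by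
  rw [mem_interior_iff_mem_nhds]
  have k5 : 0 < 1 - δ / r := by
    rw [sub_pos, div_lt_one hr]; exact hδr
  refine mem_of_superset (closedBall_mem_nhds 0 (mul_pos k5 hr)) fun p hp => ?_
  have hq : (1 - δ / r)⁻¹ • p ∈ K := by
    apply hB
    rw [mem_closedBall_zero_iff] at hp ⊢
    rw [norm_smul, Real.norm_of_nonneg (inv_pos.mpr k5).le, inv_mul_le_iff₀ k5]
    exact hp
  have := shrink hr hδ hδr hB hd hq
  rwa [smul_smul, mul_inv_cancel₀ k5.ne', one_smul] at this

lemma isOpen_zero_int : IsOpen {K : ConvexBody E | (0 : E) ∈ interior (K : Set E)} := by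
  rw [Metric.isOpen_iff]
  intro K hK
  have hK' : (K : Set E) ∈ 𝓝 (0 : E) := mem_interior_iff_mem_nhds.mp hK
  obtain ⟨r, hr, hB⟩ := Metric.nhds_basis_closedBall.mem_iff.mp hK'
  refine ⟨r / 2, by linarith, fun L hL => ?_⟩
  exact zero_int (δ := r / 2) hr (by linarith) (by linarith) hB (by rw [dist_comm]; exact hL)

def K0s : Set E := {p | Box (p 0) (p 1) 1}

lemma K0_ball : closedBall (0 : E) (1 / 2) ⊆ K0s := by
  intro p hp
  rw [mem_closedBall_zero_iff] at hp
  obtain ⟨a, b⟩ := abs_le.mp ((abs_coord p 0).trans hp)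
  obtain ⟨c, d⟩ := abs_le.mp ((abs_coord p 1).trans hp)
  refine ⟨?_, ?_, ?_, ?_, ?_, ?_, ?_, ?_⟩ <;> linarith

lemma norm_le_coords (p : E) : ‖p‖ ≤ |p 0| + |p 1| := by
  rw [EuclideanSpace.norm_eq, Fin.sum_univ_two, Real.norm_eq_abs, Real.norm_eq_abs]
  apply Real.sqrt_le_iff.mpr
  have := abs_nonneg (p 0)
  have := abs_nonneg (p 1)
  constructor
  · positivity
  · nlinarith

noncomputable def K0 : ConvexBody E where
  carrier := K0s
  convex' := by
    intro x hx y hy a b ha hb hab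
    obtain ⟨x1, x2, x3, x4, x5, x6, x7, x8⟩ := hx
    obtain ⟨y1, y2, y3, y4, y5, y6, y7, y8⟩ := hy
    have e0 : (a • x + b • y) 0 = a * x 0 + b * y 0 := by simp
    have e1 : (a • x + b • y) 1 = a * x 1 + b * y 1 := by simp
    show Box _ _ _
    rw [e0, e1]
    refine ⟨?_, ?_, ?_, ?_, ?_, ?_, ?_, ?_⟩ <;> nlinarith
  isCompact' := by
    refine Metric.isCompact_of_isClosed_isBounded ?_ ?_
    · unfold K0s Box
      simp only [setOf_and]
      refine IsClosed.inter ?_ (IsClosed.inter ?_ (IsClosed.inter ?_ (IsClosed.inter ?_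
        (IsClosed.inter ?_ (IsClosed.inter ?_ (IsClosed.inter ?_ ?_)))))) <;>
      exact isClosed_le (by fun_prop) continuous_const
    · refine (isBounded_closedBall (x := (0 : E)) (r := 4)).subset fun p hp => ?_
      obtain ⟨x1, x2, x3, x4, -⟩ := hp
      rw [mem_closedBall_zero_iff]
      have a : |p 0| ≤ 2 := abs_le.mpr ⟨by linarith, by linarith⟩
      have b : |p 1| ≤ 2 := abs_le.mpr ⟨by linarith, by linarith⟩
      linarith [norm_le_coords p]
  nonempty' := ⟨0, K0_ball (mem_closedBall_self (by norm_num))⟩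

lemma gauge_facts {K : ConvexBody E} (h0 : (0 : E) ∈ interior (K : Set E)) :
    (∀ p, gauge (K : Set E) p ≤ 1 ↔ p ∈ (K : Set E)) ∧
    (∀ p, p ≠ 0 → 0 < gauge (K : Set E) p) ∧
    (∀ (c : ℝ) p, 0 ≤ c → gauge (K : Set E) (c • p) = c * gauge (K : Set E) p) := by
  have hn : (K : Set E) ∈ 𝓝 (0 : E) := mem_interior_iff_mem_nhds.mp h0
  refine ⟨fun p => ?_, fun p hp => ?_, fun c p hc => ?_⟩
  · rw [gauge_le_one_iff_mem_closure K.convex hn, K.isClosed.closure_eq]
  · exact (gauge_pos (absorbent_nhds_zero hn)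
      (NormedSpace.isVonNBounded_of_isBounded ℝ K.isBounded)).mpr hp
  · rw [gauge_smul_of_nonneg hc, smul_eq_mul]

lemma g2_of_near {K : ConvexBody E} (hd : dist K0 K < 1 / 2000000) :
    G2 (fun x y => gauge (K : Set E) (pt x y)) := by
  have h0 : (0 : E) ∈ interior (K : Set E) :=
    zero_int (r := 1 / 2) (by norm_num) (by norm_num) (by norm_num) K0_ball hd
  have hn : (K : Set E) ∈ 𝓝 (0 : E) := mem_interior_iff_mem_nhds.mp h0
  obtain ⟨g1, g2, g3⟩ := gauge_facts h0
  refine ⟨(continuous_gauge K.convex hn).comp cont_pt, fun c x y hc => ?_,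
    fun x y h => g2 _ (pt_ne h), fun x y => ?_, fun x y r hr hb => ?_, fun x y h => ?_⟩
  · simp only [pt_smul, g3 c _ hc.le]
  · by_cases h : x ≠ 0 ∨ y ≠ 0
    · obtain ⟨f, f1, f2⟩ := exists_extension_of_le_sublinear
        (LinearPMap.mkSpanSingleton (K := ℝ) (pt x y) (gauge (K : Set E) (pt x y)) (pt_ne h))
        (gauge (K : Set E)) (fun c hc p => g3 c p hc.le)
        (fun p q => gauge_add_le K.convex (absorbent_nhds_zero hn) p q) (by
          rintro ⟨p, hp⟩
          obtain ⟨c, rfl⟩ := Submodule.mem_span_singleton.mp hp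
          rw [LinearPMap.mkSpanSingleton'_apply]
          simp only [RingHom.id_apply, smul_eq_mul]
          rcases le_total 0 c with hc | hc
          · rw [g3 c _ hc]
          · exact (mul_nonpos_of_nonpos_of_nonneg hc (gauge_nonneg _)).trans (gauge_nonneg _))
      have lin : ∀ x' y', f (pt x' y') = f (pt 1 0) * x' + f (pt 0 1) * y' := by
        intro x' y'
        have : pt x' y' = x' • pt 1 0 + y' • pt 0 1 := ext2 (by simp) (by simp)
        rw [this, map_add, map_smul, map_smul, smul_eq_mul, smul_eq_mul]; ring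
      refine ⟨f (pt 1 0), f (pt 0 1), ?_, fun x' y' => ?_⟩
      · rw [← lin]
        have := f1 ⟨pt x y, Submodule.mem_span_singleton_self _⟩
        rw [LinearPMap.mkSpanSingleton_apply] at this
        exact this.symm
      · rw [← lin]; exact f2 _
    · push Not at h
      refine ⟨0, 0, ?_, fun x' y' => by simpa using gauge_nonneg _⟩
      have : pt x y = 0 := ext2 h.1 h.2
      simp [this]
  · have hq : pt (r⁻¹ * x) (r⁻¹ * y) ∈ K0 := by
      obtain ⟨x1, x2, x3, x4, x5, x6, x7, x8⟩ := hb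
      have hi := inv_pos.mpr hr
      have e : r⁻¹ * r = 1 := inv_mul_cancel₀ hr.ne'
      show Box (r⁻¹ * x) (r⁻¹ * y) 1
      refine ⟨?_, ?_, ?_, ?_, ?_, ?_, ?_, ?_⟩ <;> nlinarith
    have := (g1 _).mpr (shrink (r := 1 / 2) (by norm_num) (by norm_num) (by norm_num) K0_ball hd hq)
    rw [g3 _ _ (by norm_num), pt_smul, g3 _ _ (inv_pos.mpr hr).le, ← mul_assoc, mul_comm _ r⁻¹,
      mul_assoc, inv_mul_le_iff₀ hr] at this
    linarith
  · have gp := g2 _ (pt_ne h)
    set G := gauge (K : Set E) (pt x y) with hG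
    have hq : G⁻¹ • pt x y ∈ (K : Set E) := by
      rw [← g1, g3 _ _ (inv_pos.mpr gp).le, ← hG, inv_mul_cancel₀ gp.ne']
    rw [← ConvexBody.hausdorffDist_coe] at hd
    obtain ⟨z, hz, dz⟩ := exists_dist_lt_of_hausdorffDist_lt' hq hd ConvexBody.hausdorffEDist_ne_top
    rw [dist_eq_norm] at dz
    obtain ⟨a, b⟩ := abs_le.mp ((abs_coord _ 0).trans dz.le)
    obtain ⟨c, d⟩ := abs_le.mp ((abs_coord _ 1).trans dz.le)
    simp only [PiLp.sub_apply, PiLp.smul_apply, pt0, pt1, smul_eq_mul] at a b c d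
    obtain ⟨x1, x2, x3, x4, x5, x6, x7, x8⟩ := hz
    have ex : x = G * (G⁻¹ * x) := by field_simp
    have ey : y = G * (G⁻¹ * y) := by field_simp
    set X := G⁻¹ * x
    set Y := G⁻¹ * y
    rw [ex, ey]
    refine ⟨?_, ?_, ?_, ?_, ?_, ?_, ?_, ?_⟩ <;> nlinarith

end Pool.Agent.H758Z.Sec
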