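import Pool.Agent.H758Z.SecE

open Set Topology Filter Metric
open scoped Pointwise

namespace Pool.Agent.H758Z.Sec

lemma line_mem {w : E → ℝ} (hw : ∀ (c : ℝ) p, 0 ≤ c → w (c • p) = c * w p) {e : E}
    (p1 : 0 < w e) (p2 : 0 < w (-e)) (r : ℝ) :
    w (r • e) ≤ 1 ↔ -(1 / w (-e)) ≤ r ∧ r ≤ 1 / w e := by
  have q1 : 0 < 1 / w e := by positivity
  have q2 : 0 < 1 / w (-e) := by positivity
  rcases le_total 0 r with h | h
  · rw [hw r e h, le_div_iff₀ p1]
    exact ⟨fun k => ⟨by linarith, k⟩, fun k => k.2⟩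
  · have : r • e = (-r) • (-e) := by simp
    rw [this, hw (-r) _ (by linarith), neg_le, le_div_iff₀ p2]
    exact ⟨fun k => ⟨k, by linarith⟩, fun k => k.1⟩

lemma ne_of_gauge {w w' : E → ℝ} (hw : ∀ (c : ℝ) p, 0 ≤ c → w (c • p) = c * w p)
    (hw' : ∀ (c : ℝ) p, 0 ≤ c → w' (c • p) = c * w' p) {e : E} (p1 : 0 < w e) (p2 : 0 < w' e)
    (h : ∀ p, w p ≤ 1 ↔ w' p ≤ 1) : w e = w' e := by
  have a := (h ((w e)⁻¹ • e)).mp (by rw [hw _ _ (inv_pos.mpr p1).le, inv_mul_cancel₀ p1.ne'])
  have b := (h ((w' e)⁻¹ • e)).mpr (by rw [hw' _ _ (inv_pos.mpr p2).le, inv_mul_cancel₀ p2.ne'])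
  rw [hw' _ _ (inv_pos.mpr p1).le, inv_mul_le_iff₀ p1] at a
  rw [hw _ _ (inv_pos.mpr p2).le, inv_mul_le_iff₀ p2] at b
  linarith

theorem exists_L {K : ConvexBody E} (hd : dist K0 K < 1 / 2000000) :
    ∃ L : ConvexBody E, (0 : E) ∈ interior (L : Set E) ∧ (L : Set E) ≠ (K : Set E) ∧
      (L : Set E) ≠ -(K : Set E) ∧
      ∀ S : Submodule ℝ E, Module.finrank ℝ S = 1 → ∃ c : E,
        (L : Set E) ∩ (S : Set E) = c +ᵥ ((K : Set E) ∩ (S : Set E)) := by
  have H := g2_of_near hd
  have h0 : (0 : E) ∈ interior (K : Set E) :=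
    zero_int (r := 1 / 2) (by norm_num) (by norm_num) (by norm_num) K0_ball hd
  obtain ⟨g1, g2, g3⟩ := gauge_facts h0
  obtain ⟨v, v0, vh, vp, vs, vc, n1, n2⟩ := exists_v H
  set w : E → ℝ := fun p => v (p 0) (p 1) with hw
  have w0 : w 0 = 0 := v0
  have wh : ∀ (c : ℝ) p, 0 ≤ c → w (c • p) = c * w p := by
    intro c p hc
    rcases hc.eq_or_lt with h | h
    · rw [← h, zero_smul, w0, zero_mul]
    · exact vh c (p 0) (p 1) h
  have wp : ∀ p, p ≠ 0 → 0 < w p := fun p hp => vp _ _ (ne_pt hp)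
  have ws : ∀ p, p ≠ 0 → 1 / w p + 1 / w (-p) =
      1 / gauge (K : Set E) p + 1 / gauge (K : Set E) (-p) := by
    intro p hp
    have := vs _ _ (ne_pt hp)
    simp only [pt_neg, pt_eta] at this
    exact this
  have wc : ConvexOn ℝ univ w := by
    refine ⟨convex_univ, fun p _ q _ a b ha hb hab => ?_⟩
    have := vc (p 0) (p 1) (q 0) (q 1) b hb (by linarith)
    have ea : a = 1 - b := by linarith
    have e0 : (a • p + b • q) 0 = p 0 + b * (q 0 - p 0) := by simp [ea]; ring
    have e1 : (a • p + b • q) 1 = p 1 + b * (q 1 - p 1) := by simp [ea]; ring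
    simp only [hw, e0, e1, smul_eq_mul]
    rw [ea]; exact this
  have wcont : Continuous w := continuousOn_univ.mp (wc.continuousOn isOpen_univ)
  obtain ⟨R, hR⟩ := K.isBounded.subset_closedBall (0 : E)
  have gR : ∀ p : E, p ≠ 0 → 1 / gauge (K : Set E) p * ‖p‖ ≤ R := by
    intro p hp
    have gp := g2 p hp
    have : (1 / gauge (K : Set E) p) • p ∈ (K : Set E) := by
      rw [← g1, g3 _ _ (by positivity), one_div, inv_mul_cancel₀ gp.ne']
    have := hR this
    rwa [mem_closedBall_zero_iff, norm_smul, Real.norm_of_nonneg (by positivity)] at this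
  have hR0 : 0 ≤ R := by
    have := hR (interior_subset h0)
    simpa using this
  let L : ConvexBody E :=
    { carrier := {p | w p ≤ 1}
      convex' := by simpa using wc.convex_le 1
      isCompact' := by
        refine Metric.isCompact_of_isClosed_isBounded (isClosed_le wcont continuous_const) ?_
        refine (isBounded_closedBall (x := (0 : E)) (r := 2 * R)).subset fun p hp => ?_
        rw [mem_closedBall_zero_iff]
        by_cases h : p = 0
        · rw [h, norm_zero]; linarith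
        · have a1 := gR p h
          have a2 := gR (-p) (neg_ne_zero.mpr h)
          rw [norm_neg] at a2
          have a3 := ws p h
          have a4 : 0 < 1 / w (-p) := one_div_pos.mpr (wp _ (neg_ne_zero.mpr h))
          have a5 : 1 ≤ 1 / w p := by
            rw [le_one_div one_pos (wp p h)]; simpa using hp
          nlinarith [norm_nonneg p]
      nonempty' := ⟨0, by simp [w0]⟩ }
  have hL : ∀ p, p ∈ (L : Set E) ↔ w p ≤ 1 := fun p => Iff.rfl
  refine ⟨L, ?_, ?_, ?_, ?_⟩
  · rw [mem_interior_iff_mem_nhds]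
    have : {p | w p < 1} ∈ 𝓝 (0 : E) :=
      (isOpen_lt wcont continuous_const).mem_nhds (by simp [w0])
    exact mem_of_superset this fun p hp => (hL p).mpr (le_of_lt hp)
  · intro h
    apply n1
    have hp : pt 1 (1 / 2) ≠ 0 := pt_ne (Or.inl one_ne_zero)
    exact ne_of_gauge wh g3 (wp _ hp) (g2 _ hp) (fun p => by rw [← hL, h, g1])
  · intro h
    apply n2
    have hp : pt 1 (-(1 / 2)) ≠ 0 := pt_ne (Or.inl one_ne_zero)
    have := ne_of_gauge (w' := fun p => gauge (K : Set E) (-p)) wh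
      (fun c p hc => by rw [← g3 c _ hc, smul_neg]) (wp _ hp) (g2 _ (neg_ne_zero.mpr hp))
      (fun p => by rw [← hL, h, g1, Set.mem_neg])
    simp only [← pt_neg, neg_neg] at this
    exact this
  · intro S hS
    obtain ⟨⟨e, heS⟩, he0, he⟩ := finrank_eq_one_iff'.mp hS
    have he0' : e ≠ 0 := fun h => he0 (Subtype.ext h)
    have hne : -e ≠ 0 := neg_ne_zero.mpr he0'
    have l1 := line_mem wh (wp e he0') (wp _ hne)
    have l2 := line_mem g3 (g2 e he0') (g2 _ hne)
    have sm := ws e he0'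
    set d := 1 / w e - 1 / gauge (K : Set E) e with hdd
    refine ⟨d • e, ?_⟩
    ext p
    rw [Set.mem_vadd_set_iff_neg_vadd_mem, vadd_eq_add]
    constructor
    · rintro ⟨hp, hpS⟩
      obtain ⟨r, hr⟩ := he ⟨p, hpS⟩
      have hr' : r • e = p := congrArg Subtype.val hr
      subst hr'
      have e1 : -(d • e) + r • e = (r - d) • e := by rw [sub_smul r d e, neg_add_eq_sub]
      rw [e1]
      refine ⟨?_, S.smul_mem _ heS⟩
      rw [← g1, l2]
      have := (l1 r).mp hp
      constructor <;> linarith [this.1, this.2]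
    · rintro ⟨hp, hpS⟩
      obtain ⟨r, hr⟩ := he ⟨_, hpS⟩
      have hr' : r • e = -(d • e) + p := congrArg Subtype.val hr
      have e1 : p = (r + d) • e := by rw [add_smul r d e, hr', neg_add_cancel_comm]
      rw [← hr', ← g1, l2] at hp
      rw [e1]
      refine ⟨?_, S.smul_mem _ heS⟩
      rw [hL, l1]
      constructor <;> linarith [hp.1, hp.2]

theorem not_meagre (P : Set {K : ConvexBody E // (0 : E) ∈ interior (K : Set E)})
    (hP : ∀ K, dist K0 K.1 < 1 / 2000000 → K ∈ P) : ¬ IsMeagre P := by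
  intro h
  have hB : BaireSpace {K : ConvexBody E // (0 : E) ∈ interior (K : Set E)} :=
    isOpen_zero_int.baireSpace
  have hO : IsOpen {K : {K : ConvexBody E // (0 : E) ∈ interior (K : Set E)} |
      dist K0 K.1 < 1 / 2000000} := isOpen_lt (by fun_prop) continuous_const
  refine not_isMeagre_of_isOpen hO ⟨⟨K0, ?_⟩, by simp⟩ (h.mono hP)
  exact zero_int (K := K0) (r := 1 / 2) (δ := 1 / 4) (by norm_num) (by norm_num) (by norm_num) K0_ball
    (by simp)

end Pool.Agent.H758Z.Sec
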